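import Pool.Agent.Helper85.HP.B4

set_option autoImplicit false

/-!
# Hua's inequality: the induction
-/

open Finset

namespace Pool.Agent.Helper85.HP

open Pool.Agent.Helper86.PS Pool.Agent.H807R2.Dav

lemma nrg_one {k : ℕ} {F : ℤ → ℤ} (hF : IsPol (k + 1) F) (I : Finset ℤ) : nrg I F 1 ≤ (k + 1) * I.card := by
  classical
  unfold nrg
  have h1 : (Fintype.piFinset (fun _ : Fin 1 => I)).card = I.card := by
    rw [Fintype.card_piFinset, prod_const, card_univ, Fintype.card_fin, pow_one]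
  rw [← h1]
  apply card_le_mul_card_image_of_maps_to (f := fun p : (Fin 1 → ℤ) × (Fin 1 → ℤ) => p.1)
  · intro p hp
    rw [mem_filter, mem_product] at hp
    exact hp.1.1
  · intro b _
    refine le_trans ?_ (roots_le hF (F (b 0)) I)
    apply card_le_card_of_injOn (fun p => p.2 0)
    · intro p hp
      rw [mem_coe, mem_filter, mem_filter, mem_product, Fintype.mem_piFinset, Fintype.mem_piFinset] at hp
      rw [mem_coe, mem_filter]
      refine ⟨hp.1.1.2 0, ?_⟩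
      have h2 := hp.1.2
      rw [Fin.sum_univ_one, Fin.sum_univ_one, hp.2] at h2
      exact h2.symm
    · intro p hp q hq hpq
      rw [mem_coe, mem_filter] at hp hq
      apply Prod.ext
      · rw [hp.2, hq.2]
      · funext i
        rw [Subsingleton.elim i 0]
        exact hpq

/-- **Hua's inequality** -/
theorem hua (k j : ℕ) (hj : j + 1 ≤ k) : ∃ A : ℝ, 1 ≤ A ∧ ∀ F : ℤ → ℤ, IsPol k F → ∀ P : ℕ, 1 ≤ P → ∀ I : Finset ℤ,
    (∀ x ∈ I, ∀ y ∈ I, y - x ∈ Ioo (-(P : ℤ)) P) → I.card ≤ P → ∀ B : ℕ, (∀ x ∈ I, |F x| ≤ B) → ∀ T : ℝ, 1 ≤ T →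
    (∀ D : ℤ, D ≠ 0 → |D| ≤ 2 ^ k * B → (D.natAbs.divisors.card : ℝ) ≤ T) →
    (nrg I F (2 ^ j) : ℝ) ≤ A * T ^ j * (P : ℝ) ^ (2 ^ (j + 1) - (j + 1)) := by
  induction j with
  | zero =>
    refine ⟨k, by exact_mod_cast hj, ?_⟩
    intro F hF P hP I hI hIc B hB T hT hTD
    obtain ⟨k', rfl⟩ : ∃ k', k = k' + 1 := ⟨k - 1, by omega⟩
    have h1 := nrg_one hF I
    have h2 : (nrg I F 1 : ℝ) ≤ ((k' + 1 : ℕ) : ℝ) * I.card := by exact_mod_cast h1
    have h3 : (I.card : ℝ) ≤ P := by exact_mod_cast hIc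
    have e0 : 2 ^ (0 + 1) - (0 + 1) = 1 := by norm_num
    rw [e0, pow_zero, pow_zero, pow_one, mul_one]
    exact h2.trans (mul_le_mul_of_nonneg_left h3 (Nat.cast_nonneg _))
  | succ j ih =>
    obtain ⟨A, hA, hih⟩ := ih (by omega)
    obtain ⟨d, hd⟩ : ∃ d, k = d + (j + 1) + 1 := ⟨k - (j + 1) - 1, by omega⟩
    obtain ⟨R, hR⟩ : ∃ R : ℕ, R = 2 ^ (j + 1) := ⟨_, rfl⟩
    have hRj : j + 2 ≤ R := by
      rw [hR]
      have := Nat.lt_two_pow_self (n := j + 1)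
      omega
    have hR2 : 2 ^ (j + 1 + 1) = 2 * R := by rw [hR, pow_succ]; ring
    obtain ⟨c0, hc0⟩ : ∃ c0 : ℝ, c0 = (d + 2 * (j + 1) + 1) := ⟨_, rfl⟩
    obtain ⟨c1, hc1⟩ : ∃ c1 : ℝ, c1 = (d + (j + 1) + 1) := ⟨_, rfl⟩
    have hc00 : 0 ≤ c0 := by rw [hc0]; positivity
    have hc11 : 1 ≤ c1 := by rw [hc1]; have : (0:ℝ) ≤ d + j := by positivity
                             linarith
    obtain ⟨e, he⟩ : ∃ e : ℕ, e = R - (j + 1) - 1 := ⟨_, rfl⟩
    refine ⟨2 ^ (e + (j + 1)) * (c0 * A + c1), ?_, ?_⟩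
    · have h1 : (1 : ℝ) ≤ 2 ^ (e + (j + 1)) := one_le_pow₀ (by norm_num)
      have h2 : 1 ≤ c0 * A + c1 := by
        have := mul_nonneg hc00 (by linarith : (0 : ℝ) ≤ A)
        linarith
      exact one_le_mul_of_one_le_of_one_le h1 h2
    intro F hF P hP I hI hIc B hB T hT hTD
    have h1 := hua_step (d := d) (j := j) (by rw [← hd]; exact hF) hI hIc hB (by linarith : (0 : ℝ) ≤ T) (by
      intro D hD hDB
      apply hTD D hD
      refine hDB.trans ?_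
      apply mul_le_mul_of_nonneg_right _ (Int.natCast_nonneg _)
      exact pow_le_pow_right₀ (by norm_num) (by omega))
    have h2 := hih F hF P hP I hI hIc B hB T hT hTD
    rw [← hR, ← hc0, ← hc1, ← he] at h1
    rw [← hR] at h2
    rw [hR2, ← hR]
    have hP0 : (0 : ℝ) ≤ P := Nat.cast_nonneg _
    have e1 : (P : ℝ) ^ (j + 1) * (P : ℝ) ^ (R - (j + 1)) = (P : ℝ) ^ R := by
      rw [← pow_add]; congr 1; omega
    have e2 : (P : ℝ) ^ e * (P : ℝ) ^ R = (P : ℝ) ^ (2 * R - (j + 1 + 1)) := by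
      rw [← pow_add]; congr 1; omega
    have hT0 : (0 : ℝ) ≤ T := by linarith
    calc (nrg I F R : ℝ) ≤ (2 * P : ℝ) ^ e * (c0 * (2 * P) ^ (j + 1) * nrg I F (2 ^ j) + c1 * (2 * T) ^ (j + 1) * P ^ R) := h1
      _ ≤ (2 * P : ℝ) ^ e * (c0 * (2 * P) ^ (j + 1) * (A * T ^ j * P ^ (R - (j + 1))) + c1 * (2 * T) ^ (j + 1) * P ^ R) := by
          apply mul_le_mul_of_nonneg_left _ (by positivity)
          apply add_le_add _ (le_refl _)
          exact mul_le_mul_of_nonneg_left h2 (by positivity)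
      _ = 2 ^ e * P ^ e * (2 ^ (j + 1) * (c0 * A * T ^ j) * (P ^ (j + 1) * P ^ (R - (j + 1))) + 2 ^ (j + 1) * (c1 * T ^ (j + 1)) * P ^ R) := by
          rw [mul_pow, mul_pow, mul_pow]; ring
      _ = 2 ^ (e + (j + 1)) * (c0 * A * T ^ j + c1 * T ^ (j + 1)) * (P ^ e * P ^ R) := by
          rw [e1, pow_add]; ring
      _ ≤ 2 ^ (e + (j + 1)) * (c0 * A * T ^ (j + 1) + c1 * T ^ (j + 1)) * (P ^ e * P ^ R) := by
          apply mul_le_mul_of_nonneg_right _ (by positivity)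
          apply mul_le_mul_of_nonneg_left _ (by positivity)
          apply add_le_add _ (le_refl _)
          apply mul_le_mul_of_nonneg_left _ (by positivity)
          exact pow_le_pow_right₀ hT (by omega)
      _ = _ := by rw [e2]; ring

/-- Hua's inequality with the divisor bound -/
theorem hua_pol (k : ℕ) (hk : 1 ≤ k) {η : ℝ} (hη : 0 < η) : ∃ C : ℝ, 1 ≤ C ∧ ∀ F : ℤ → ℤ, IsPol k F → ∀ P : ℕ, 1 ≤ P →
    ∀ I : Finset ℤ, (∀ x ∈ I, ∀ y ∈ I, y - x ∈ Ioo (-(P : ℤ)) P) → I.card ≤ P → ∀ B : ℕ, 1 ≤ B → (∀ x ∈ I, |F x| ≤ B) →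
    (nrg I F (2 ^ (k - 1)) : ℝ) ≤ C * (B : ℝ) ^ η * (P : ℝ) ^ (2 ^ k - k) := by
  obtain ⟨A, hA, hA2⟩ := hua k (k - 1) (by omega)
  obtain ⟨C0, hC0, hC1⟩ := Pool.Agent.H510R2.divisor_bound (η / k) (by positivity)
  obtain ⟨C2, hC2⟩ : ∃ C2 : ℝ, C2 = max C0 1 := ⟨_, rfl⟩
  have hC21 : 1 ≤ C2 := by rw [hC2]; exact le_max_right _ _
  have hC20 : C0 ≤ C2 := by rw [hC2]; exact le_max_left _ _
  have hk0 : (0 : ℝ) < k := by exact_mod_cast hk
  have hη0 : 0 ≤ η / k := by positivity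
  have h2η : (1 : ℝ) ≤ ((2 : ℝ) ^ k) ^ (η / k) := Real.one_le_rpow (one_le_pow₀ (by norm_num)) hη0
  refine ⟨A * (C2 * ((2 : ℝ) ^ k) ^ (η / k)) ^ (k - 1), ?_, ?_⟩
  · apply one_le_mul_of_one_le_of_one_le hA
    apply one_le_pow₀
    exact one_le_mul_of_one_le_of_one_le hC21 h2η
  intro F hF P hP I hI hIc B hB1 hB
  have hBr : (1 : ℝ) ≤ B := by exact_mod_cast hB1
  have hBη : (1 : ℝ) ≤ (B : ℝ) ^ (η / k) := Real.one_le_rpow hBr hη0
  obtain ⟨T, hT⟩ : ∃ T : ℝ, T = C2 * ((2 : ℝ) ^ k) ^ (η / k) * (B : ℝ) ^ (η / k) := ⟨_, rfl⟩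
  have hT1 : 1 ≤ T := by
    rw [hT]
    exact one_le_mul_of_one_le_of_one_le (one_le_mul_of_one_le_of_one_le hC21 h2η) hBη
  have h1 := hA2 F hF P hP I hI hIc B hB T hT1 (by
    intro D hD hDB
    have h2 : 1 ≤ D.natAbs := Int.natAbs_pos.2 hD
    refine (hC1 _ h2).trans ?_
    have h3 : (D.natAbs : ℝ) ≤ 2 ^ k * B := by
      rw [Int.abs_eq_natAbs] at hDB
      exact_mod_cast hDB
    have h4 : (D.natAbs : ℝ) ^ (η / k) ≤ ((2 : ℝ) ^ k) ^ (η / k) * (B : ℝ) ^ (η / k) := by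
      rw [← Real.mul_rpow (by positivity) (by positivity)]
      exact Real.rpow_le_rpow (Nat.cast_nonneg _) h3 hη0
    rw [hT, mul_assoc]
    exact mul_le_mul hC20 h4 (by positivity) (by linarith))
  have e1 : k - 1 + 1 = k := by omega
  rw [e1] at h1
  refine h1.trans ?_
  apply mul_le_mul_of_nonneg_right _ (by positivity)
  rw [hT, mul_pow, ← mul_assoc]
  apply mul_le_mul_of_nonneg_left _ (by positivity)
  rw [← Real.rpow_natCast, ← Real.rpow_mul (by positivity)]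
  apply Real.rpow_le_rpow_of_exponent_le hBr
  have h5 : ((k - 1 : ℕ) : ℝ) ≤ k := by exact_mod_cast Nat.sub_le _ _
  calc η / k * ((k - 1 : ℕ) : ℝ) ≤ η / k * k := mul_le_mul_of_nonneg_left h5 hη0
    _ = η := by field_simp

end Pool.Agent.Helper85.HP
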