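import Pool.Agent.Helper86.PS.G1

set_option autoImplicit false

/-!
# Replacement in sparse families of small energy
-/

open Finset

namespace Pool.Agent.Helper85.HP

open Pool.Agent.Helper86.PS Pool.Agent.H807R2.Dav

/-- the number of the solutions of `F x₁ + ... + F x_r = F y₁ + ... + F y_r` -/
def nrg {α : Type} [DecidableEq α] (X : Finset α) (F : α → ℤ) (r : ℕ) : ℕ :=
  ((Fintype.piFinset (fun _ : Fin r => X) ×ˢ Fintype.piFinset (fun _ : Fin r => X)).filter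
    (fun p => ∑ i, F (p.1 i) = ∑ i, F (p.2 i))).card

lemma nrg_mono {α : Type} [DecidableEq α] {X Y : Finset α} (h : X ⊆ Y) (F : α → ℤ) (r : ℕ) : nrg X F r ≤ nrg Y F r := by
  unfold nrg
  apply card_le_card
  intro p hp
  rw [mem_filter, mem_product, Fintype.mem_piFinset, Fintype.mem_piFinset] at hp ⊢
  exact ⟨⟨fun i => h (hp.1.1 i), fun i => h (hp.1.2 i)⟩, hp.2⟩

lemma ee_prod {ι : Type} [DecidableEq ι] (T : Finset ι) (f : ι → ℝ) : ∏ i ∈ T, ee (f i) = ee (∑ i ∈ T, f i) := by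
  induction T using Finset.induction_on with
  | empty => simp [ee_zero]
  | insert a s ha ih => rw [prod_insert ha, sum_insert ha, ih, ee_add]

lemma moment {α : Type} [DecidableEq α] (X : Finset α) (F : α → ℤ) (e : α → ℂ) (he : ∀ x ∈ X, ‖e x‖ ≤ 1) (r : ℕ)
    {m : ℕ} (hm : 0 < m)
    (hinj : ∀ p ∈ Fintype.piFinset (fun _ : Fin r => X), ∀ p' ∈ Fintype.piFinset (fun _ : Fin r => X),
      (m : ℤ) ∣ (∑ i, F (p i) - ∑ i, F (p' i)) → ∑ i, F (p i) = ∑ i, F (p' i)) :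
    ∑ c ∈ range m, ‖∑ x ∈ X, e x * ee (((F x * c : ℤ) : ℝ) / m)‖ ^ (2 * r) ≤ m * nrg X F r := by
  classical
  obtain ⟨P, hP⟩ : ∃ P : Finset (Fin r → α), P = Fintype.piFinset (fun _ : Fin r => X) := ⟨_, rfl⟩
  obtain ⟨Φ, hΦ⟩ : ∃ Φ : (Fin r → α) → ℤ, Φ = fun p => ∑ i, F (p i) := ⟨_, rfl⟩
  obtain ⟨A, hA⟩ : ∃ A : ℤ → ℂ, A = fun v => ∑ p ∈ P.filter (fun p => Φ p = v), ∏ i, e (p i) := ⟨_, rfl⟩
  have h1 : ∀ c ∈ range m, ‖∑ x ∈ X, e x * ee (((F x * c : ℤ) : ℝ) / m)‖ ^ (2 * r) =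
      ‖∑ v ∈ P.image Φ, A v * ee (((1 * v * c : ℤ) : ℝ) / m)‖ ^ 2 := by
    intro c _
    rw [mul_comm 2 r, pow_mul, ← norm_pow]
    congr 2
    have e1 : (∑ x ∈ X, e x * ee (((F x * c : ℤ) : ℝ) / m)) ^ r =
        ∑ p ∈ P, ∏ i, (e (p i) * ee (((F (p i) * c : ℤ) : ℝ) / m)) := by
      rw [hP, ← Finset.prod_univ_sum (fun _ : Fin r => X) (fun _ x => e x * ee (((F x * c : ℤ) : ℝ) / m))]
      simp
    have e2 : ∀ p ∈ P, ∏ i, (e (p i) * ee (((F (p i) * c : ℤ) : ℝ) / m)) =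
        (∏ i, e (p i)) * ee (((Φ p * c : ℤ) : ℝ) / m) := by
      intro p _
      rw [prod_mul_distrib, ee_prod]
      congr 2
      rw [hΦ, ← sum_div]
      push_cast
      rw [sum_mul]
    rw [e1, sum_congr rfl e2,
      ← sum_fiberwise_of_maps_to (g := Φ) (t := P.image Φ) (fun p hp => mem_image_of_mem _ hp)]
    apply sum_congr rfl
    intro v _
    rw [hA]
    simp only
    rw [sum_mul]
    apply sum_congr rfl
    intro p hp
    rw [(mem_filter.1 hp).2, one_mul]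
  have h2 := disc_parseval (I := P.image Φ) (a := 1) hm (by
    intro n hn n' hn' hd
    obtain ⟨p, hp, rfl⟩ := mem_image.1 hn
    obtain ⟨p', hp', rfl⟩ := mem_image.1 hn'
    rw [one_mul] at hd
    rw [hΦ] at hd ⊢
    exact hinj p (hP ▸ hp) p' (hP ▸ hp') hd) A
  rw [sum_congr rfl h1, h2]
  apply mul_le_mul_of_nonneg_left _ (Nat.cast_nonneg m)
  have h3 : nrg X F r = ∑ v ∈ P.image Φ, (P.filter (fun p => Φ p = v)).card ^ 2 := by
    unfold nrg
    rw [card_eq_sum_card_fiberwise (f := fun p : (Fin r → α) × (Fin r → α) => Φ p.1) (t := P.image Φ)]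
    · apply sum_congr rfl
      intro v _
      rw [sq, ← card_product]
      congr 1
      ext p
      rw [mem_filter, mem_filter, mem_product, mem_product, mem_filter, mem_filter, ← hP]
      have hΦ1 : ∀ q : Fin r → α, Φ q = ∑ i, F (q i) := fun q => by rw [hΦ]
      rw [← hΦ1, ← hΦ1]
      constructor
      · rintro ⟨⟨⟨a1, a2⟩, a3⟩, a4⟩
        exact ⟨⟨a1, a4⟩, a2, a3 ▸ a4⟩
      · rintro ⟨⟨a1, a4⟩, a2, a3⟩
        exact ⟨⟨⟨a1, a2⟩, a4.trans a3.symm⟩, a4⟩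
    · intro p hp
      rw [mem_coe, mem_filter, mem_product, ← hP] at hp
      exact mem_coe.2 (mem_image_of_mem _ hp.1.1)
  rw [h3]
  push_cast
  apply sum_le_sum
  intro v _
  apply pow_le_pow_left₀ (norm_nonneg _)
  rw [hA]
  refine (norm_sum_le _ _).trans ?_
  have h4 : ∀ p ∈ P.filter (fun p => Φ p = v), ‖∏ i, e (p i)‖ ≤ 1 := by
    intro p hp
    rw [norm_prod]
    apply prod_le_one
    · intro i _; exact norm_nonneg _
    · intro i _
      apply he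
      have := (mem_filter.1 hp).1
      rw [hP, Fintype.mem_piFinset] at this
      exact this i
  refine (sum_le_sum h4).trans ?_
  rw [sum_const, nsmul_eq_mul, mul_one]

lemma wpow {ι : Type} (T : Finset ι) (g w : ι → ℝ) (hg : ∀ i ∈ T, 0 ≤ g i) (hw : ∀ i ∈ T, 0 ≤ w i) {r : ℕ} (hr : 1 ≤ r) :
    (∑ i ∈ T, g i * w i) ^ r ≤ (∑ i ∈ T, g i) ^ (r - 1) * ∑ i ∈ T, g i * w i ^ r := by
  rcases (sum_nonneg hg).eq_or_lt with h | h
  · have h0 : ∀ i ∈ T, g i = 0 := (sum_eq_zero_iff_of_nonneg hg).1 h.symm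
    rw [sum_eq_zero (fun i hi => by rw [h0 i hi, zero_mul]), zero_pow (by omega), ← h]
    exact mul_nonneg (by positivity) (sum_nonneg fun i hi => mul_nonneg (hg i hi) (pow_nonneg (hw i hi) _))
  · obtain ⟨G, hG⟩ : ∃ G : ℝ, G = ∑ i ∈ T, g i := ⟨_, rfl⟩
    rw [← hG] at h ⊢
    have h1 := Real.pow_arith_mean_le_arith_mean_pow T (fun i => g i / G) w (fun i hi => div_nonneg (hg i hi) h.le)
      (by rw [← sum_div, ← hG, div_self h.ne']) hw r
    have e1 : ∑ i ∈ T, g i / G * w i = (∑ i ∈ T, g i * w i) / G := by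
      rw [sum_div]; apply sum_congr rfl; intro i _; ring
    have e2 : ∑ i ∈ T, g i / G * w i ^ r = (∑ i ∈ T, g i * w i ^ r) / G := by
      rw [sum_div]; apply sum_congr rfl; intro i _; ring
    rw [e1, e2, div_pow, div_le_div_iff₀ (by positivity) h] at h1
    obtain ⟨k, rfl⟩ : ∃ k, r = k + 1 := ⟨r - 1, by omega⟩
    have h2 : (∑ i ∈ T, g i * w i) ^ (k + 1) * G ≤ (G ^ k * ∑ i ∈ T, g i * w i ^ (k + 1)) * G := by
      calc _ ≤ _ := h1
        _ = _ := by ring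
    exact le_of_mul_le_mul_right h2 h

/-- **Hölder's inequality on the side of the frequencies** -/
theorem hoelder {α : Type} [DecidableEq α] (X : Finset α) (F : α → ℤ) (e : α → ℂ) (he : ∀ x ∈ X, ‖e x‖ ≤ 1)
    {D : ℤ → ℂ} {S : Finset ℤ} (hD : SF D S) {σ : ℝ} (hσ : ∀ θ, ‖FT D θ‖ ≤ σ) {r : ℕ} (hr : 1 ≤ r) (J : Finset ℤ) :
    (∑ y ∈ J, ‖∑ x ∈ X, e x * D (y + F x)‖ ^ 2) ^ r ≤ (∑ n ∈ S, ‖D n‖ ^ 2) ^ (r - 1) * (σ ^ 2 * nrg X F r) := by
  classical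
  obtain ⟨T, hT⟩ : ∃ T : ℤ → ℂ, T = fun y => ∑ x ∈ X, e x * D (y + F x) := ⟨_, rfl⟩
  obtain ⟨S', hS'⟩ : ∃ S' : Finset ℤ, S' = J ∪ X.biUnion (fun x => S.image (fun n => n - F x)) := ⟨_, rfl⟩
  have hD' : ∀ x ∈ X, SF (fun y => D (y + F x)) S' := by
    intro x hx y hy
    apply hD
    intro hc
    apply hy
    rw [hS', mem_union, mem_biUnion]
    right
    exact ⟨x, hx, mem_image.2 ⟨_, hc, by ring⟩⟩
  have hTS : SF T S' := by
    intro y hy
    rw [hT]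
    apply sum_eq_zero
    intro x hx
    rw [show D (y + F x) = 0 from hD' x hx y hy, mul_zero]
  have hFT : ∀ θ, FT T θ = FT D θ * ∑ x ∈ X, e x * ee (-(F x * θ)) := by
    intro θ
    rw [hT, FT_sum X (fun x y => e x * D (y + F x)) (S := S')
      (fun x hx y hy => by simp only; rw [show D (y + F x) = 0 from hD' x hx y hy, mul_zero]), mul_sum]
    apply sum_congr rfl
    intro x _
    rw [FT_const_mul, FT_shift]
    ring
  obtain ⟨m, hm⟩ : ∃ m : ℕ, m = 1 + 2 * (∑ y ∈ S', y.natAbs) + 2 * (∑ y ∈ S, y.natAbs) +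
    2 * (r * ∑ x ∈ X, (F x).natAbs) := ⟨_, rfl⟩
  have hm0 : 0 < m := by omega
  have hmr : (0 : ℝ) < m := by exact_mod_cast hm0
  have p1 := disc_parseval (I := S') (a := -1) hm0 (by
    intro n hn n' hn' hd
    have h1 := abs_le_sum hn
    have h2 := abs_le_sum hn'
    have h3 : |(-1 : ℤ) * (n - n')| < m := by
      rw [neg_one_mul, abs_neg]
      have := abs_sub n n'
      omega
    have := Int.eq_zero_of_abs_lt_dvd hd h3
    omega) T
  have p2 := disc_parseval (I := S) (a := -1) hm0 (by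
    intro n hn n' hn' hd
    have h1 := abs_le_sum hn
    have h2 := abs_le_sum hn'
    have h3 : |(-1 : ℤ) * (n - n')| < m := by
      rw [neg_one_mul, abs_neg]
      have := abs_sub n n'
      omega
    have := Int.eq_zero_of_abs_lt_dvd hd h3
    omega) D
  have hFb : ∀ p ∈ Fintype.piFinset (fun _ : Fin r => X), |∑ i, F (p i)| ≤ ((r * ∑ x ∈ X, (F x).natAbs : ℕ) : ℤ) := by
    intro p hp
    rw [Fintype.mem_piFinset] at hp
    refine (abs_sum_le_sum_abs _ _).trans ?_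
    have h1 : ∀ i ∈ (univ : Finset (Fin r)), |F (p i)| ≤ ((∑ x ∈ X, (F x).natAbs : ℕ) : ℤ) := by
      intro i _
      rw [Int.abs_eq_natAbs]
      exact_mod_cast single_le_sum (f := fun x => (F x).natAbs) (fun _ _ => Nat.zero_le _) (hp i)
    refine (sum_le_sum h1).trans ?_
    rw [sum_const, card_univ, Fintype.card_fin, nsmul_eq_mul]
    push_cast
    exact le_refl _
  have p3 := moment X F e he r hm0 (by
    intro p hp p' hp' hd
    have h1 := hFb p hp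
    have h2 := hFb p' hp'
    have h3 : |(∑ i, F (p i) - ∑ i, F (p' i))| < m := by
      have := abs_sub (∑ i, F (p i)) (∑ i, F (p' i))
      omega
    have := Int.eq_zero_of_abs_lt_dvd hd h3
    omega)
  have h1 : ∑ y ∈ J, ‖∑ x ∈ X, e x * D (y + F x)‖ ^ 2 ≤ ∑ y ∈ S', ‖T y‖ ^ 2 := by
    rw [hT]
    apply sum_le_sum_of_subset_of_nonneg
    · rw [hS']; exact subset_union_left
    · intro _ _ _; positivity
  obtain ⟨g, hg⟩ : ∃ g : ℕ → ℝ, g = fun c : ℕ => ‖∑ n ∈ S, D n * ee (((-1 * n * c : ℤ) : ℝ) / m)‖ ^ 2 := ⟨_, rfl⟩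
  obtain ⟨w, hw⟩ : ∃ w : ℕ → ℝ, w = fun c : ℕ => ‖∑ x ∈ X, e x * ee (((F x * c : ℤ) : ℝ) / m)‖ ^ 2 := ⟨_, rfl⟩
  have h2 : ∀ c ∈ range m, ‖∑ n ∈ S', T n * ee (((-1 * n * c : ℤ) : ℝ) / m)‖ ^ 2 = g c * w c := by
    intro c _
    have e1 : ∑ n ∈ S', T n * ee (((-1 * n * c : ℤ) : ℝ) / m) = FT T (-(c / m)) := by
      rw [FT_eq hTS]
      apply sum_congr rfl
      intro n _
      congr 2
      push_cast
      ring
    have e2 : ∑ n ∈ S, D n * ee (((-1 * n * c : ℤ) : ℝ) / m) = FT D (-(c / m)) := by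
      rw [FT_eq hD]
      apply sum_congr rfl
      intro n _
      congr 2
      push_cast
      ring
    have e3 : ∑ x ∈ X, e x * ee (-(F x * (-(c / m) : ℝ))) = ∑ x ∈ X, e x * ee (((F x * c : ℤ) : ℝ) / m) := by
      apply sum_congr rfl
      intro x _
      congr 2
      push_cast
      ring
    rw [e1, hFT, e3, norm_mul, mul_pow, hg, hw]
    simp only
    rw [e2]
  have h3 : ∀ c ∈ range m, g c ≤ σ ^ 2 := by
    intro c _
    have e2 : ∑ n ∈ S, D n * ee (((-1 * n * c : ℤ) : ℝ) / m) = FT D (-(c / m)) := by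
      rw [FT_eq hD]
      apply sum_congr rfl
      intro n _
      congr 2
      push_cast
      ring
    rw [hg]
    simp only
    rw [e2]
    exact pow_le_pow_left₀ (norm_nonneg _) (hσ _) 2
  have hg0 : ∀ c ∈ range m, 0 ≤ g c := fun c _ => by rw [hg]; positivity
  have hw0 : ∀ c ∈ range m, 0 ≤ w c := fun c _ => by rw [hw]; positivity
  have h4 := wpow (range m) g w hg0 hw0 hr
  have h5 : ∑ c ∈ range m, g c * w c = m * ∑ y ∈ S', ‖T y‖ ^ 2 := by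
    rw [← p1]; exact (sum_congr rfl h2).symm
  have h6 : ∑ c ∈ range m, g c = m * ∑ n ∈ S, ‖D n‖ ^ 2 := by
    rw [← p2, hg]
  have h7 : ∑ c ∈ range m, g c * w c ^ r ≤ σ ^ 2 * (m * nrg X F r) := by
    calc ∑ c ∈ range m, g c * w c ^ r ≤ ∑ c ∈ range m, σ ^ 2 * w c ^ r := by
          apply sum_le_sum
          intro c hc
          exact mul_le_mul_of_nonneg_right (h3 c hc) (pow_nonneg (hw0 c hc) _)
      _ = σ ^ 2 * ∑ c ∈ range m, ‖∑ x ∈ X, e x * ee (((F x * c : ℤ) : ℝ) / m)‖ ^ (2 * r) := by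
          rw [mul_sum]
          apply sum_congr rfl
          intro c _
          rw [hw, pow_mul]
      _ ≤ _ := mul_le_mul_of_nonneg_left p3 (by positivity)
  rw [h5, h6] at h4
  have hT0 : 0 ≤ ∑ n ∈ S, ‖D n‖ ^ 2 := by positivity
  have h8 : (m : ℝ) ^ r * (∑ y ∈ S', ‖T y‖ ^ 2) ^ r ≤
      (m : ℝ) ^ r * ((∑ n ∈ S, ‖D n‖ ^ 2) ^ (r - 1) * (σ ^ 2 * nrg X F r)) := by
    rw [← mul_pow]
    refine h4.trans ?_
    calc ((m : ℝ) * ∑ n ∈ S, ‖D n‖ ^ 2) ^ (r - 1) * ∑ c ∈ range m, g c * w c ^ r ≤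
        ((m : ℝ) * ∑ n ∈ S, ‖D n‖ ^ 2) ^ (r - 1) * (σ ^ 2 * (m * nrg X F r)) :=
          mul_le_mul_of_nonneg_left h7 (by positivity)
      _ = _ := by
        obtain ⟨k, rfl⟩ : ∃ k, r = k + 1 := ⟨r - 1, by omega⟩
        simp only [Nat.add_sub_cancel]
        rw [mul_pow]
        ring
  exact (pow_le_pow_left₀ (by positivity) h1 r).trans (le_of_mul_le_mul_left h8 (by positivity))

/-- the number of the `x` with a large sum -/
theorem count_bad {α : Type} [DecidableEq α] (X : Finset α) (F : α → ℤ) {D : ℤ → ℂ} {S : Finset ℤ} (hD : SF D S)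
    {σ : ℝ} (hσ : ∀ θ, ‖FT D θ‖ ≤ σ) {r : ℕ} (hr : 1 ≤ r) {a : ℤ} (ha : a ≠ 0) (I : Finset ℤ) (B : ℤ → ℂ)
    (Y : Finset α) (hY : Y ⊆ X) {l : ℝ} (hl : 0 < l) (hYl : ∀ x ∈ Y, l ≤ ‖∑ n ∈ I, B n * D (a * n + F x)‖) :
    (l * Y.card) ^ (2 * r) ≤ (∑ n ∈ I, ‖B n‖ ^ 2) ^ r * ((∑ n ∈ S, ‖D n‖ ^ 2) ^ (r - 1) * (σ ^ 2 * nrg X F r)) := by
  classical
  obtain ⟨z, hz⟩ : ∃ z : α → ℂ, z = fun x => ∑ n ∈ I, B n * D (a * n + F x) := ⟨_, rfl⟩
  obtain ⟨e, he⟩ : ∃ e : α → ℂ, e = fun x => (starRingEnd ℂ) (z x) / ‖z x‖ := ⟨_, rfl⟩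
  have hzn : ∀ x ∈ Y, l ≤ ‖z x‖ := fun x hx => by rw [hz]; exact hYl x hx
  have he1 : ∀ x ∈ Y, ‖e x‖ ≤ 1 := by
    intro x _
    rw [he]
    simp only [norm_div, RCLike.norm_conj, Complex.norm_real, norm_norm]
    exact div_self_le_one _
  have hez : ∀ x ∈ Y, e x * z x = (‖z x‖ : ℂ) := by
    intro x hx
    have h0 : (‖z x‖ : ℂ) ≠ 0 := by
      have h1 : ‖z x‖ ≠ 0 := (lt_of_lt_of_le hl (hzn x hx)).ne'
      exact_mod_cast h1
    rw [he]
    simp only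
    rw [div_mul_eq_mul_div, mul_comm, Complex.mul_conj', sq, mul_div_assoc, div_self h0, mul_one]
  have h1 : l * Y.card ≤ ‖∑ n ∈ I, B n * ∑ x ∈ Y, e x * D (a * n + F x)‖ := by
    have e1 : ∑ n ∈ I, B n * ∑ x ∈ Y, e x * D (a * n + F x) = ∑ x ∈ Y, e x * z x := by
      rw [hz]
      simp only [mul_sum]
      rw [sum_comm]
      apply sum_congr rfl
      intro x _
      apply sum_congr rfl
      intro n _
      ring
    rw [e1, sum_congr rfl hez, ← Complex.ofReal_sum, Complex.norm_real, Real.norm_eq_abs,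
      abs_of_nonneg (sum_nonneg fun _ _ => norm_nonneg _)]
    calc l * Y.card = ∑ x ∈ Y, l := by rw [sum_const, nsmul_eq_mul, mul_comm]
      _ ≤ _ := sum_le_sum hzn
  have h2 : ‖∑ n ∈ I, B n * ∑ x ∈ Y, e x * D (a * n + F x)‖ ^ 2 ≤
      (∑ n ∈ I, ‖B n‖ ^ 2) * ∑ y ∈ I.image (fun n => a * n), ‖∑ x ∈ Y, e x * D (y + F x)‖ ^ 2 := by
    have e1 : ∑ y ∈ I.image (fun n => a * n), ‖∑ x ∈ Y, e x * D (y + F x)‖ ^ 2 =
        ∑ n ∈ I, ‖∑ x ∈ Y, e x * D (a * n + F x)‖ ^ 2 := by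
      rw [sum_image]
      intro n _ n' _ h
      exact mul_left_cancel₀ ha h
    rw [e1]
    have e2 : ‖∑ n ∈ I, B n * ∑ x ∈ Y, e x * D (a * n + F x)‖ ≤
        ∑ n ∈ I, ‖B n‖ * ‖∑ x ∈ Y, e x * D (a * n + F x)‖ := by
      refine (norm_sum_le _ _).trans (le_of_eq ?_)
      apply sum_congr rfl
      intro n _
      rw [norm_mul]
    exact (pow_le_pow_left₀ (norm_nonneg _) e2 2).trans (sum_mul_sq_le_sq_mul_sq _ _ _)
  have h3 := hoelder Y F e he1 hD hσ hr (I.image (fun n => a * n))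
  have h4 : (nrg Y F r : ℝ) ≤ nrg X F r := by exact_mod_cast nrg_mono hY F r
  rw [pow_mul]
  have h5 : (l * Y.card) ^ 2 ≤ (∑ n ∈ I, ‖B n‖ ^ 2) * ∑ y ∈ I.image (fun n => a * n), ‖∑ x ∈ Y, e x * D (y + F x)‖ ^ 2 :=
    (pow_le_pow_left₀ (by positivity) h1 2).trans h2
  refine (pow_le_pow_left₀ (by positivity) h5 r).trans ?_
  rw [mul_pow]
  apply mul_le_mul_of_nonneg_left _ (by positivity)
  refine h3.trans ?_
  apply mul_le_mul_of_nonneg_left _ (by positivity)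
  exact mul_le_mul_of_nonneg_left h4 (by positivity)

end Pool.Agent.Helper85.HP
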