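import Pool.Agent.Helper85.HP.A1

set_option autoImplicit false

/-!
# Cutting to an interval
-/

open Finset

namespace Pool.Agent.Helper85.HP

open Pool.Agent.Helper86.PS Pool.Agent.H807R2.Dav

lemma geo_tel (u : ℤ) (k : ℕ) (t : ℝ) :
    (∑ y ∈ Ico u (u + (k : ℤ)), ee ((y : ℝ) * t)) * (1 - ee t) = ee ((u : ℝ) * t) - ee (((u : ℝ) + k) * t) := by
  induction k with
  | zero => simp
  | succ k ih =>
    have h : Ico u (u + ((k + 1 : ℕ) : ℤ)) = insert (u + (k : ℤ)) (Ico u (u + (k : ℤ))) := by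
      ext x
      rw [mem_Ico, mem_insert, mem_Ico]
      push_cast
      omega
    rw [h, sum_insert (by rw [mem_Ico]; omega), add_mul, ih, mul_sub, mul_one, ← ee_add]
    have e1 : ((u + (k : ℤ) : ℤ) : ℝ) * t + t = ((u : ℝ) + ((k + 1 : ℕ) : ℝ)) * t := by push_cast; ring
    have e2 : ((u + (k : ℤ) : ℤ) : ℝ) * t = ((u : ℝ) + k) * t := by push_cast; ring
    rw [e1, e2]
    ring

lemma geo_int (u v : ℤ) (t : ℝ) : ‖∑ y ∈ Ico u v, ee ((y : ℝ) * t)‖ * dd t ≤ 2 := by
  rcases le_or_gt v u with h | h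
  · rw [Ico_eq_empty (by omega), sum_empty, norm_zero, zero_mul]
    norm_num
  · obtain ⟨k, hk⟩ : ∃ k : ℕ, v = u + k := ⟨(v - u).toNat, by omega⟩
    subst hk
    unfold dd
    rw [← norm_mul, geo_tel]
    refine (norm_sub_le _ _).trans ?_
    rw [norm_ee, norm_ee]
    norm_num

/-- the transform of a function cut to an interval -/
theorem cut_sup {D : ℤ → ℂ} {S : Finset ℤ} (hD : SF D S) {σ : ℝ} (hσ : ∀ θ, ‖FT D θ‖ ≤ σ) {m : ℕ} (hm : 0 < m) {u v : ℤ}
    (hnear : ∀ n ∈ S, ∀ y ∈ Ico u v, |n - y| < m) (huv : v - u ≤ m) (θ : ℝ) :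
    ‖FT (fun n => (if n ∈ Ico u v then 1 else 0) * D n) θ‖ ≤ σ * (2 + Real.log m) := by
  classical
  have hmr : (0 : ℝ) < m := by exact_mod_cast hm
  have hmc : (m : ℂ) ≠ 0 := by exact_mod_cast hm.ne'
  have hσ0 : 0 ≤ σ := (norm_nonneg _).trans (hσ 0)
  obtain ⟨K, hK⟩ : ∃ K : ℕ → ℂ, K = fun c : ℕ => ∑ y ∈ Ico u v, ee ((y : ℝ) * (-((c : ℝ) / m))) := ⟨_, rfl⟩
  have hind : ∀ n ∈ S, (if n ∈ Ico u v then (1 : ℂ) else 0) = 1 / (m : ℂ) * ∑ c ∈ range m, K c * ee ((n : ℝ) * ((c : ℝ) / m)) := by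
    intro n hn
    have e1 : ∑ c ∈ range m, K c * ee ((n : ℝ) * ((c : ℝ) / m)) = ∑ y ∈ Ico u v, if (m : ℤ) ∣ n - y then (m : ℂ) else 0 := by
      rw [hK]
      simp only [sum_mul]
      rw [sum_comm]
      apply sum_congr rfl
      intro y _
      rw [← ortho hm]
      apply sum_congr rfl
      intro c _
      rw [← ee_add]
      congr 1
      push_cast
      ring
    rw [e1]
    by_cases h : n ∈ Ico u v
    · rw [if_pos h, sum_eq_single n]
      · rw [sub_self, if_pos (dvd_zero _)]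
        field_simp
      · intro y hy hne
        rw [if_neg]
        intro hd
        have := Int.eq_zero_of_abs_lt_dvd hd (hnear n hn y hy)
        exact hne (by omega)
      · intro h'; exact absurd h h'
    · rw [if_neg h, sum_eq_zero, mul_zero]
      intro y hy
      rw [if_neg]
      intro hd
      have := Int.eq_zero_of_abs_lt_dvd hd (hnear n hn y hy)
      apply h
      have hny : n = y := by omega
      rw [hny]
      exact hy
  have hSF : SF (fun n => (if n ∈ Ico u v then (1 : ℂ) else 0) * D n) S := SF_mul' hD _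
  have h1 : FT (fun n => (if n ∈ Ico u v then 1 else 0) * D n) θ =
      1 / (m : ℂ) * ∑ c ∈ range m, K c * FT D (θ + (c : ℝ) / m) := by
    rw [FT_eq hSF]
    have e1 : ∀ n ∈ S, (if n ∈ Ico u v then (1 : ℂ) else 0) * D n * ee (n * θ) =
        ∑ c ∈ range m, 1 / (m : ℂ) * (K c * (D n * ee (n * (θ + (c : ℝ) / m)))) := by
      intro n hn
      rw [hind n hn, mul_sum, sum_mul, sum_mul]
      apply sum_congr rfl
      intro c _
      rw [mul_add (n : ℝ), ee_add]
      ring
    rw [sum_congr rfl e1, sum_comm, mul_sum]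
    apply sum_congr rfl
    intro c _
    rw [FT_eq hD, mul_sum, mul_sum]
  have h2 : ∀ c ∈ range m, ‖K c‖ ≤ (if c = 0 then (m : ℝ) else 0) + (m : ℝ) / 2 * (1 / (c : ℝ) + 1 / ((m : ℝ) - c)) := by
    intro c hc
    rw [mem_range] at hc
    have hcm : (c : ℝ) < m := by exact_mod_cast hc
    by_cases h0 : c = 0
    · subst h0
      rw [if_pos rfl]
      have e1 : ‖K 0‖ ≤ m := by
        rw [hK]
        refine (norm_sum_le _ _).trans ?_
        have : ∀ y ∈ Ico u v, ‖ee ((y : ℝ) * (-(((0 : ℕ) : ℝ) / m)))‖ = 1 := fun y _ => norm_ee _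
        rw [sum_congr rfl this, sum_const, nsmul_eq_mul, mul_one, Int.card_Ico]
        have : (v - u).toNat ≤ m := by omega
        exact_mod_cast this
      have e2 : 0 ≤ (m : ℝ) / 2 * (1 / ((0 : ℕ) : ℝ) + 1 / ((m : ℝ) - ((0 : ℕ) : ℝ))) := by
        simp only [Nat.cast_zero, sub_zero]
        positivity
      linarith
    · rw [if_neg h0, zero_add]
      have hc1 : (1 : ℝ) ≤ c := by exact_mod_cast Nat.pos_of_ne_zero h0
      have hc0 : (0 : ℝ) < c := by linarith
      have hmc' : 0 < (m : ℝ) - c := by linarith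
      have g1 := geo_int u v (-((c : ℝ) / m))
      have g2 := dd_ge (t := (c : ℝ) / m) (by positivity) (by rw [div_le_one hmr]; exact hcm.le)
      rw [dd_neg] at g1
      have g3 : (∑ y ∈ Ico u v, ee ((y : ℝ) * (-((c : ℝ) / m)))) = K c := by rw [hK]
      rw [g3] at g1
      obtain ⟨k, hk⟩ : ∃ k : ℝ, k = ‖K c‖ := ⟨_, rfl⟩
      have hk0 : 0 ≤ k := by rw [hk]; exact norm_nonneg _
      rw [← hk] at g1 ⊢
      rcases le_total ((c : ℝ) / m) (1 - (c : ℝ) / m) with hle | hle
      · rw [min_eq_left hle] at g2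
        have g4 : k * (4 * ((c : ℝ) / m)) ≤ 2 := le_trans (mul_le_mul_of_nonneg_left g2 hk0) g1
        have g5 : k ≤ (m : ℝ) / 2 * (1 / c) := by
          have : k * (4 * ((c : ℝ) / m)) = k * c * 4 / m := by ring
          rw [this, div_le_iff₀ hmr] at g4
          have e : (m : ℝ) / 2 * (1 / c) = (m / 2) / c := by ring
          rw [e, le_div_iff₀ hc0]
          linarith
        have : 0 ≤ (m : ℝ) / 2 * (1 / ((m : ℝ) - c)) := by positivity
        linarith
      · rw [min_eq_right hle] at g2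
        have g4 : k * (4 * (1 - (c : ℝ) / m)) ≤ 2 := le_trans (mul_le_mul_of_nonneg_left g2 hk0) g1
        have g5 : k ≤ (m : ℝ) / 2 * (1 / ((m : ℝ) - c)) := by
          have : k * (4 * (1 - (c : ℝ) / m)) = k * (m - c) * 4 / m := by field_simp
          rw [this, div_le_iff₀ hmr] at g4
          have e : (m : ℝ) / 2 * (1 / ((m : ℝ) - c)) = (m / 2) / (m - c) := by ring
          rw [e, le_div_iff₀ hmc']
          linarith
        have : 0 ≤ (m : ℝ) / 2 * (1 / (c : ℝ)) := by positivity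
        linarith
  have h3 : ∑ c ∈ range m, ‖K c‖ ≤ m * (2 + Real.log m) := by
    refine (sum_le_sum h2).trans ?_
    rw [sum_add_distrib, ← mul_sum, sum_add_distrib, sum_ite_eq' (range m) 0 (fun _ => (m : ℝ)), if_pos (mem_range.2 hm)]
    have e1 := sum_inv_range m
    have e2 := sum_inv_range' m
    have e3 : (m : ℝ) / 2 * (∑ c ∈ range m, 1 / (c : ℝ) + ∑ c ∈ range m, 1 / ((m : ℝ) - c)) ≤
        (m : ℝ) / 2 * ((1 + Real.log m) + (1 + Real.log m)) := by
      apply mul_le_mul_of_nonneg_left (add_le_add e1 e2) (by positivity)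
    linarith
  rw [h1, norm_mul, norm_div, norm_one, Complex.norm_natCast]
  calc 1 / (m : ℝ) * ‖∑ c ∈ range m, K c * FT D (θ + (c : ℝ) / m)‖ ≤ 1 / (m : ℝ) * ∑ c ∈ range m, ‖K c‖ * σ := by
        apply mul_le_mul_of_nonneg_left _ (by positivity)
        apply norm_sum_le_of_le
        intro c _
        rw [norm_mul]
        exact mul_le_mul_of_nonneg_left (hσ _) (norm_nonneg _)
    _ = 1 / (m : ℝ) * ((∑ c ∈ range m, ‖K c‖) * σ) := by rw [sum_mul]
    _ ≤ 1 / (m : ℝ) * ((m * (2 + Real.log m)) * σ) := by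
        apply mul_le_mul_of_nonneg_left _ (by positivity)
        exact mul_le_mul_of_nonneg_right h3 hσ0
    _ = σ * (2 + Real.log m) := by field_simp

end Pool.Agent.Helper85.HP
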