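import Pool.Agent.Helper86.PS.G3
import Pool.Agent.Helper85.HP.A2

set_option autoImplicit false

/-!
# The supremum of the difference of the transforms
-/

open Finset Filter Topology

namespace Pool.Agent.Helper85.HP

open Pool.Agent.Helper86.PS Pool.Agent.H807R2.Dav

theorem sup_main (CR L2 : ℕ) (hCR : 1 ≤ CR) {κ : ℝ} (hκ0 : 0 < κ) (hκ1 : κ ≤ 1 / 32) : ∃ Q0 : ℕ, ∀ Q : ℕ, Q0 ≤ Q → ∀ M : ℕ,
    Q ^ (6 * CR + 20) ≤ M → M ≤ Q ^ L2 → ∀ B : PC → ℝ, HW Q M B → ∑ j ∈ fam Q, B j ≤ 1 →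
    (∀ θ, ‖FT (cL Q M) θ - FT (cB Q CR M) θ‖ ≤ 2 * (M * (Q : ℝ) ^ (-(1 / 4) : ℝ))) ∧
    (∀ x, ‖cL Q M x‖ ≤ (Q : ℝ) ^ κ) ∧ (∀ x, ‖cB Q CR M x‖ ≤ 2 * (Q : ℝ) ^ κ) ∧
    SF (cL Q M) (Icc (-(M : ℤ)) (2 * M)) ∧ SF (cB Q CR M) (Icc (-(M : ℤ)) (2 * M)) ∧ 2 + Real.log (8 * M) ≤ (Q : ℝ) ^ κ := by
  obtain ⟨Q1, hQ1⟩ := fourier_main CR L2 hCR
  obtain ⟨Q2, hQ2⟩ := VR_small CR L2 hκ0
  obtain ⟨Q3, hQ3⟩ := ev_log (L2 + 6 : ℝ) 1 hκ0
  obtain ⟨Q4, hQ4⟩ := ev_log (14 * L2 : ℝ) 1 (a := 1 / 4) (by norm_num)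
  refine ⟨Q1 + Q2 + Q3 + Q4 + 3, fun Q hQ M hM1 hM2 B hw hBs => ?_⟩
  have hQ3n : 3 ≤ Q := by omega
  have hQ3r : (3 : ℝ) ≤ Q := by exact_mod_cast hQ3n
  have hQ0 : (0 : ℝ) < Q := by linarith
  have hQ1' : (1 : ℝ) ≤ Q := by linarith
  obtain ⟨ℓ, hℓ⟩ : ∃ ℓ : ℝ, ℓ = Real.log Q := ⟨_, rfl⟩
  have hℓ1 : 1 ≤ ℓ := by
    rw [hℓ, Real.le_log_iff_exp_le hQ0]
    linarith [Real.exp_one_lt_d9]
  have hle : ∀ n : ℕ, n ≤ 6 * CR + 20 → Q ^ n ≤ M := fun n hn =>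
    (Nat.pow_le_pow_right (by omega) hn).trans hM1
  have hler : ∀ n : ℕ, n ≤ 6 * CR + 20 → (Q : ℝ) ^ n ≤ M := fun n hn => by exact_mod_cast hle n hn
  have hQM : Q ≤ M := by simpa using hle 1 (by omega)
  have hM0 : (0 : ℝ) < M := by exact_mod_cast (by omega : 0 < M)
  have hlM0 : 0 ≤ Real.log M := Real.log_natCast_nonneg M
  have hlM : Real.log M ≤ L2 * ℓ := by
    have : Real.log M ≤ Real.log ((Q : ℝ) ^ L2) := Real.log_le_log hM0 (by exact_mod_cast hM2)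
    rwa [Real.log_pow, ← hℓ] at this
  have hYpos : 0 < M / Q ^ 3 := Nat.div_pos (hle 3 (by omega)) (by positivity)
  have hHM : M / Q ^ 4 ≤ M := Nat.div_le_self _ _
  obtain ⟨V, hV⟩ : ∃ V : ℝ, V = (Q : ℝ) ^ κ := ⟨_, rfl⟩
  have hV1 : 1 ≤ V := by rw [hV]; exact Real.one_le_rpow hQ1' hκ0.le
  have hV0 : 0 ≤ V := by linarith
  have hVR : ∀ x : ℤ, x ≠ 0 → |x| ≤ 2 * M → |VR (Q ^ CR) x| ≤ V := by
    intro x hx hxM
    rw [hV]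
    apply hQ2 Q (by omega) x hx
    refine hxM.trans ?_
    have : (M : ℤ) ≤ (Q : ℤ) ^ L2 := by exact_mod_cast hM2
    linarith
  have hlV' : (L2 + 6 : ℝ) * ℓ ≤ V := by
    have := hQ3 Q (by omega)
    rw [pow_one, ← hℓ] at this
    rw [hV]; exact this
  have hlV : Real.log M ≤ V := by
    refine hlM.trans (le_trans ?_ hlV')
    apply mul_le_mul_of_nonneg_right _ (by linarith)
    linarith
  have hfour := hQ1 Q (by omega) M hM1 hM2 B hw.1 hBs hw.2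
  -- the transform
  obtain ⟨σ, hσ⟩ : ∃ σ : ℝ, σ = 2 * (M * (Q : ℝ) ^ (-(1 / 4) : ℝ)) := ⟨_, rfl⟩
  have hq4 : 0 < (Q : ℝ) ^ (-(1 / 4) : ℝ) := by positivity
  have hσ0 : 0 ≤ σ := by rw [hσ]; positivity
  have hFT : ∀ θ, ‖FT (cL Q M) θ - FT (cB Q CR M) θ‖ ≤ σ := by
    intro θ
    refine (cut_FT (Y := M / Q ^ 3) hHM hV0 hfour hVR θ).trans ?_
    have f0 : ((M / Q ^ 3 : ℕ) : ℝ) + 3 * ((M / Q ^ 4 : ℕ) : ℝ) + 2 ≤ 6 * (M / (Q : ℝ) ^ 3) := by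
      have g1 : ((M / Q ^ 3 : ℕ) : ℝ) ≤ M / (Q : ℝ) ^ 3 := by
        have := div_upper M (Q ^ 3); push_cast at this ⊢; exact this
      have g2 : ((M / Q ^ 4 : ℕ) : ℝ) ≤ M / (Q : ℝ) ^ 3 := by
        have := div_upper M (Q ^ 4)
        push_cast at this ⊢
        refine this.trans ?_
        apply div_le_div_of_nonneg_left hM0.le (by positivity)
        exact pow_le_pow_right₀ hQ1' (by norm_num)
      have g3 : (1 : ℝ) ≤ M / (Q : ℝ) ^ 3 := by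
        rw [le_div_iff₀ (by positivity), one_mul]; exact hler 3 (by omega)
      linarith
    have f1 : Real.log M + V * ((Q : ℝ) ^ 2 * Real.log M) ≤ 2 * (V * (Q : ℝ) ^ 2 * Real.log M) := by
      have : 1 * Real.log M ≤ V * (Q : ℝ) ^ 2 * Real.log M := by
        apply mul_le_mul_of_nonneg_right _ hlM0
        exact one_le_mul_of_one_le_of_one_le hV1 (one_le_pow₀ hQ1')
      linarith
    have f2 : Real.log M + ((Q ^ CR : ℕ) : ℝ) * ((Q : ℝ) ^ 2 * Real.log M) ≤ 2 * (M / Q * Real.log M) := by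
      have e1 : (Q : ℝ) ^ CR * (Q : ℝ) ^ 2 ≤ M / Q := by
        rw [le_div_iff₀ hQ0]
        calc (Q : ℝ) ^ CR * (Q : ℝ) ^ 2 * Q = (Q : ℝ) ^ (CR + 3) := by ring
          _ ≤ (M : ℝ) := hler _ (by omega)
      have e2 : (1 : ℝ) ≤ M / Q := by
        rw [le_div_iff₀ hQ0, one_mul]
        exact_mod_cast hQM
      push_cast
      have e3 := mul_le_mul_of_nonneg_right e1 hlM0
      have e4 := mul_le_mul_of_nonneg_right e2 hlM0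
      linarith
    have f3 : (((M / Q ^ 3 : ℕ) : ℝ) + 3 * ((M / Q ^ 4 : ℕ) : ℝ) + 2) * (Real.log M + V * ((Q : ℝ) ^ 2 * Real.log M)) ≤
        12 * (V * (M / Q * Real.log M)) := by
      calc _ ≤ (6 * (M / (Q : ℝ) ^ 3)) * (2 * (V * (Q : ℝ) ^ 2 * Real.log M)) :=
            mul_le_mul f0 f1 (by positivity) (by positivity)
        _ = _ := by field_simp; ring
    have f4 : M / Q * Real.log M ≤ V * (M / Q * Real.log M) := le_mul_of_one_le_left (by positivity) hV1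
    have f5 : 14 * (V * (M / Q * Real.log M)) ≤ M * (Q : ℝ) ^ (-(1 / 4) : ℝ) := by
      have e1 := hQ4 Q (by omega)
      rw [pow_one, ← hℓ] at e1
      have e2 : V ≤ (Q : ℝ) ^ (1 / 4 : ℝ) := by rw [hV]; exact rpow_aux hQ1' (by linarith)
      have e3 : (Q : ℝ) ^ (1 / 4 : ℝ) * (Q : ℝ) ^ (1 / 4 : ℝ) / Q ≤ (Q : ℝ) ^ (-(1 / 4) : ℝ) := by
        rw [← Real.rpow_add hQ0]
        nth_rewrite 2 [← Real.rpow_one (Q : ℝ)]
        rw [← Real.rpow_sub hQ0]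
        exact rpow_aux hQ1' (by norm_num)
      calc 14 * (V * (M / Q * Real.log M)) ≤ 14 * (V * (M / Q * (L2 * ℓ))) := by gcongr
        _ = M * (V * (14 * L2 * ℓ) / Q) := by ring
        _ ≤ M * ((Q : ℝ) ^ (1 / 4 : ℝ) * (Q : ℝ) ^ (1 / 4 : ℝ) / Q) := by gcongr
        _ ≤ _ := mul_le_mul_of_nonneg_left e3 hM0.le
    rw [hσ]
    linarith
  have hS1 : SF (cL Q M) (Icc (-((M / Q ^ 4 : ℕ) : ℤ)) (M + (M / Q ^ 4 : ℕ))) :=
    SF_cut (SF_mono (SF_Lam M) (by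
      have : (0 : ℤ) ≤ ((M / Q ^ 4 : ℕ) : ℤ) := Int.natCast_nonneg _
      apply Icc_subset_Icc <;> linarith)) _ _
  have hS2 : SF (cB Q CR M) (Icc (-((M / Q ^ 4 : ℕ) : ℤ)) (M + (M / Q ^ 4 : ℕ))) := SF_cut (SF_LB _ _ _ _) _ _
  have hsub : Icc (-((M / Q ^ 4 : ℕ) : ℤ)) (M + (M / Q ^ 4 : ℕ)) ⊆ Icc (-(M : ℤ)) (2 * M) := by
    have h1 : ((M / Q ^ 4 : ℕ) : ℤ) ≤ M := by exact_mod_cast hHM
    apply Icc_subset_Icc <;> linarith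
  refine ⟨fun θ => ?_, fun x => ?_, fun x => ?_, SF_mono hS1 hsub, SF_mono hS2 hsub, ?_⟩
  · have := hFT θ
    rwa [hσ] at this
  · exact (cL_norm Q M x).trans (hV ▸ hlV)
  · rw [← hV]
    exact cB_norm hV0 hw hBs hYpos hVR x
  · rw [← hV, Real.log_mul (by norm_num) hM0.ne']
    have h8 : Real.log 8 ≤ 3 := by
      have : (8 : ℝ) = 2 ^ 3 := by norm_num
      rw [this, Real.log_pow]
      have := Real.log_two_lt_d9
      push_cast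
      linarith
    nlinarith

end Pool.Agent.Helper85.HP
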