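import Pool.Agent.Helper85.HP.A3
import Pool.Agent.Helper85.HP.A4

set_option autoImplicit false

/-!
# Pairs of primes with sums in a sparse set: the exceptions
-/

open Finset Filter Topology

namespace Pool.Agent.Helper85.HP

open Pool.Agent.Helper86.PS Pool.Agent.H807R2.Dav

/-- the coefficients of the forms `n`, `m - n` -/
def a2 : Fin 2 → ℤ := ![1, -1]

/-- the shifts of the forms `n`, `m - n` -/
def h2 (m : ℤ) : Fin 2 → ℤ := ![0, m]

lemma DI_two (Q M : ℕ) (m u v : ℤ) (hJ : SF (cB Q (cR 2) M) (Icc (-(M : ℤ)) (2 * M))) : DI Q M a2 (h2 m) u v =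
    (∑ n ∈ Ico u v, cL Q M n * (cL Q M (-1 * n + m) - cB Q (cR 2) M (-1 * n + m))) +
    ∑ n ∈ Icc (-(M : ℤ)) (2 * M), cB Q (cR 2) M n *
      ((if -1 * n + m ∈ Ico u v then 1 else 0) * (cL Q M (-1 * n + m) - cB Q (cR 2) M (-1 * n + m))) := by
  classical
  obtain ⟨f, hf⟩ : ∃ f : ℤ → ℂ, f = fun n => cB Q (cR 2) M n * (cL Q M (-1 * n + m) - cB Q (cR 2) M (-1 * n + m)) := ⟨_, rfl⟩
  have h1 : ∑ n ∈ Icc (-(M : ℤ)) (2 * M), cB Q (cR 2) M n *
      ((if -1 * n + m ∈ Ico u v then 1 else 0) * (cL Q M (-1 * n + m) - cB Q (cR 2) M (-1 * n + m))) =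
      ∑ n ∈ (Icc (-(M : ℤ)) (2 * M)).filter (fun n => -1 * n + m ∈ Ico u v), f n := by
    rw [sum_filter]
    apply sum_congr rfl
    intro n _
    rw [hf]
    split_ifs
    · ring
    · ring
  have h2 : ∑ n ∈ (Icc (-(M : ℤ)) (2 * M)).filter (fun n => -1 * n + m ∈ Ico u v), f n =
      ∑ n ∈ (Ico u v).image (fun n => m - n), f n := by
    apply sum_subset
    · intro n hn
      rw [mem_filter] at hn
      rw [mem_image]
      exact ⟨-1 * n + m, hn.2, by ring⟩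
    · intro n hn hn'
      rw [mem_image] at hn
      obtain ⟨y, hy, rfl⟩ := hn
      have : m - y ∉ Icc (-(M : ℤ)) (2 * M) := by
        intro hc
        apply hn'
        rw [mem_filter]
        refine ⟨hc, ?_⟩
        have e : -1 * (m - y) + m = y := by ring
        rw [e]
        exact hy
      rw [hf]
      simp only
      rw [hJ _ this, zero_mul]
  have h3 : ∑ n ∈ (Ico u v).image (fun n => m - n), f n = ∑ n ∈ Ico u v, f (m - n) := by
    apply sum_image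
    intro x _ y _ h
    simp only at h
    omega
  rw [h1, h2, h3, ← sum_add_distrib]
  unfold DI
  apply sum_congr rfl
  intro n _
  rw [Fin.prod_univ_two, Fin.prod_univ_two, hf]
  simp only [a2, Pool.Agent.Helper85.HP.h2, Matrix.cons_val_zero, Matrix.cons_val_one]
  have e1 : (1 : ℤ) * n + 0 = n := by ring
  have e2 : -1 * (m - n) + m = n := by ring
  have e3 : m - n = -1 * n + m := by ring
  rw [e2, e1, e3]
  ring

lemma card_Icc3 {M : ℕ} (hM : 1 ≤ M) : ((Icc (-(M : ℤ)) (2 * M)).card : ℝ) ≤ 4 * M := by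
  rw [Int.card_Icc]
  have : (2 * (M : ℤ) + 1 - -(M : ℤ)).toNat ≤ 4 * M := by omega
  exact_mod_cast this

lemma sum_norm_sq {S : Finset ℤ} {f : ℤ → ℂ} {c V : ℝ} (hS : (S.card : ℝ) ≤ c) (hV : 0 ≤ V) (hf : ∀ n ∈ S, ‖f n‖ ≤ V) :
    ∑ n ∈ S, ‖f n‖ ^ 2 ≤ c * V ^ 2 := by
  calc ∑ n ∈ S, ‖f n‖ ^ 2 ≤ ∑ n ∈ S, V ^ 2 := sum_le_sum fun n hn => pow_le_pow_left₀ (norm_nonneg _) (hf n hn) 2
    _ = S.card * V ^ 2 := by rw [sum_const, nsmul_eq_mul]
    _ ≤ _ := mul_le_mul_of_nonneg_right hS (by positivity)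

theorem bad_four (L1 L2 : ℕ) (hL1 : lE 2 ≤ L1) {κ : ℝ} (hκ0 : 0 < κ) (hκ1 : κ ≤ 1 / 32) : ∃ Q0 : ℕ, ∀ Q : ℕ, Q0 ≤ Q →
    ∀ N : ℕ, Q ^ L1 ≤ N → N ≤ Q ^ L2 → ∀ B : PC → ℝ, HW Q ((4 * 1 + 1) * N) B → ∑ j ∈ fam Q, B j ≤ 1 →
    ∀ (X : Finset ℕ) (F : ℕ → ℤ) (u v : ℤ), -(4 * N : ℤ) ≤ u → u ≤ 4 * N → -(4 * N : ℤ) ≤ v → v ≤ 4 * N → ∀ l : ℝ, 0 < l → ∀ Y ⊆ X,
    (∀ x ∈ Y, 2 * l < ‖DI Q ((4 * 1 + 1) * N) a2 (h2 (F x)) u v‖) →
    (l * Y.card) ^ 4 ≤ 16 * (36864 * ((5 * N : ℝ) ^ 5 * ((Q : ℝ) ^ κ) ^ 8 * ((Q : ℝ) ^ (-(1 / 4) : ℝ)) ^ 2 * nrg X F 2)) := by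
  classical
  obtain ⟨Q1, hQ1⟩ := sup_main (cR 2) (L2 + 1) (by unfold cR; norm_num) hκ0 hκ1
  refine ⟨Q1 + 5, fun Q hQ N hN1 hN2 B hw hBs X F u v hu hu' hv hv' l hl Y hY hYl => ?_⟩
  have hQ1' : 1 ≤ Q := by omega
  have hNpos : 0 < N := lt_of_lt_of_le (by positivity) hN1
  obtain ⟨M, hM⟩ : ∃ M : ℕ, M = (4 * 1 + 1) * N := ⟨_, rfl⟩
  have hM5 : M = 5 * N := by omega
  have hM1 : 1 ≤ M := by omega
  have hMr : (M : ℝ) = 5 * N := by rw [hM5]; push_cast; ring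
  have hM0 : (0 : ℝ) < M := by exact_mod_cast (by omega : 0 < M)
  have hlow : Q ^ (6 * cR 2 + 20) ≤ M := by
    refine le_trans (Nat.pow_le_pow_right (by omega) ?_) (hN1.trans (by omega))
    unfold lE at hL1
    omega
  have hup : M ≤ Q ^ (L2 + 1) := by
    calc M = 5 * N := hM5
      _ ≤ Q * Q ^ L2 := Nat.mul_le_mul (by omega) hN2
      _ = Q ^ (L2 + 1) := by ring
  rw [← hM] at hw hYl
  obtain ⟨hσ, hcL, hcB, hS1, hS2, hlog⟩ := hQ1 Q (by omega) M hlow hup B hw hBs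
  obtain ⟨V, hV⟩ : ∃ V : ℝ, V = (Q : ℝ) ^ κ := ⟨_, rfl⟩
  obtain ⟨w, hwd⟩ : ∃ w : ℝ, w = (Q : ℝ) ^ (-(1 / 4) : ℝ) := ⟨_, rfl⟩
  rw [← hV] at hcL hcB hlog
  rw [← hwd] at hσ
  rw [← hV, ← hwd, ← hMr]
  have hw0 : 0 ≤ w := by rw [hwd]; positivity
  have hV1 : 1 ≤ V := by rw [hV]; exact Real.one_le_rpow (by exact_mod_cast hQ1') hκ0.le
  have hV0 : 0 ≤ V := by linarith
  obtain ⟨D, hD⟩ : ∃ D : ℤ → ℂ, D = fun n => cL Q M n - cB Q (cR 2) M n := ⟨_, rfl⟩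
  have hDSF : SF D (Icc (-(M : ℤ)) (2 * M)) := by
    intro n hn
    rw [hD]
    simp only
    rw [hS1 n hn, hS2 n hn, sub_zero]
  have hDσ : ∀ θ, ‖FT D θ‖ ≤ 2 * (M * w) := by
    intro θ
    rw [hD, FT_sub hS1 hS2]
    exact hσ θ
  have hDV : ∀ n, ‖D n‖ ≤ 3 * V := by
    intro n
    rw [hD]
    refine (norm_sub_le _ _).trans ?_
    have := hcL n
    have := hcB n
    linarith
  have hc3 := card_Icc3 hM1
  have hsD : ∑ n ∈ Icc (-(M : ℤ)) (2 * M), ‖D n‖ ^ 2 ≤ 4 * M * (3 * V) ^ 2 :=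
    sum_norm_sq hc3 (by positivity) fun n _ => hDV n
  have hnr : (0 : ℝ) ≤ nrg X F 2 := Nat.cast_nonneg _
  obtain ⟨Z, hZ⟩ : ∃ Z : ℝ, Z = 36864 * ((M : ℝ) ^ 5 * V ^ 8 * w ^ 2 * nrg X F 2) := ⟨_, rfl⟩
  rw [← hZ]
  -- the first part
  obtain ⟨Y1, hY1⟩ : ∃ Y1 : Finset ℕ, Y1 = Y.filter (fun x => l ≤ ‖∑ n ∈ Ico u v, cL Q M n * D (-1 * n + F x)‖) := ⟨_, rfl⟩
  obtain ⟨Y2, hY2⟩ : ∃ Y2 : Finset ℕ, Y2 = Y.filter (fun x => l ≤ ‖∑ n ∈ Icc (-(M : ℤ)) (2 * M), cB Q (cR 2) M n *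
    ((if -1 * n + F x ∈ Ico u v then 1 else 0) * D (-1 * n + F x))‖) := ⟨_, rfl⟩
  have hb1 : (l * Y1.card) ^ 4 ≤ Z := by
    have h1 := count_bad X F hDSF hDσ (r := 2) (by norm_num) (a := -1) (by norm_num) (Ico u v) (cL Q M) Y1
      (by rw [hY1]; exact (filter_subset _ _).trans hY) hl (by
        intro x hx
        rw [hY1, mem_filter] at hx
        exact hx.2)
    have h2 : ∑ n ∈ Ico u v, ‖cL Q M n‖ ^ 2 ≤ 2 * M * V ^ 2 := by
      apply sum_norm_sq _ hV0 fun n _ => hcL n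
      rw [Int.card_Ico, hMr]
      have : (v - u).toNat ≤ 8 * N := by omega
      have h3 : ((v - u).toNat : ℝ) ≤ 8 * N := by exact_mod_cast this
      have : (0 : ℝ) ≤ N := Nat.cast_nonneg _
      linarith
    refine h1.trans ?_
    calc (∑ n ∈ Ico u v, ‖cL Q M n‖ ^ 2) ^ 2 *
        ((∑ n ∈ Icc (-(M : ℤ)) (2 * M), ‖D n‖ ^ 2) ^ (2 - 1) * ((2 * (M * w)) ^ 2 * nrg X F 2)) ≤
        (2 * M * V ^ 2) ^ 2 * ((4 * M * (3 * V) ^ 2) ^ (2 - 1) * ((2 * (M * w)) ^ 2 * nrg X F 2)) := by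
          apply mul_le_mul
          · exact pow_le_pow_left₀ (by positivity) h2 2
          · apply mul_le_mul_of_nonneg_right _ (by positivity)
            simpa using hsD
          · positivity
          · positivity
      _ = 576 * (((M : ℝ) ^ 5 * w ^ 2 * nrg X F 2) * V ^ 6) := by ring
      _ ≤ 36864 * (((M : ℝ) ^ 5 * w ^ 2 * nrg X F 2) * V ^ 8) := by
          apply mul_le_mul (by norm_num) _ (by positivity) (by norm_num)
          apply mul_le_mul_of_nonneg_left _ (by positivity)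
          exact pow_le_pow_right₀ hV1 (by norm_num)
      _ = Z := by rw [hZ]; ring
  have hb2 : (l * Y2.card) ^ 4 ≤ Z := by
    have hcut : ∀ θ, ‖FT (fun n => (if n ∈ Ico u v then 1 else 0) * D n) θ‖ ≤ 2 * (M * w) * V := by
      intro θ
      refine (cut_sup hDSF hDσ (m := 8 * M) (by omega) ?_ ?_ θ).trans ?_
      · intro n hn y hy
        rw [mem_Icc] at hn
        rw [mem_Ico] at hy
        rw [abs_lt]
        push_cast
        constructor <;> omega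
      · push_cast
        omega
      · apply mul_le_mul_of_nonneg_left _ (by positivity)
        push_cast
        exact hlog
    have hSFc : SF (fun n => (if n ∈ Ico u v then (1 : ℂ) else 0) * D n) (Icc (-(M : ℤ)) (2 * M)) := SF_mul' hDSF _
    have h1 := count_bad X F hSFc hcut (r := 2) (by norm_num) (a := -1) (by norm_num) (Icc (-(M : ℤ)) (2 * M))
      (cB Q (cR 2) M) Y2 (by rw [hY2]; exact (filter_subset _ _).trans hY) hl (by
        intro x hx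
        rw [hY2, mem_filter] at hx
        exact hx.2)
    have h2 : ∑ n ∈ Icc (-(M : ℤ)) (2 * M), ‖cB Q (cR 2) M n‖ ^ 2 ≤ 4 * M * (2 * V) ^ 2 :=
      sum_norm_sq hc3 (by positivity) fun n _ => hcB n
    have h3 : ∑ n ∈ Icc (-(M : ℤ)) (2 * M), ‖(if n ∈ Ico u v then (1 : ℂ) else 0) * D n‖ ^ 2 ≤ 4 * M * (3 * V) ^ 2 := by
      apply sum_norm_sq hc3 (by positivity)
      intro n _
      rw [norm_mul]
      split_ifs
      · rw [norm_one, one_mul]; exact hDV n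
      · rw [norm_zero, zero_mul]; positivity
    refine h1.trans ?_
    calc (∑ n ∈ Icc (-(M : ℤ)) (2 * M), ‖cB Q (cR 2) M n‖ ^ 2) ^ 2 *
        ((∑ n ∈ Icc (-(M : ℤ)) (2 * M), ‖(if n ∈ Ico u v then (1 : ℂ) else 0) * D n‖ ^ 2) ^ (2 - 1) *
          ((2 * (M * w) * V) ^ 2 * nrg X F 2)) ≤
        (4 * M * (2 * V) ^ 2) ^ 2 * ((4 * M * (3 * V) ^ 2) ^ (2 - 1) * ((2 * (M * w) * V) ^ 2 * nrg X F 2)) := by
          apply mul_le_mul
          · exact pow_le_pow_left₀ (by positivity) h2 2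
          · apply mul_le_mul_of_nonneg_right _ (by positivity)
            simpa using h3
          · positivity
          · positivity
      _ = Z := by rw [hZ]; ring
  have hsub : Y ⊆ Y1 ∪ Y2 := by
    intro x hx
    by_contra hc
    rw [mem_union, hY1, hY2, mem_filter, mem_filter] at hc
    push Not at hc
    have h1 := hc.1 hx
    have h2 := hc.2 hx
    have h3 := hYl x hx
    rw [DI_two Q M (F x) u v hS2] at h3
    have h4 := norm_add_le (∑ n ∈ Ico u v, cL Q M n * (cL Q M (-1 * n + F x) - cB Q (cR 2) M (-1 * n + F x)))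
      (∑ n ∈ Icc (-(M : ℤ)) (2 * M), cB Q (cR 2) M n *
        ((if -1 * n + F x ∈ Ico u v then 1 else 0) * (cL Q M (-1 * n + F x) - cB Q (cR 2) M (-1 * n + F x))))
    rw [hD] at h1 h2
    simp only at h1 h2
    linarith
  have hcard : (Y.card : ℝ) ≤ Y1.card + Y2.card := by
    exact_mod_cast (card_le_card hsub).trans (card_union_le _ _)
  have hZ0 : 0 ≤ Z := le_trans (by positivity) hb1
  have hfin : (l * Y.card) ^ 4 ≤ (l * Y1.card + l * Y2.card) ^ 4 := by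
    apply pow_le_pow_left₀ (by positivity)
    rw [← mul_add]
    exact mul_le_mul_of_nonneg_left hcard hl.le
  refine hfin.trans ?_
  obtain ⟨p, hp⟩ : ∃ p : ℝ, p = l * Y1.card := ⟨_, rfl⟩
  obtain ⟨q, hq⟩ : ∃ q : ℝ, q = l * Y2.card := ⟨_, rfl⟩
  rw [← hp] at hb1 ⊢
  rw [← hq] at hb2 ⊢
  have hp0 : 0 ≤ p := by rw [hp]; positivity
  have hq0 : 0 ≤ q := by rw [hq]; positivity
  rcases le_total p q with h | h
  · calc (p + q) ^ 4 ≤ (2 * q) ^ 4 := pow_le_pow_left₀ (by positivity) (by linarith) 4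
      _ = 16 * q ^ 4 := by ring
      _ ≤ 16 * Z := by linarith
  · calc (p + q) ^ 4 ≤ (2 * p) ^ 4 := pow_le_pow_left₀ (by positivity) (by linarith) 4
      _ = 16 * p ^ 4 := by ring
      _ ≤ 16 * Z := by linarith

end Pool.Agent.Helper85.HP
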