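import Pool.Agent.Helper85.HP.A1
import Pool.Agent.H510R2.Div

set_option autoImplicit false

/-!
# The energy of the numbers `2 N² + 2 N + 2`
-/

open Finset

namespace Pool.Agent.Helper85.HP

/-- `2 x² + 2 x + 2 = (x² + 1) + (x + 1)²` -/
def sq2 (x : ℕ) : ℤ := 2 * (x : ℤ) ^ 2 + 2 * x + 2

lemma sq2_sub (x y : ℕ) : sq2 x - sq2 y = 2 * (((x : ℤ) - y) * (x + y + 1)) := by
  unfold sq2; ring

lemma two_inj {u w u' w' : ℕ} {t : ℤ} (ht : t ≠ 0) (h : ((u : ℤ) - w) * (u + w + 1) = t) (h' : ((u' : ℤ) - w') * (u' + w' + 1) = t)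
    (hd : ((u : ℤ) - w).natAbs = ((u' : ℤ) - w').natAbs) : u = u' ∧ w = w' := by
  have h1 : (u : ℤ) - w = (u' : ℤ) - w' := by
    rcases Int.natAbs_eq_natAbs_iff.1 hd with h2 | h2
    · exact h2
    · exfalso
      rw [h2, ← h'] at h
      have h3 : ((u' : ℤ) - w') * ((u + w + 1) + (u' + w' + 1)) = 0 := by linear_combination -h
      rcases mul_eq_zero.1 h3 with h4 | h4
      · rw [h4, zero_mul] at h'
        exact ht h'.symm
      · omega
  have h0 : (u : ℤ) - w ≠ 0 := by
    intro h4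
    rw [h4, zero_mul] at h
    exact ht h.symm
  have h2 : ((u : ℤ) + w + 1) = u' + w' + 1 := by
    rw [← h1, ← h] at h'
    exact (mul_left_cancel₀ h0 h').symm
  constructor <;> omega

theorem nrg_sq {η : ℝ} (hη : 0 < η) : ∃ C : ℝ, 1 ≤ C ∧ ∀ (X : Finset ℕ) (P : ℕ), 1 ≤ P → (∀ x ∈ X, x ≤ P) →
    (nrg X sq2 2 : ℝ) ≤ C * (X.card : ℝ) ^ 2 * (P : ℝ) ^ η := by
  classical
  obtain ⟨C0, hC0, hdiv⟩ := Pool.Agent.H510R2.divisor_bound (η / 2) (by positivity)
  refine ⟨1 + C0 * (3 : ℝ) ^ (η / 2), by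
    have : 0 ≤ C0 * (3 : ℝ) ^ (η / 2) := by positivity
    linarith, fun X P hP hX => ?_⟩
  have hPr : (1 : ℝ) ≤ P := by exact_mod_cast hP
  have hPη : 1 ≤ (P : ℝ) ^ η := Real.one_le_rpow hPr hη.le
  obtain ⟨D, hD⟩ : ∃ D : ℕ, D = ⌊C0 * (3 : ℝ) ^ (η / 2) * (P : ℝ) ^ η⌋₊ := ⟨_, rfl⟩
  obtain ⟨Sol, hSol⟩ : ∃ Sol : Finset ((Fin 2 → ℕ) × (Fin 2 → ℕ)), Sol =
    ((Fintype.piFinset (fun _ : Fin 2 => X) ×ˢ Fintype.piFinset (fun _ : Fin 2 => X)).filter
      (fun p => ∑ i, sq2 (p.1 i) = ∑ i, sq2 (p.2 i))) := ⟨_, rfl⟩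
  have hmem : ∀ p ∈ Sol, (∀ i, p.1 i ∈ X) ∧ (∀ i, p.2 i ∈ X) ∧
      sq2 (p.1 0) + sq2 (p.1 1) = sq2 (p.2 0) + sq2 (p.2 1) := by
    intro p hp
    rw [hSol, mem_filter, mem_product, Fintype.mem_piFinset, Fintype.mem_piFinset, Fin.sum_univ_two, Fin.sum_univ_two] at hp
    exact ⟨hp.1.1, hp.1.2, hp.2⟩
  have hcard : nrg X sq2 2 = Sol.card := by rw [hSol]; rfl
  -- the diagonal
  have h1 : (Sol.filter (fun p => p.1 0 = p.2 0)).card ≤ X.card ^ 2 := by
    rw [sq, ← card_product]
    apply card_le_card_of_injOn (fun p => (p.1 0, p.1 1))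
    · intro p hp
      rw [mem_coe, mem_filter] at hp
      exact mem_coe.2 (mem_product.2 ⟨(hmem p hp.1).1 0, (hmem p hp.1).1 1⟩)
    · intro p hp q hq hpq
      rw [mem_coe, mem_filter] at hp hq
      have hpd : p.1 1 = p.2 1 := by
        have := (hmem p hp.1).2.2
        rw [hp.2] at this
        have h2 : sq2 (p.1 1) - sq2 (p.2 1) = 0 := by linarith
        rw [sq2_sub] at h2
        rcases mul_eq_zero.1 h2 with h3 | h3
        · norm_num at h3
        · rcases mul_eq_zero.1 h3 with h4 | h4 <;> omega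
      have hqd : q.1 1 = q.2 1 := by
        have := (hmem q hq.1).2.2
        rw [hq.2] at this
        have h2 : sq2 (q.1 1) - sq2 (q.2 1) = 0 := by linarith
        rw [sq2_sub] at h2
        rcases mul_eq_zero.1 h2 with h3 | h3
        · norm_num at h3
        · rcases mul_eq_zero.1 h3 with h4 | h4 <;> omega
      simp only [Prod.mk.injEq] at hpq
      have e1 : p.1 = q.1 := by
        funext i
        fin_cases i
        · exact hpq.1
        · exact hpq.2
      have e2 : p.2 = q.2 := by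
        funext i
        fin_cases i
        · change p.2 0 = q.2 0
          rw [← hp.2, ← hq.2]; exact hpq.1
        · change p.2 1 = q.2 1
          rw [← hpd, ← hqd]; exact hpq.2
      exact Prod.ext e1 e2
  -- off the diagonal
  have h2 : (Sol.filter (fun p => ¬ p.1 0 = p.2 0)).card ≤ D * (X ×ˢ X).card := by
    apply card_le_mul_card_image_of_maps_to (f := fun p : (Fin 2 → ℕ) × (Fin 2 → ℕ) => (p.1 0, p.2 0))
    · intro p hp
      rw [mem_filter] at hp
      exact mem_product.2 ⟨(hmem p hp.1).1 0, (hmem p hp.1).2.1 0⟩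
    · rintro ⟨x, y⟩ hxy
      rw [mem_product] at hxy
      rcases eq_or_ne x y with rfl | hne
      · rw [card_eq_zero.2]
        · exact Nat.zero_le _
        · rw [filter_eq_empty_iff]
          intro p hp hpx
          rw [mem_filter] at hp
          simp only [Prod.mk.injEq] at hpx
          exact hp.2 (hpx.1.trans hpx.2.symm)
      · obtain ⟨t, ht⟩ : ∃ t : ℤ, t = ((y : ℤ) - x) * (y + x + 1) := ⟨_, rfl⟩
        have ht0 : t ≠ 0 := by
          rw [ht]
          apply mul_ne_zero
          · intro h; apply hne; omega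
          · omega
        have hT1 : 1 ≤ t.natAbs := Nat.pos_of_ne_zero (Int.natAbs_ne_zero.2 ht0)
        have hfib : (filter (fun a : (Fin 2 → ℕ) × (Fin 2 → ℕ) => (a.1 0, a.2 0) = (x, y))
            (Sol.filter (fun p => ¬ p.1 0 = p.2 0))).card ≤ t.natAbs.divisors.card := by
          have hkey : ∀ p ∈ filter (fun a : (Fin 2 → ℕ) × (Fin 2 → ℕ) => (a.1 0, a.2 0) = (x, y))
              (Sol.filter (fun p => ¬ p.1 0 = p.2 0)), p.1 0 = x ∧ p.2 0 = y ∧
              ((p.1 1 : ℤ) - p.2 1) * (p.1 1 + p.2 1 + 1) = t := by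
            intro p hp
            rw [mem_filter, mem_filter] at hp
            have hpx := hp.2
            simp only [Prod.mk.injEq] at hpx
            refine ⟨hpx.1, hpx.2, ?_⟩
            have h3 := (hmem p hp.1.1).2.2
            rw [hpx.1, hpx.2] at h3
            have h4 : sq2 (p.1 1) - sq2 (p.2 1) = sq2 y - sq2 x := by linarith
            rw [sq2_sub, sq2_sub] at h4
            rw [ht]
            exact mul_left_cancel₀ (two_ne_zero) h4
          apply card_le_card_of_injOn (fun p => ((p.1 1 : ℤ) - p.2 1).natAbs)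
          · intro p hp
            have h3 := hkey p (mem_coe.1 hp)
            rw [mem_coe, Nat.mem_divisors]
            refine ⟨?_, by omega⟩
            rw [Int.natAbs_dvd_natAbs, ← h3.2.2]
            exact dvd_mul_right _ _
          · intro p hp q hq hpq
            have h3 := hkey p (mem_coe.1 hp)
            have h4 := hkey q (mem_coe.1 hq)
            simp only at hpq
            obtain ⟨h5, h6⟩ := two_inj ht0 h3.2.2 h4.2.2 hpq
            have e1 : p.1 = q.1 := by
              funext i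
              fin_cases i
              · exact h3.1.trans h4.1.symm
              · exact h5
            have e2 : p.2 = q.2 := by
              funext i
              fin_cases i
              · exact h3.2.1.trans h4.2.1.symm
              · exact h6
            exact Prod.ext e1 e2
        refine hfib.trans ?_
        rw [hD]
        apply Nat.le_floor
        refine (hdiv _ hT1).trans ?_
        have hx := hX x hxy.1
        have hy := hX y hxy.2
        have hT : (t.natAbs : ℝ) ≤ 3 * (P : ℝ) ^ 2 := by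
          have e1 : t.natAbs = ((y : ℤ) - x).natAbs * ((y : ℤ) + x + 1).natAbs := by rw [ht, Int.natAbs_mul]
          have e2 : ((y : ℤ) - x).natAbs ≤ P := by omega
          have e3 : ((y : ℤ) + x + 1).natAbs ≤ 3 * P := by omega
          have e4 : t.natAbs ≤ P * (3 * P) := by rw [e1]; exact Nat.mul_le_mul e2 e3
          have e5 : (t.natAbs : ℝ) ≤ P * (3 * P) := by exact_mod_cast e4
          calc (t.natAbs : ℝ) ≤ P * (3 * P) := e5
            _ = 3 * (P : ℝ) ^ 2 := by ring
        rw [mul_assoc]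
        apply mul_le_mul_of_nonneg_left _ hC0.le
        calc (t.natAbs : ℝ) ^ (η / 2) ≤ (3 * (P : ℝ) ^ 2) ^ (η / 2) :=
              Real.rpow_le_rpow (Nat.cast_nonneg _) hT (by positivity)
          _ = (3 : ℝ) ^ (η / 2) * (P : ℝ) ^ η := by
              rw [Real.mul_rpow (by norm_num) (by positivity), ← Real.rpow_natCast, ← Real.rpow_mul (by positivity)]
              congr 2
              push_cast
              ring
  have h3 : (Sol.filter (fun p => p.1 0 = p.2 0)).card + (Sol.filter (fun p => ¬ p.1 0 = p.2 0)).card = Sol.card :=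
    card_filter_add_card_filter_not _
  have h4 : (D : ℝ) ≤ C0 * (3 : ℝ) ^ (η / 2) * (P : ℝ) ^ η := by
    rw [hD]; exact Nat.floor_le (by positivity)
  rw [card_product] at h2
  have h5 : (Sol.card : ℝ) ≤ (X.card : ℝ) ^ 2 + D * ((X.card : ℝ) * X.card) := by
    rw [← h3]
    push_cast
    apply add_le_add
    · exact_mod_cast h1
    · exact_mod_cast h2
  rw [hcard]
  refine h5.trans ?_
  have h6 : (D : ℝ) * ((X.card : ℝ) * X.card) ≤ (C0 * (3 : ℝ) ^ (η / 2) * (P : ℝ) ^ η) * ((X.card : ℝ) * X.card) :=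
    mul_le_mul_of_nonneg_right h4 (by positivity)
  have h7 : (X.card : ℝ) ^ 2 ≤ (X.card : ℝ) ^ 2 * (P : ℝ) ^ η := le_mul_of_one_le_right (by positivity) hPη
  calc (X.card : ℝ) ^ 2 + D * ((X.card : ℝ) * X.card) ≤
      (X.card : ℝ) ^ 2 * (P : ℝ) ^ η + (C0 * (3 : ℝ) ^ (η / 2) * (P : ℝ) ^ η) * ((X.card : ℝ) * X.card) := add_le_add h7 h6
    _ = _ := by ring

end Pool.Agent.Helper85.HP
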