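import Pool.Agent.Helper85.HP.A5
import Pool.Agent.Helper85.HP.A6
import Pool.Agent.Helper86.PS.H10

set_option autoImplicit false

/-!
# Pairs of primes with sum `2 N² + 2 N + 2`, at a fixed scale and at most scales
-/

open Finset Filter Topology

namespace Pool.Agent.Helper85.HP

open Pool.Agent.Helper86.PS Pool.Agent.H807R2.Dav

/-- the asymptotic formula for the number of representations of `sq2 x` at the scale `X` -/
def Good (ε δ : ℝ) (X x : ℕ) : Prop :=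
  ∃ S : ℝ, 0 < S ∧ HasProd (fun p : Nat.Primes => facP a2 (h2 (sq2 x)) (p : ℕ)) S ∧ ∀ u v : ℤ, 1 ≤ u → v ≤ sq2 x →
    (X : ℝ) ^ (2 - δ) ≤ ((v - u : ℤ) : ℝ) →
    |(pc a2 (h2 (sq2 x)) u v : ℝ) - S * (((v - u : ℤ) : ℝ) / (2 * Real.log X) ^ 2)| ≤
      ε * (S * (((v - u : ℤ) : ℝ) / (2 * Real.log X) ^ 2))

lemma Del_two {m : ℤ} (hm : m ≠ 0) : Del a2 (h2 m) ≠ 0 := by
  have e0 : (univ : Finset (Fin 2)).erase 0 = {1} := by decide
  have e1 : (univ : Finset (Fin 2)).erase 1 = {0} := by decide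
  unfold Del
  rw [Fin.prod_univ_two, e0, e1, prod_singleton, prod_singleton]
  simp only [a2, h2, Matrix.cons_val_zero, Matrix.cons_val_one]
  apply mul_ne_zero
  · intro h; apply hm; linarith
  · intro h; apply hm; linarith

lemma adm_two (x : ℕ) {p : ℕ} (hp : p.Prime) : nuP a2 (h2 (sq2 x)) p < p := by
  rcases hp.two_le.eq_or_lt with h | h
  · subst h
    have h1 : nuP a2 (h2 (sq2 x)) 2 ≤ ({0} : Finset ℕ).card := by
      unfold nuP
      apply card_le_card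
      intro y hy
      rw [mem_filter, mem_range] at hy
      obtain ⟨hy1, i, hi⟩ := hy
      rw [mem_singleton]
      by_contra hc
      have hy2 : y = 1 := by omega
      subst hy2
      fin_cases i
      · simp only [a2, h2, Fin.zero_eta, Matrix.cons_val_zero] at hi
        omega
      · simp only [a2, h2, Fin.mk_one, Matrix.cons_val_one] at hi
        unfold sq2 at hi
        push_cast at hi
        obtain ⟨t, ht⟩ := hi
        have : (x : ℤ) ^ 2 * 2 + 2 * x + 2 = 2 * t + 1 := by linarith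
        omega
    rw [card_singleton] at h1
    omega
  · apply nuP_lt_of hp h
    intro i hi
    have hp1 : (p : ℤ) ∣ 1 := by
      fin_cases i
      · simpa [a2] using hi
      · simpa [a2] using hi
    have := Int.le_of_dvd one_pos hp1
    omega

lemma fourth {y X q C : ℝ} (hy : 0 ≤ y) (hX : 0 ≤ X) (hq : 1 ≤ q) (hC : C ≤ q ^ 3) (h : y ^ 4 ≤ C * (X ^ 4 / q ^ 103)) :
    y ≤ X / q ^ 25 := by
  have hq0 : 0 < q := by linarith
  have h1 : y ^ 4 ≤ (X / q ^ 25) ^ 4 := by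
    refine h.trans ?_
    calc C * (X ^ 4 / q ^ 103) ≤ q ^ 3 * (X ^ 4 / q ^ 103) := mul_le_mul_of_nonneg_right hC (by positivity)
      _ = (X / q ^ 25) ^ 4 := by field_simp
  exact le_of_pow_le_pow_left₀ (by norm_num) (by positivity) h1

theorem fixed {ε : ℝ} (hε0 : 0 < ε) (hε1 : ε ≤ 1) (L1 L2 : ℕ) (hL1 : lE 2 ≤ L1) (hL1κ : 320 ≤ ε * L1) (hL2 : 1 ≤ L2) :
    ∃ Q0 : ℕ, ∀ Q : ℕ, Q0 ≤ Q → ∀ X : ℕ, Q ^ L1 ≤ X → X ≤ Q ^ L2 → ∀ B : PC → ℝ, HW Q ((4 * 1 + 1) * X ^ 2) B →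
    ∀ ε' : ℝ, ∑ j ∈ fam Q, B j ≤ ε' → (1 + ε') ^ 2 - 1 ≤ ε / 40 → ε' ≤ 1 →
    ∃ E : Finset ℕ, (E.card : ℝ) ≤ (X : ℝ) ^ (1 - (1 / (256 * L2) : ℝ)) ∧ ∀ x < X, x ∉ E → Good ε (1 / (256 * L2)) X x := by
  classical
  have hL2r : (1 : ℝ) ≤ L2 := by exact_mod_cast hL2
  obtain ⟨C1, hC1, hnrg⟩ := nrg_sq (η := 1 / (256 * (L2 : ℝ))) (by positivity)
  obtain ⟨C, hC⟩ : ∃ C : ℝ, C = 16 * (16 * (36864 * 3125)) * C1 := ⟨_, rfl⟩
  obtain ⟨Q1, hQ1⟩ := bad_four L1 (2 * L2) hL1 (κ := 1 / ((256 : ℕ) : ℝ)) (by norm_num) (by norm_num)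
  obtain ⟨Q2, hQ2⟩ := per_h (E := 256) (by norm_num) 2 (by norm_num) 1 (κ := ε / 10) (by positivity) (by linarith) L1 (2 * L2)
    hL1 (by push_cast; linarith)
  obtain ⟨Q3, hQ3⟩ := ev_log (max C 25) 0 (a := 1 / ((256 : ℕ) : ℝ)) (by norm_num)
  refine ⟨Q1 + Q2 + Q3 + 3, fun Q hQ X hX1 hX2 B hw ε' hBs hε' hε'1 => ?_⟩
  have hQ1' : 1 ≤ Q := by omega
  have hQr : (1 : ℝ) ≤ Q := by exact_mod_cast hQ1'
  obtain ⟨q, hq⟩ : ∃ q : ℝ, q = qk 256 Q := ⟨_, rfl⟩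
  have hq1 : 1 ≤ q := by rw [hq]; exact qk_ge hQ1'
  have hq0 : 0 < q := by linarith
  have hqd : (Q : ℝ) ^ (1 / ((256 : ℕ) : ℝ)) = q := by rw [hq]; rfl
  have hmaxq : max C 25 ≤ q := by
    have := hQ3 Q (by omega)
    rwa [pow_zero, mul_one, hqd] at this
  have hCq : C ≤ q ^ 3 := (le_max_left _ _).trans (hmaxq.trans (le_self_pow₀ hq1 (by norm_num)))
  have h25q : 25 ≤ q := (le_max_right _ _).trans hmaxq
  have hXpos : 0 < X := lt_of_lt_of_le (by positivity) hX1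
  have hX0 : (0 : ℝ) < X := by exact_mod_cast hXpos
  have hX1r : (1 : ℝ) ≤ X := by exact_mod_cast hXpos
  obtain ⟨N, hN⟩ : ∃ N : ℕ, N = X ^ 2 := ⟨_, rfl⟩
  have hNr : (N : ℝ) = (X : ℝ) ^ 2 := by rw [hN]; push_cast; ring
  have hNpos : (0 : ℝ) < N := by rw [hNr]; positivity
  have hNX : X ≤ N := by rw [hN]; exact Nat.le_self_pow (by norm_num) X
  have hNQ : N ≤ Q ^ (2 * L2) := by
    rw [hN, mul_comm 2 L2, pow_mul]
    exact Nat.pow_le_pow_left hX2 2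
  obtain ⟨δ, hδ⟩ : ∃ δ : ℝ, δ = 1 / (256 * L2) := ⟨_, rfl⟩
  rw [← hδ] at hnrg ⊢
  have hδ0 : 0 < δ := by rw [hδ]; positivity
  have hXδ : (X : ℝ) ^ δ ≤ q := by
    have h1 : (X : ℝ) ^ δ ≤ ((Q : ℝ) ^ L2) ^ δ := by
      apply Real.rpow_le_rpow hX0.le _ hδ0.le
      exact_mod_cast hX2
    refine h1.trans (le_of_eq ?_)
    rw [← hqd, ← Real.rpow_natCast, ← Real.rpow_mul (by linarith)]
    congr 1
    rw [hδ]
    push_cast
    field_simp
  have hXδ0 : 0 < (X : ℝ) ^ δ := Real.rpow_pos_of_pos hX0 _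
  rw [← hN] at hw
  obtain ⟨G, hG⟩ : ∃ G : ℕ, G = cg 256 Q N := ⟨_, rfl⟩
  obtain ⟨K, hK⟩ : ∃ K : ℕ, K = kk 256 Q := ⟨_, rfl⟩
  obtain ⟨J, hJ⟩ : ∃ J : Finset ℤ, J = Icc (-(2 * K : ℤ)) (2 * K) := ⟨_, rfl⟩
  have hKq : (K : ℝ) ≤ q ^ 4 := by rw [hK, hq]; exact kk_le hQ1'
  have hKN : K ≤ N := by
    have h1 : (K : ℝ) ≤ Q := hKq.trans (by rw [hq]; exact qk_le (by norm_num) hQ1' (by norm_num))
    have h2 : K ≤ Q := by exact_mod_cast h1
    have h3 : Q ≤ Q ^ L1 := Nat.le_self_pow (by unfold lE at hL1; omega) Q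
    omega
  have hKG : K * G ≤ 2 * N := by
    have e1 : K * G = K * (N / K) + K := by rw [hG, hK]; unfold cg; ring
    have e2 := Nat.mul_div_le N K
    omega
  have hkG : ∀ k ∈ J, -(4 * N : ℤ) ≤ k * G ∧ k * G ≤ 4 * N := by
    intro k hk
    rw [hJ, mem_Icc] at hk
    have h1 : (K : ℤ) * G ≤ 2 * N := by exact_mod_cast hKG
    have hG0 : (0 : ℤ) ≤ G := Int.natCast_nonneg _
    constructor
    · have := mul_le_mul_of_nonneg_right hk.1 hG0
      linarith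
    · have := mul_le_mul_of_nonneg_right hk.2 hG0
      linarith
  obtain ⟨Yk, hYk⟩ : ∃ Yk : ℤ × ℤ → Finset ℕ, Yk = fun k => (range X).filter (fun x =>
    (N : ℝ) / q ^ 4 < ‖DI Q ((4 * 1 + 1) * N) a2 (h2 (sq2 x)) (k.1 * G) (k.2 * G)‖) := ⟨_, rfl⟩
  obtain ⟨E, hE⟩ : ∃ E : Finset ℕ, E = (J ×ˢ J).biUnion Yk := ⟨_, rfl⟩
  have hone : ∀ k ∈ J ×ˢ J, ((Yk k).card : ℝ) ≤ X / q ^ 25 := by
    intro k hk
    rw [mem_product] at hk
    have hl : 0 < (N : ℝ) / (2 * q ^ 4) := by positivity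
    have h1 := hQ1 Q (by omega) N (hX1.trans hNX) hNQ B hw (hBs.trans hε'1) (range X) sq2 (k.1 * G) (k.2 * G)
      (hkG _ hk.1).1 (hkG _ hk.1).2 (hkG _ hk.2).1 (hkG _ hk.2).2 ((N : ℝ) / (2 * q ^ 4)) hl (Yk k)
      (by rw [hYk]; exact filter_subset _ _) (by
        intro x hx
        rw [hYk, mem_filter] at hx
        have e : 2 * ((N : ℝ) / (2 * q ^ 4)) = N / q ^ 4 := by field_simp
        rw [e]
        exact hx.2)
    have h2 := hnrg (range X) X hXpos (fun x hx => (mem_range.1 hx).le)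
    rw [card_range] at h2
    have h3 : (nrg (range X) sq2 2 : ℝ) ≤ C1 * (X : ℝ) ^ 2 * q :=
      h2.trans (mul_le_mul_of_nonneg_left hXδ (by positivity))
    rw [hqd] at h1
    have h4 : ((Q : ℝ) ^ (-(1 / 4) : ℝ)) ^ 2 = 1 / q ^ 128 := by
      have e1 : q ^ 128 = (Q : ℝ) ^ (1 / 2 : ℝ) := by
        rw [← hqd, ← Real.rpow_natCast, ← Real.rpow_mul (by linarith)]
        norm_num
      have e2 : ((Q : ℝ) ^ (-(1 / 4) : ℝ)) ^ 2 = (Q : ℝ) ^ (-(1 / 2) : ℝ) := by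
        rw [← Real.rpow_natCast, ← Real.rpow_mul (by linarith)]
        norm_num
      rw [e1, e2, Real.rpow_neg (by linarith), one_div (_ ^ _)]
    rw [h4] at h1
    apply fourth (C := C) (Nat.cast_nonneg _) hX0.le hq1 hCq
    obtain ⟨y, hy⟩ : ∃ y : ℝ, y = ((Yk k).card : ℝ) := ⟨_, rfl⟩
    rw [← hy] at h1 ⊢
    have h5 : ((N : ℝ) / (2 * q ^ 4) * y) ^ 4 = (N : ℝ) ^ 4 / (16 * q ^ 16) * y ^ 4 := by
      rw [mul_pow, div_pow, mul_pow, ← pow_mul]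
      norm_num
    rw [h5] at h1
    have h6 : (N : ℝ) ^ 4 / (16 * q ^ 16) * y ^ 4 ≤
        16 * (36864 * ((5 * (N : ℝ)) ^ 5 * q ^ 8 * (1 / q ^ 128) * (C1 * (X : ℝ) ^ 2 * q))) := by
      refine h1.trans ?_
      gcongr
    have h7 : 16 * (36864 * ((5 * (N : ℝ)) ^ 5 * q ^ 8 * (1 / q ^ 128) * (C1 * (X : ℝ) ^ 2 * q))) =
        (N : ℝ) ^ 4 / (16 * q ^ 16) * (C * ((X : ℝ) ^ 4 / q ^ 103)) := by
      rw [hC, hNr]
      field_simp
      ring
    rw [h7] at h6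
    exact le_of_mul_le_mul_left h6 (by positivity)
  refine ⟨E, ?_, ?_⟩
  · have hcard : (E.card : ℝ) ≤ ∑ k ∈ J ×ˢ J, ((Yk k).card : ℝ) := by
      rw [hE]
      exact_mod_cast card_biUnion_le
    have hJc : (J.card : ℝ) ≤ 5 * q ^ 4 := by
      have h1 : J.card ≤ 4 * K + 1 := by
        rw [hJ, Int.card_Icc]
        omega
      have h2 : (J.card : ℝ) ≤ 4 * K + 1 := by exact_mod_cast h1
      have h3 : 1 ≤ q ^ 4 := one_le_pow₀ hq1
      linarith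
    have h1 : (E.card : ℝ) ≤ X / q := by
      refine (hcard.trans (sum_le_sum hone)).trans ?_
      rw [sum_const, nsmul_eq_mul, card_product]
      push_cast
      calc (J.card : ℝ) * J.card * (X / q ^ 25) ≤ (5 * q ^ 4) * (5 * q ^ 4) * (X / q ^ 25) := by gcongr
        _ = 25 * (X / q ^ 17) := by field_simp; ring
        _ ≤ q * (X / q ^ 17) := mul_le_mul_of_nonneg_right h25q (by positivity)
        _ = X / q ^ 16 := by field_simp
        _ ≤ X / q := by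
          apply div_le_div_of_nonneg_left hX0.le hq0
          exact le_self_pow₀ hq1 (by norm_num)
    refine h1.trans ?_
    rw [Real.rpow_sub hX0, Real.rpow_one]
    exact div_le_div_of_nonneg_left hX0.le hXδ0 hXδ
  · intro x hx hxE
    have hm0 : 0 < sq2 x := by unfold sq2; positivity
    have hmX : sq2 x ≤ 2 * N := by
      rw [hN]
      unfold sq2
      push_cast
      have h1 : (x : ℤ) + 1 ≤ X := by exact_mod_cast hx
      have h2 : (0 : ℤ) ≤ x := Int.natCast_nonneg _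
      nlinarith
    have haA : ∀ i, |a2 i| ≤ ((1 : ℕ) : ℤ) := by
      intro i; fin_cases i <;> simp [a2]
    have ha0 : ∀ i, a2 i ≠ 0 := by
      intro i; fin_cases i <;> simp [a2]
    have hadm : ∀ p : ℕ, p.Prime → nuP a2 (h2 (sq2 x)) p < p := fun p hp => adm_two x hp
    have hΔ := Del_two hm0.ne'
    obtain ⟨S, hS⟩ := exists_facP ha0 hΔ hadm
    refine ⟨S, S_pos hadm hS, hS, fun u v hu hv hW => ?_⟩
    have h1 := hQ2 Q (by omega) N (hX1.trans hNX) hNQ B hw ε' hBs (by linarith) a2 (h2 (sq2 x)) ha0 haA (by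
        intro i
        fin_cases i
        · simp [h2]
        · simp only [h2, Fin.mk_one, Matrix.cons_val_one, Matrix.cons_val_fin_one, Matrix.cons_val_zero]
          rw [abs_of_pos hm0]
          push_cast
          linarith) hΔ hadm (by
        intro k1 k2 hk1 hk2
        by_contra hc
        push Not at hc
        apply hxE
        rw [hE, mem_biUnion]
        refine ⟨(k1, k2), ?_, ?_⟩
        · rw [mem_product, hJ, mem_Icc, mem_Icc, hK]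
          exact ⟨abs_le.1 hk1, abs_le.1 hk2⟩
        · rw [hYk, mem_filter, mem_range]
          refine ⟨hx, ?_⟩
          rw [hq, hG]
          exact hc) S hS u v (by
        have : (0 : ℤ) ≤ N := Int.natCast_nonneg _
        linarith) (by linarith) (by
        refine le_trans ?_ hW
        rw [← hq, hNr, Real.rpow_sub hX0]
        have : (X : ℝ) ^ (2 : ℝ) = (X : ℝ) ^ 2 := by exact_mod_cast Real.rpow_natCast (X : ℝ) 2
        rw [this]
        exact div_le_div_of_nonneg_left (by positivity) hXδ0 hXδ) (by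
        intro n hn i
        rw [mem_Ico] at hn
        fin_cases i
        · simp only [a2, h2, Fin.zero_eta, Matrix.cons_val_zero]
          linarith
        · simp only [a2, h2, Fin.mk_one, Matrix.cons_val_one, Matrix.cons_val_fin_one, Matrix.cons_val_zero]
          linarith)
    have e1 : Real.log N = 2 * Real.log X := by
      rw [hNr, Real.log_pow]; push_cast; ring
    rw [e1] at h1
    have e2 : 10 * (ε / 10) = ε := by ring
    rw [e2] at h1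
    exact h1

/-- the statement at the scale `X` -/
def PX (ε δ : ℝ) (X : ℕ) : Prop := ∃ E : Finset ℕ, (E.card : ℝ) ≤ (X : ℝ) ^ (1 - δ) ∧ ∀ x < X, x ∉ E → Good ε δ X x

theorem mostX {ε : ℝ} (hε : 0 < ε) : ∃ δ : ℝ, 0 < δ ∧ ∀ X0 : ℕ, MostSc ε (fun X => X0 ≤ X ∧ PX ε δ X) := by
  obtain ⟨ε0, hε0d⟩ : ∃ ε0 : ℝ, ε0 = min ε 1 := ⟨_, rfl⟩
  have hε00 : 0 < ε0 := by rw [hε0d]; exact lt_min hε one_pos
  have hε01 : ε0 ≤ 1 := by rw [hε0d]; exact min_le_right _ _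
  have hε0ε : ε0 ≤ ε := by rw [hε0d]; exact min_le_left _ _
  obtain ⟨E1, hE1⟩ := short_main
  obtain ⟨E2, hE2⟩ := Pool.Agent.TH823.PS.good_scales
  obtain ⟨E, hE⟩ : ∃ E : ℕ, E = E1 + E2 := ⟨_, rfl⟩
  obtain ⟨ε', hε'⟩ : ∃ ε' : ℝ, ε' = ε0 / 200 := ⟨_, rfl⟩
  have hε'0 : 0 < ε' := by rw [hε']; positivity
  have hε'1 : ε' ≤ 1 := by rw [hε']; linarith
  have hpow : (1 + ε') ^ 2 - 1 ≤ ε0 / 40 := by
    have : (1 + ε') ^ 2 - 1 = ε' * (2 + ε') := by ring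
    rw [this]
    have h1 : ε' * (2 + ε') ≤ ε' * 3 := mul_le_mul_of_nonneg_left (by linarith) hε'0.le
    have h2 : ε' * 3 = ε0 / 200 * 3 := by rw [hε']
    linarith
  obtain ⟨L0, Q1, hQ1⟩ := hE1 E (by omega) ε' hε'0
  obtain ⟨k1, hk1⟩ := exists_nat_ge (320 / ε0)
  obtain ⟨L1, hL1⟩ : ∃ L1 : ℕ, L1 = lE 2 + k1 + L0 + 6 := ⟨_, rfl⟩
  obtain ⟨k2, hk2⟩ := exists_nat_ge (((L1 : ℝ) + 1) / ε0)
  obtain ⟨L2, hL2⟩ : ∃ L2 : ℕ, L2 = k2 + 1 := ⟨_, rfl⟩
  have hL1κ : 320 ≤ ε0 * L1 := by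
    have h1 : (k1 : ℝ) ≤ L1 := by exact_mod_cast (by omega : k1 ≤ L1)
    have h2 := hk1.trans h1
    rw [div_le_iff₀ hε00] at h2
    linarith
  have hL2κ : (L1 + 1 : ℝ) ≤ ε0 * L2 := by
    have h1 : (k2 : ℝ) ≤ L2 := by exact_mod_cast (by omega : k2 ≤ L2)
    have h2 := hk2.trans h1
    rw [div_le_iff₀ hε00] at h2
    linarith
  obtain ⟨Q2, hQ2⟩ := fixed hε00 hε01 L1 L2 (by omega) hL1κ (by omega)
  obtain ⟨Q3, hQ3⟩ := hw_of_short (L0 := L0) (L2 := 2 * L2 + 1)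
  refine ⟨1 / (256 * L2), by rw [hL2]; positivity, fun X0 => ?_⟩
  refine most_range (E := E) (L1 := L1) (L2 := L2) (Q0 := Q1 + Q2 + Q3 + X0 + 5) (fun Q0 => hE2 E (by omega) 44 (by norm_num) Q0)
    (hL2κ.trans (mul_le_mul_of_nonneg_right hε0ε (Nat.cast_nonneg _))) ?_
  intro Q hQ hNE X hX1 hX2
  obtain ⟨b, hb0, hbs, hb⟩ := hQ1 Q (by omega) hNE
  have hXN : X ≤ (4 * 1 + 1) * X ^ 2 := by
    have h1 : X ≤ X ^ 2 := Nat.le_self_pow (by norm_num) X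
    omega
  have hw := hQ3 Q (by omega) b hb0 hb ((4 * 1 + 1) * X ^ 2)
    (((Nat.pow_le_pow_right (by omega) (by omega : L0 + 6 ≤ L1)).trans hX1).trans hXN) (by
      calc (4 * 1 + 1) * X ^ 2 ≤ Q * (Q ^ L2) ^ 2 := Nat.mul_le_mul (by omega) (Nat.pow_le_pow_left hX2 2)
        _ = Q ^ (2 * L2 + 1) := by ring)
  obtain ⟨Ex, hEx1, hEx2⟩ := hQ2 Q (by omega) X hX1 hX2 b hw ε' hbs hpow hε'1
  refine ⟨?_, Ex, hEx1, fun x hx hxE => ?_⟩
  · have h3 : Q ≤ Q ^ L1 := Nat.le_self_pow (by omega) Q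
    omega
  obtain ⟨S, hS0, hS, hS2⟩ := hEx2 x hx hxE
  refine ⟨S, hS0, hS, fun u v hu hv hW => ?_⟩
  have h1 := hS2 u v hu hv hW
  refine h1.trans ?_
  have h2 : 0 ≤ ε0 * (S * (((v - u : ℤ) : ℝ) / (2 * Real.log X) ^ 2)) := (abs_nonneg _).trans h1
  have h3 : 0 ≤ S * (((v - u : ℤ) : ℝ) / (2 * Real.log X) ^ 2) := nonneg_of_mul_nonneg_right h2 hε00
  exact mul_le_mul_of_nonneg_right hε0ε h3

end Pool.Agent.Helper85.HP
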