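import Mathlib

set_option autoImplicit false

/-!
# Divided differences of integer polynomials
-/

open Finset Polynomial

namespace Pool.Agent.Helper85.HP

/-- the function is given by an integer polynomial of degree exactly `d` -/
def IsPol (d : ℕ) (G : ℤ → ℤ) : Prop := ∃ p : ℤ[X], p.natDegree = d ∧ ∀ x, G x = p.eval x

lemma diff_pol {p : ℤ[X]} {d : ℕ} (hd : p.natDegree = d + 1) {h : ℤ} (hh : h ≠ 0) :
    ∃ q : ℤ[X], q.natDegree = d ∧ ∀ x : ℤ, p.eval (x + h) - p.eval x = h * q.eval x := by
  obtain ⟨q, hq⟩ : ∃ q : ℤ[X], p.comp (X + C h) - p = q * C h := by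
    have h1 : (X + C h) - X ∣ (p.map (C : ℤ →+* ℤ[X])).eval (X + C h) - (p.map (C : ℤ →+* ℤ[X])).eval X :=
      Polynomial.sub_dvd_eval_sub _ _ _
    rw [add_sub_cancel_left, Polynomial.eval_map, Polynomial.eval_map] at h1
    obtain ⟨q, hq⟩ := h1
    refine ⟨q, ?_⟩
    have e1 : Polynomial.eval₂ (C : ℤ →+* ℤ[X]) (X + C h) p = p.comp (X + C h) := rfl
    have e2 : Polynomial.eval₂ (C : ℤ →+* ℤ[X]) X p = p := Polynomial.eval₂_C_X
    rw [e1, e2] at hq
    rw [hq, mul_comm]
  have hC : (C h : ℤ[X]) ≠ 0 := by rwa [Ne, C_eq_zero]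
  have hr : p.comp (X + C h) = Polynomial.taylor h p := rfl
  have hlead : p.coeff (d + 1) ≠ 0 := by
    rw [← hd]
    have hp : p ≠ 0 := by
      intro hc
      rw [hc] at hd
      simp at hd
    exact Polynomial.leadingCoeff_ne_zero.2 hp
  have hdeg : (p.comp (X + C h) - p).natDegree = d := by
    rw [hr]
    apply le_antisymm
    · rw [Polynomial.natDegree_le_iff_coeff_eq_zero]
      intro n hn
      rcases Nat.eq_or_lt_of_le (Nat.succ_le_of_lt hn) with h1 | h1
      · rw [Polynomial.coeff_sub, ← h1]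
        have h2 : (Polynomial.taylor h p).coeff (d + 1) = p.coeff (d + 1) := by
          have e : (Polynomial.taylor h p).leadingCoeff = p.leadingCoeff := Polynomial.leadingCoeff_taylor ..
          unfold Polynomial.leadingCoeff at e
          rwa [Polynomial.natDegree_taylor, hd] at e
        rw [Nat.succ_eq_add_one, h2, sub_self]
      · rw [Polynomial.coeff_sub, Polynomial.coeff_eq_zero_of_natDegree_lt, Polynomial.coeff_eq_zero_of_natDegree_lt, sub_zero]
        · omega
        · rw [Polynomial.natDegree_taylor]; omega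
    · apply Polynomial.le_natDegree_of_ne_zero
      rw [Polynomial.coeff_sub, Polynomial.taylor_coeff]
      have h3 : (Polynomial.hasseDeriv d p).natDegree < 2 := by
        have := Polynomial.natDegree_hasseDeriv_le p d
        omega
      rw [Polynomial.eval_eq_sum_range' h3, sum_range_succ, sum_range_one, Polynomial.hasseDeriv_coeff, Polynomial.hasseDeriv_coeff]
      simp only [zero_add, Nat.choose_self, Nat.cast_one, one_mul, pow_zero, mul_one, pow_one]
      rw [add_comm 1 d, Nat.choose_succ_self_right, add_sub_cancel_left]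
      have : (((d + 1 : ℕ) : ℤ)) ≠ 0 := by positivity
      exact mul_ne_zero (mul_ne_zero this hlead) hh
  refine ⟨q, ?_, fun x => ?_⟩
  · rw [← hdeg, hq, Polynomial.natDegree_mul_C hh]
  · have h1 := congrArg (Polynomial.eval x) hq
    rw [Polynomial.eval_sub, Polynomial.eval_comp, Polynomial.eval_add, Polynomial.eval_X, Polynomial.eval_C,
      Polynomial.eval_mul, Polynomial.eval_C] at h1
    rw [h1, mul_comm]

lemma diff_isPol {d : ℕ} {G : ℤ → ℤ} (hG : IsPol (d + 1) G) {h : ℤ} (hh : h ≠ 0) :
    ∃ G' : ℤ → ℤ, IsPol d G' ∧ ∀ x, G (x + h) - G x = h * G' x := by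
  obtain ⟨p, hp, hGp⟩ := hG
  obtain ⟨q, hq, h1⟩ := diff_pol hp hh
  exact ⟨fun x => q.eval x, ⟨q, hq, fun x => rfl⟩, fun x => by rw [hGp, hGp]; exact h1 x⟩

/-- the number of solutions of `G x = c` -/
lemma roots_le {d : ℕ} {G : ℤ → ℤ} (hG : IsPol (d + 1) G) (c : ℤ) (I : Finset ℤ) :
    (I.filter (fun x => G x = c)).card ≤ d + 1 := by
  classical
  obtain ⟨p, hp, hGp⟩ := hG
  have h0 : p - C c ≠ 0 := by
    intro h
    have : p.natDegree = 0 := by
      rw [sub_eq_zero.1 h]; exact Polynomial.natDegree_C c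
    omega
  have hsub : (I.filter (fun x => G x = c)) ⊆ (p - C c).roots.toFinset := by
    intro x hx
    rw [mem_filter, hGp] at hx
    rw [Multiset.mem_toFinset, Polynomial.mem_roots h0, Polynomial.IsRoot.def, Polynomial.eval_sub, Polynomial.eval_C, hx.2,
      sub_self]
  refine (card_le_card hsub).trans ?_
  refine (Multiset.toFinset_card_le _).trans ?_
  refine (Polynomial.card_roots' _).trans ?_
  rw [Polynomial.natDegree_sub_C, hp]

end Pool.Agent.Helper85.HP
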