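import Pool.Agent.Helper85.HP.B1

set_option autoImplicit false

/-!
# The values of iterated differences
-/

open Finset

namespace Pool.Agent.Helper85.HP

/-- the multiset of the values of the `j`-th differences -/
noncomputable def vals : ℕ → ℕ → (ℤ → ℤ) → Finset ℤ → Multiset ℤ
  | 0, _, G, I => I.val.map G
  | j + 1, P, G, I => ∑ h ∈ Ioo (-(P : ℤ)) P, vals j P (fun x => G (x + h) - G x) (I.filter (fun x => x + h ∈ I))

lemma vals_dvd {a : ℤ} (j P : ℕ) : ∀ (F : ℤ → ℤ) (I : Finset ℤ), (∀ x, a ∣ F x) → ∀ D ∈ vals j P F I, a ∣ D := by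
  induction j with
  | zero =>
    intro F I hF D hD
    obtain ⟨x, -, rfl⟩ := Multiset.mem_map.1 hD
    exact hF x
  | succ j ih =>
    intro F I hF D hD
    unfold vals at hD
    obtain ⟨h, -, hD⟩ := Multiset.mem_sum.1 hD
    exact ih _ _ (fun x => dvd_sub (hF _) (hF _)) D hD

lemma vals_abs (j P : ℕ) : ∀ (F : ℤ → ℤ) (I : Finset ℤ) (B : ℤ), (∀ x ∈ I, |F x| ≤ B) → ∀ D ∈ vals j P F I, |D| ≤ 2 ^ j * B := by
  induction j with
  | zero =>
    intro F I B hF D hD
    obtain ⟨x, hx, rfl⟩ := Multiset.mem_map.1 hD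
    rw [pow_zero, one_mul]
    exact hF x hx
  | succ j ih =>
    intro F I B hF D hD
    unfold vals at hD
    obtain ⟨h, -, hD⟩ := Multiset.mem_sum.1 hD
    have := ih _ _ (2 * B) (by
      intro x hx
      rw [mem_filter] at hx
      have h1 := hF _ hx.1
      have h2 := hF _ hx.2
      have h3 := abs_sub (F (x + h)) (F x)
      linarith) D hD
    rw [pow_succ]
    linarith

lemma card_Ioo_le (P : ℕ) : (Ioo (-(P : ℤ)) P).card ≤ 2 * P := by
  rw [Int.card_Ioo]
  omega

lemma card_vals (j P : ℕ) : ∀ (F : ℤ → ℤ) (I : Finset ℤ), (vals j P F I).card ≤ (2 * P) ^ j * I.card := by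
  induction j with
  | zero =>
    intro F I
    unfold vals
    rw [Multiset.card_map, pow_zero, one_mul]
    exact le_refl _
  | succ j ih =>
    intro F I
    unfold vals
    rw [Multiset.card_sum]
    have h1 : ∀ h ∈ Ioo (-(P : ℤ)) P, (vals j P (fun x => F (x + h) - F x) (I.filter (fun x => x + h ∈ I))).card ≤
        (2 * P) ^ j * I.card := by
      intro h _
      refine (ih _ _).trans ?_
      exact Nat.mul_le_mul_left _ (card_le_card (filter_subset _ _))
    refine (sum_le_sum h1).trans ?_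
    rw [sum_const, smul_eq_mul, pow_succ]
    calc (Ioo (-(P : ℤ)) P).card * ((2 * P) ^ j * I.card) ≤ (2 * P) * ((2 * P) ^ j * I.card) :=
          Nat.mul_le_mul_right _ (card_Ioo_le P)
      _ = _ := by ring

lemma count_base {d : ℕ} {G F : ℤ → ℤ} (hG : IsPol (d + 1) G) {t : ℤ} (ht : t ≠ 0) (hF : ∀ x, F x = t * G x) (P : ℕ) (I : Finset ℤ)
    (D : ℤ) : (vals 0 P F I).count D ≤ d + 1 := by
  classical
  unfold vals
  rw [Multiset.count_map]
  have h1 : Multiset.card (Multiset.filter (fun a => D = F a) I.val) = (I.filter (fun a => D = F a)).card := rfl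
  rw [h1]
  refine le_trans (card_le_card ?_) (roots_le hG (D / t) I)
  intro x hx
  rw [mem_filter] at hx ⊢
  refine ⟨hx.1, ?_⟩
  rw [hx.2, hF, Int.mul_ediv_cancel_left _ ht]

/-- few solutions for a value different from zero -/
lemma count_ne {D : ℤ} (hD : D ≠ 0) (P : ℕ) (j : ℕ) : ∀ (d : ℕ) (G F : ℤ → ℤ) (t : ℤ), IsPol (d + j + 1) G → t ≠ 0 → (∀ x, F x = t * G x) →
    ∀ I : Finset ℤ, (vals j P F I).count D ≤ (d + j + 1) * (2 * D.natAbs.divisors.card) ^ j := by
  classical
  induction j with
  | zero =>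
    intro d G F t hG ht hF I
    rw [pow_zero, mul_one]
    exact count_base hG ht hF P I D
  | succ j ih =>
    intro d G F t hG ht hF I
    unfold vals
    rw [Multiset.count_sum']
    obtain ⟨τ, hτ⟩ : ∃ τ : ℕ, τ = D.natAbs.divisors.card := ⟨_, rfl⟩
    rw [← hτ]
    have h1 : ∀ h ∈ Ioo (-(P : ℤ)) P, (vals j P (fun x => F (x + h) - F x) (I.filter (fun x => x + h ∈ I))).count D ≤
        if h ∣ D then (d + j + 1) * (2 * τ) ^ j else 0 := by
      intro h _
      split_ifs with hd
      · have hh : h ≠ 0 := by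
          rintro rfl
          exact hD (zero_dvd_iff.1 hd)
        obtain ⟨G', hG', h2⟩ := diff_isPol (d := d + j + 1) (by
          have e : d + j + 1 + 1 = d + (j + 1) + 1 := by ring
          rw [e]; exact hG) hh
        rw [hτ]
        refine ih d G' _ (t * h) hG' (mul_ne_zero ht hh) (fun x => ?_) _
        rw [hF, hF, ← mul_sub, h2]
        ring
      · rw [Nat.le_zero, Multiset.count_eq_zero]
        intro hmem
        apply hd
        refine vals_dvd j P _ _ (fun x => ?_) D hmem
        rcases eq_or_ne h 0 with rfl | hh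
        · rw [add_zero, sub_self]
        · obtain ⟨G', hG', h2⟩ := diff_isPol (d := d + j + 1) (by
            have e : d + j + 1 + 1 = d + (j + 1) + 1 := by ring
            rw [e]; exact hG) hh
          rw [hF, hF, ← mul_sub, h2]
          exact Dvd.intro_left (t * G' x) (by ring)
    refine (sum_le_sum h1).trans ?_
    rw [← sum_filter, sum_const, smul_eq_mul]
    have h2 : ((Ioo (-(P : ℤ)) P).filter (fun h => h ∣ D)).card ≤ 2 * τ := by
      rw [hτ]
      apply card_le_mul_card_image_of_maps_to (f := fun h : ℤ => h.natAbs)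
      · intro h hh
        rw [mem_filter] at hh
        rw [Nat.mem_divisors]
        exact ⟨Int.natAbs_dvd_natAbs.2 hh.2, Int.natAbs_ne_zero.2 hD⟩
      · intro b _
        refine (card_le_card (t := {(b : ℤ), -(b : ℤ)}) ?_).trans card_le_two
        intro h hh
        rw [mem_filter] at hh
        rw [mem_insert, mem_singleton]
        have := hh.2
        omega
    calc ((Ioo (-(P : ℤ)) P).filter (fun h => h ∣ D)).card * ((d + j + 1) * (2 * τ) ^ j) ≤
        (2 * τ) * ((d + j + 1) * (2 * τ) ^ j) := Nat.mul_le_mul_right _ h2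
      _ = (d + j + 1) * (2 * τ) ^ (j + 1) := by ring
      _ ≤ _ := Nat.mul_le_mul_right _ (by omega)

/-- the solutions for the value zero -/
lemma count_zero (P : ℕ) (j : ℕ) : ∀ (d : ℕ) (G F : ℤ → ℤ) (t : ℤ), IsPol (d + j + 1) G → t ≠ 0 → (∀ x, F x = t * G x) →
    ∀ I : Finset ℤ, I.card ≤ P → (vals j P F I).count 0 ≤ (d + 2 * j + 1) * (2 * P) ^ j := by
  classical
  induction j with
  | zero =>
    intro d G F t hG ht hF I _
    rw [pow_zero, mul_one]
    exact count_base hG ht hF P I 0
  | succ j ih =>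
    intro d G F t hG ht hF I hI
    unfold vals
    rw [Multiset.count_sum']
    have h1 : ∀ h ∈ Ioo (-(P : ℤ)) P, (vals j P (fun x => F (x + h) - F x) (I.filter (fun x => x + h ∈ I))).count 0 ≤
        (d + 2 * j + 1) * (2 * P) ^ j + if h = 0 then (2 * P) ^ j * P else 0 := by
      intro h _
      have hI' : (I.filter (fun x => x + h ∈ I)).card ≤ P := (card_le_card (filter_subset _ _)).trans hI
      split_ifs with hh
      · refine (Multiset.count_le_card _ _).trans ((card_vals j P _ _).trans ?_)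
        have := Nat.mul_le_mul_left ((2 * P) ^ j) hI'
        omega
      · obtain ⟨G', hG', h2⟩ := diff_isPol (d := d + j + 1) (by
          have e : d + j + 1 + 1 = d + (j + 1) + 1 := by ring
          rw [e]; exact hG) hh
        refine (ih d G' _ (t * h) hG' (mul_ne_zero ht hh) (fun x => ?_) _ hI').trans (Nat.le_add_right _ _)
        rw [hF, hF, ← mul_sub, h2]
        ring
    refine (sum_le_sum h1).trans ?_
    rw [sum_add_distrib, sum_const, smul_eq_mul]
    have h2 : ∑ h ∈ Ioo (-(P : ℤ)) P, (if h = 0 then (2 * P) ^ j * P else 0) ≤ (2 * P) ^ j * P := by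
      rw [sum_ite_eq']
      split_ifs
      · exact le_refl _
      · exact Nat.zero_le _
    calc _ ≤ (2 * P) * ((d + 2 * j + 1) * (2 * P) ^ j) + (2 * P) ^ j * P :=
          Nat.add_le_add (Nat.mul_le_mul_right _ (card_Ioo_le P)) h2
      _ ≤ (2 * P) * ((d + 2 * j + 1) * (2 * P) ^ j) + (2 * P) ^ j * (2 * P) :=
          Nat.add_le_add_left (Nat.mul_le_mul_left _ (by omega)) _
      _ = (d + 2 * j + 2) * (2 * P) ^ (j + 1) := by ring
      _ ≤ _ := Nat.mul_le_mul_right _ (by omega)

end Pool.Agent.Helper85.HP
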