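import Pool.Agent.Helper85.HP.A1
import Pool.Agent.Helper85.HP.B2

set_option autoImplicit false

/-!
# Weyl differencing
-/

open Finset

namespace Pool.Agent.Helper85.HP

open Pool.Agent.Helper86.PS Pool.Agent.H807R2.Dav

/-- the linear functional given by a function -/
noncomputable def lf (N : ℤ → ℝ) : Multiset ℤ →+ ℝ := Multiset.sumAddMonoidHom.comp (Multiset.mapAddMonoidHom N)

lemma lf_apply (N : ℤ → ℝ) (s : Multiset ℤ) : lf N s = (s.map N).sum := rfl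

lemma conj_ee (x : ℝ) : (starRingEnd ℂ) (ee x) = ee (-x) := by
  have h1 : ee x * ee (-x) = 1 := by rw [← ee_add]; simp [ee_zero]
  have h2 : ee x * (starRingEnd ℂ) (ee x) = 1 := by
    rw [Complex.mul_conj', norm_ee]; norm_num
  have h3 : ee x ≠ 0 := by
    intro h; rw [h, zero_mul] at h1; exact zero_ne_one h1
  exact mul_left_cancel₀ h3 (h2.trans h1.symm)

lemma sq_norm_sum (F : ℤ → ℤ) (P : ℕ) (I : Finset ℤ) (hI : ∀ x ∈ I, ∀ y ∈ I, y - x ∈ Ioo (-(P : ℤ)) P) (m : ℕ) (c : ℤ) :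
    (‖∑ x ∈ I, ee (((F x * c : ℤ) : ℝ) / m)‖ : ℂ) ^ 2 =
      ∑ h ∈ Ioo (-(P : ℤ)) P, ∑ x ∈ I.filter (fun x => x + h ∈ I), ee ((((F (x + h) - F x) * c : ℤ) : ℝ) / m) := by
  classical
  rw [← Complex.mul_conj', map_sum, sum_mul_sum, sum_comm]
  have h1 : ∀ x ∈ I, ∑ y ∈ I, ee (((F y * c : ℤ) : ℝ) / m) * (starRingEnd ℂ) (ee (((F x * c : ℤ) : ℝ) / m)) =
      ∑ h ∈ Ioo (-(P : ℤ)) P, if x + h ∈ I then ee ((((F (x + h) - F x) * c : ℤ) : ℝ) / m) else 0 := by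
    intro x hx
    rw [← sum_filter]
    apply sum_nbij' (fun y => y - x) (fun h => x + h)
    · intro y hy
      rw [mem_filter]
      exact ⟨hI x hx y hy, by rw [add_sub_cancel]; exact hy⟩
    · intro h hh
      exact (mem_filter.1 hh).2
    · intro y _; simp
    · intro h _; simp
    · intro y _
      rw [conj_ee, ← ee_add, add_sub_cancel]
      congr 1
      push_cast
      ring
  rw [sum_congr rfl h1, sum_comm]
  apply sum_congr rfl
  intro h _
  rw [sum_filter]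

/-- **Weyl differencing** with weights -/
theorem weyl {m : ℕ} (w : ℕ → ℝ) (hw : ∀ c, 0 ≤ w c) (P : ℕ) (N : ℤ → ℝ)
    (hN : ∀ D, N D = ∑ c ∈ range m, w c * (ee (((D * c : ℤ) : ℝ) / m)).re) (j : ℕ) :
    ∀ (F : ℤ → ℤ) (I : Finset ℤ), (∀ x ∈ I, ∀ y ∈ I, y - x ∈ Ioo (-(P : ℤ)) P) →
    ∑ c ∈ range m, w c * ‖∑ x ∈ I, ee (((F x * c : ℤ) : ℝ) / m)‖ ^ (2 ^ (j + 1)) ≤
      (2 * P : ℝ) ^ (2 ^ (j + 1) - (j + 1) - 1) * lf N (vals (j + 1) P F I) := by
  classical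
  induction j with
  | zero =>
    intro F I hI
    have e0 : 2 ^ (0 + 1) - (0 + 1) - 1 = 0 := by norm_num
    rw [e0, pow_zero, one_mul]
    have e1 : lf N (vals (0 + 1) P F I) = ∑ h ∈ Ioo (-(P : ℤ)) P, ∑ x ∈ I.filter (fun x => x + h ∈ I), N (F (x + h) - F x) := by
      unfold vals
      rw [map_sum]
      apply sum_congr rfl
      intro h _
      unfold vals
      rw [lf_apply, Multiset.map_map]
      rfl
    rw [e1]
    have e2 : ∀ c ∈ range m, w c * ‖∑ x ∈ I, ee (((F x * c : ℤ) : ℝ) / m)‖ ^ (2 ^ (0 + 1)) =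
        ∑ h ∈ Ioo (-(P : ℤ)) P, ∑ x ∈ I.filter (fun x => x + h ∈ I), w c * (ee ((((F (x + h) - F x) * c : ℤ) : ℝ) / m)).re := by
      intro c _
      have h1 := congrArg Complex.re (sq_norm_sum F P I hI m c)
      rw [Complex.re_sum] at h1
      have h2 : ((‖∑ x ∈ I, ee (((F x * c : ℤ) : ℝ) / m)‖ : ℂ) ^ 2).re = ‖∑ x ∈ I, ee (((F x * c : ℤ) : ℝ) / m)‖ ^ 2 := by
        rw [← Complex.ofReal_pow, Complex.ofReal_re]
      rw [h2] at h1
      have h3 : (2 : ℕ) ^ (0 + 1) = 2 := by norm_num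
      rw [h3, h1, mul_sum]
      apply sum_congr rfl
      intro h _
      rw [Complex.re_sum, mul_sum]
    rw [sum_congr rfl e2, sum_comm]
    apply le_of_eq
    apply sum_congr rfl
    intro h _
    rw [sum_comm]
    apply sum_congr rfl
    intro x _
    rw [hN]
  | succ j ih =>
    intro F I hI
    obtain ⟨r, hr⟩ : ∃ r : ℕ, r = 2 ^ (j + 1) := ⟨_, rfl⟩
    have hrj : j + 2 ≤ r := by
      rw [hr]
      have := Nat.lt_two_pow_self (n := j + 1)
      omega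
    have hr2 : 2 ^ (j + 1 + 1) = 2 * r := by rw [hr, pow_succ]; ring
    have e1 : ∀ c ∈ range m, w c * ‖∑ x ∈ I, ee (((F x * c : ℤ) : ℝ) / m)‖ ^ (2 ^ (j + 1 + 1)) ≤
        (2 * P : ℝ) ^ (r - 1) * ∑ h ∈ Ioo (-(P : ℤ)) P,
          w c * ‖∑ x ∈ I.filter (fun x => x + h ∈ I), ee ((((F (x + h) - F x) * c : ℤ) : ℝ) / m)‖ ^ r := by
      intro c _
      rw [hr2, pow_mul]
      have h1 : ‖∑ x ∈ I, ee (((F x * c : ℤ) : ℝ) / m)‖ ^ 2 ≤
          ∑ h ∈ Ioo (-(P : ℤ)) P, ‖∑ x ∈ I.filter (fun x => x + h ∈ I), ee ((((F (x + h) - F x) * c : ℤ) : ℝ) / m)‖ := by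
        have h2 := congrArg norm (sq_norm_sum F P I hI m c)
        rw [norm_pow, Complex.norm_real, norm_norm] at h2
        rw [h2]
        exact norm_sum_le _ _
      have h3 := wpow (Ioo (-(P : ℤ)) P) (fun _ => (1 : ℝ))
        (fun h => ‖∑ x ∈ I.filter (fun x => x + h ∈ I), ee ((((F (x + h) - F x) * c : ℤ) : ℝ) / m)‖)
        (fun _ _ => zero_le_one) (fun _ _ => norm_nonneg _) (r := r) (by omega)
      simp only [one_mul] at h3
      have h4 : (∑ _h ∈ Ioo (-(P : ℤ)) P, (1 : ℝ)) ≤ 2 * P := by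
        rw [sum_const, nsmul_eq_mul, mul_one]
        exact_mod_cast card_Ioo_le P
      have h5 : (∑ _h ∈ Ioo (-(P : ℤ)) P, (1 : ℝ)) ^ (r - 1) ≤ (2 * P : ℝ) ^ (r - 1) :=
        pow_le_pow_left₀ (sum_nonneg fun _ _ => zero_le_one) h4 _
      calc w c * (‖∑ x ∈ I, ee (((F x * c : ℤ) : ℝ) / m)‖ ^ 2) ^ r ≤
          w c * ((2 * P : ℝ) ^ (r - 1) * ∑ h ∈ Ioo (-(P : ℤ)) P,
            ‖∑ x ∈ I.filter (fun x => x + h ∈ I), ee ((((F (x + h) - F x) * c : ℤ) : ℝ) / m)‖ ^ r) := by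
            apply mul_le_mul_of_nonneg_left _ (hw c)
            refine (pow_le_pow_left₀ (by positivity) h1 r).trans (h3.trans ?_)
            exact mul_le_mul_of_nonneg_right h5 (sum_nonneg fun _ _ => by positivity)
        _ = _ := by
            rw [mul_sum, mul_sum, mul_sum]
            apply sum_congr rfl
            intro h _
            ring
    refine (sum_le_sum e1).trans ?_
    rw [← mul_sum, sum_comm]
    have e2 : ∀ h ∈ Ioo (-(P : ℤ)) P, ∑ c ∈ range m,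
        w c * ‖∑ x ∈ I.filter (fun x => x + h ∈ I), ee ((((F (x + h) - F x) * c : ℤ) : ℝ) / m)‖ ^ r ≤
        (2 * P : ℝ) ^ (r - (j + 1) - 1) * lf N (vals (j + 1) P (fun x => F (x + h) - F x) (I.filter (fun x => x + h ∈ I))) := by
      intro h _
      rw [hr]
      exact ih (fun x => F (x + h) - F x) (I.filter (fun x => x + h ∈ I)) (fun x hx y hy =>
        hI x (mem_filter.1 hx).1 y (mem_filter.1 hy).1)
    refine (mul_le_mul_of_nonneg_left (sum_le_sum e2) (by positivity)).trans (le_of_eq ?_)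
    rw [← mul_sum, ← mul_assoc, ← pow_add]
    have e3 : r - 1 + (r - (j + 1) - 1) = 2 ^ (j + 1 + 1) - (j + 1 + 1) - 1 := by rw [hr2]; omega
    rw [e3]
    congr 1
    rw [show vals (j + 1 + 1) P F I = ∑ h ∈ Ioo (-(P : ℤ)) P, vals (j + 1) P (fun x => F (x + h) - F x)
      (I.filter (fun x => x + h ∈ I)) from rfl, map_sum]

end Pool.Agent.Helper85.HP
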