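import Pool.Agent.Helper85.HP.B3
import Pool.Agent.H510R2.Div

set_option autoImplicit false

/-!
# Hua's inequality
-/

open Finset

namespace Pool.Agent.Helper85.HP

open Pool.Agent.Helper86.PS Pool.Agent.H807R2.Dav

/-- the number of the solutions of a congruence -/
def cnt (X : Finset ℤ) (F : ℤ → ℤ) (r m : ℕ) (D : ℤ) : ℕ :=
  ((Fintype.piFinset (fun _ : Fin r => X) ×ˢ Fintype.piFinset (fun _ : Fin r => X)).filter
    (fun p => (m : ℤ) ∣ (∑ i, F (p.1 i) - ∑ i, F (p.2 i) + D))).card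

lemma pow_expand (X : Finset ℤ) (F : ℤ → ℤ) (r m c : ℕ) :
    (∑ x ∈ X, ee (((F x * c : ℤ) : ℝ) / m)) ^ r =
      ∑ p ∈ Fintype.piFinset (fun _ : Fin r => X), ee ((((∑ i, F (p i)) * c : ℤ) : ℝ) / m) := by
  classical
  have e1 : (∑ x ∈ X, ee (((F x * c : ℤ) : ℝ) / m)) ^ r =
      ∑ p ∈ Fintype.piFinset (fun _ : Fin r => X), ∏ i, ee (((F (p i) * c : ℤ) : ℝ) / m) := by
    rw [← Finset.prod_univ_sum (fun _ : Fin r => X) (fun _ x => ee (((F x * c : ℤ) : ℝ) / m))]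
    simp
  rw [e1]
  apply sum_congr rfl
  intro p _
  rw [ee_prod]
  congr 1
  rw [← sum_div]
  push_cast
  rw [sum_mul]

lemma cnt_eq (X : Finset ℤ) (F : ℤ → ℤ) (r : ℕ) {m : ℕ} (hm : 0 < m) (D : ℤ) :
    ∑ c ∈ range m, ‖∑ x ∈ X, ee (((F x * c : ℤ) : ℝ) / m)‖ ^ (2 * r) * (ee (((D * c : ℤ) : ℝ) / m)).re = m * cnt X F r m D := by
  classical
  obtain ⟨P, hP⟩ : ∃ P : Finset (Fin r → ℤ), P = Fintype.piFinset (fun _ : Fin r => X) := ⟨_, rfl⟩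
  have h1 : ∀ c ∈ range m, ‖∑ x ∈ X, ee (((F x * c : ℤ) : ℝ) / m)‖ ^ (2 * r) * (ee (((D * c : ℤ) : ℝ) / m)).re =
      (∑ p ∈ P ×ˢ P, ee ((((∑ i, F (p.1 i) - ∑ i, F (p.2 i) + D) * c : ℤ) : ℝ) / m)).re := by
    intro c _
    have e1 : ((‖∑ x ∈ X, ee (((F x * c : ℤ) : ℝ) / m)‖ ^ (2 * r) : ℝ) : ℂ) * ee (((D * c : ℤ) : ℝ) / m) =
        ∑ p ∈ P ×ˢ P, ee ((((∑ i, F (p.1 i) - ∑ i, F (p.2 i) + D) * c : ℤ) : ℝ) / m) := by
      push_cast
      rw [pow_mul, show (∑ x ∈ X, ee ((F x : ℝ) * c / m)) = ∑ x ∈ X, ee (((F x * c : ℤ) : ℝ) / m) by push_cast; rfl,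
        ← Complex.mul_conj', mul_pow, ← map_pow, pow_expand, ← hP, map_sum, sum_mul_sum, sum_mul, sum_product]
      apply sum_congr rfl
      intro p _
      rw [sum_mul]
      apply sum_congr rfl
      intro q _
      rw [conj_ee, ← ee_add, ← ee_add]
      congr 1
      push_cast
      ring
    rw [← e1, Complex.re_ofReal_mul]
  rw [sum_congr rfl h1, ← Complex.re_sum, sum_comm]
  have h2 : ∀ p ∈ P ×ˢ P, ∑ c ∈ range m, ee ((((∑ i, F (p.1 i) - ∑ i, F (p.2 i) + D) * c : ℤ) : ℝ) / m) =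
      if (m : ℤ) ∣ (∑ i, F (p.1 i) - ∑ i, F (p.2 i) + D) then (m : ℂ) else 0 := by
    intro p _
    rw [ortho hm]
  rw [sum_congr rfl h2, ← sum_filter, sum_const, nsmul_eq_mul, ← Nat.cast_mul, Complex.natCast_re]
  unfold cnt
  rw [hP]
  push_cast
  ring

lemma nrg_le_cnt (X : Finset ℤ) (F : ℤ → ℤ) (r m : ℕ) : nrg X F r ≤ cnt X F r m 0 := by
  unfold nrg cnt
  apply card_le_card
  intro p hp
  rw [mem_filter] at hp ⊢
  refine ⟨hp.1, ?_⟩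
  rw [hp.2, sub_self, add_zero]
  exact dvd_zero _

lemma sum_le_B {X : Finset ℤ} {F : ℤ → ℤ} {r B : ℕ} (hB : ∀ x ∈ X, |F x| ≤ B) {p : Fin r → ℤ}
    (hp : p ∈ Fintype.piFinset (fun _ : Fin r => X)) : |∑ i, F (p i)| ≤ r * B := by
  rw [Fintype.mem_piFinset] at hp
  refine (abs_sum_le_sum_abs _ _).trans ?_
  refine (sum_le_sum (fun i _ => hB (p i) (hp i))).trans ?_
  rw [sum_const, card_univ, Fintype.card_fin, nsmul_eq_mul]

lemma cnt_le_nrg {X : Finset ℤ} {F : ℤ → ℤ} {r m B : ℕ} (hB : ∀ x ∈ X, |F x| ≤ B) (hm : 2 * r * B < m) :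
    cnt X F r m 0 ≤ nrg X F r := by
  unfold nrg cnt
  apply card_le_card
  intro p hp
  rw [mem_filter] at hp ⊢
  refine ⟨hp.1, ?_⟩
  rw [mem_product] at hp
  have h1 := sum_le_B hB hp.1.1
  have h2 := sum_le_B hB hp.1.2
  have h3 := abs_sub (∑ i, F (p.1 i)) (∑ i, F (p.2 i))
  have h4 := hp.2
  rw [add_zero] at h4
  have h5 : ((2 * r * B : ℕ) : ℤ) < m := by exact_mod_cast hm
  push_cast at h5
  have := Int.eq_zero_of_abs_lt_dvd h4 (by linarith)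
  linarith

lemma sum_cnt (X : Finset ℤ) (F : ℤ → ℤ) (r m : ℕ) (T : Finset ℤ) (hT : ∀ D ∈ T, ∀ D' ∈ T, (m : ℤ) ∣ D - D' → D = D') :
    ∑ D ∈ T, cnt X F r m D ≤ X.card ^ (2 * r) := by
  classical
  unfold cnt
  simp only [card_filter]
  rw [sum_comm]
  have h1 : ∀ p ∈ Fintype.piFinset (fun _ : Fin r => X) ×ˢ Fintype.piFinset (fun _ : Fin r => X),
      ∑ D ∈ T, (if (m : ℤ) ∣ (∑ i, F (p.1 i) - ∑ i, F (p.2 i) + D) then 1 else 0) ≤ 1 := by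
    intro p _
    rw [← card_filter, card_le_one]
    intro D hD D' hD'
    rw [mem_filter] at hD hD'
    apply hT D hD.1 D' hD'.1
    have := dvd_sub hD.2 hD'.2
    rwa [add_sub_add_left_eq_sub] at this
  refine (sum_le_sum h1).trans ?_
  rw [sum_const, smul_eq_mul, mul_one, card_product, Fintype.card_piFinset, prod_const, card_univ, Fintype.card_fin,
    two_mul, pow_add]

lemma lf_le {N : ℤ → ℝ} (hN : ∀ D, 0 ≤ N D) (s : Multiset ℤ) {c0 c1 : ℝ} (h0 : (s.count 0 : ℝ) ≤ c0) (hc1 : 0 ≤ c1)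
    (h1 : ∀ D ∈ s, D ≠ 0 → (s.count D : ℝ) ≤ c1) : lf N s ≤ c0 * N 0 + c1 * ∑ D ∈ s.toFinset, N D := by
  classical
  rw [lf_apply, Finset.sum_multiset_map_count, mul_sum]
  have hc0 : 0 ≤ c0 := (Nat.cast_nonneg _).trans h0
  have h2 : ∀ D ∈ s.toFinset, s.count D • N D ≤ (if D = 0 then c0 * N 0 else 0) + c1 * N D := by
    intro D hD
    rw [nsmul_eq_mul]
    split_ifs with h
    · rw [h]
      have := mul_le_mul_of_nonneg_right h0 (hN 0)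
      have h3 := mul_nonneg hc1 (hN 0)
      linarith
    · rw [zero_add]
      exact mul_le_mul_of_nonneg_right (h1 D (Multiset.mem_toFinset.1 hD) h) (hN D)
  refine (sum_le_sum h2).trans ?_
  rw [sum_add_distrib]
  apply add_le_add _ (le_refl _)
  rw [sum_ite_eq']
  split_ifs
  · exact le_refl _
  · exact mul_nonneg hc0 (hN 0)

/-- the inductive step of Hua's inequality -/
theorem hua_step {d j : ℕ} {F : ℤ → ℤ} (hF : IsPol (d + (j + 1) + 1) F) {P : ℕ} {I : Finset ℤ}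
    (hI : ∀ x ∈ I, ∀ y ∈ I, y - x ∈ Ioo (-(P : ℤ)) P) (hIc : I.card ≤ P) {B : ℕ} (hB : ∀ x ∈ I, |F x| ≤ B) {T : ℝ} (hT0 : 0 ≤ T)
    (hT : ∀ D : ℤ, D ≠ 0 → |D| ≤ 2 ^ (j + 1) * B → (D.natAbs.divisors.card : ℝ) ≤ T) :
    (nrg I F (2 ^ (j + 1)) : ℝ) ≤ (2 * P : ℝ) ^ (2 ^ (j + 1) - (j + 1) - 1) *
      ((d + 2 * (j + 1) + 1) * (2 * P) ^ (j + 1) * nrg I F (2 ^ j) + (d + (j + 1) + 1) * (2 * T) ^ (j + 1) * P ^ (2 ^ (j + 1))) := by
  classical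
  obtain ⟨m, hm⟩ : ∃ m : ℕ, m = 1 + 2 * (2 ^ (j + 1) * B) := ⟨_, rfl⟩
  have hm0 : 0 < m := by omega
  have hmr : (0 : ℝ) < m := by exact_mod_cast hm0
  obtain ⟨r, hr⟩ : ∃ r : ℕ, r = 2 ^ j := ⟨_, rfl⟩
  have hr2 : 2 ^ (j + 1) = 2 * r := by rw [hr, pow_succ]; ring
  obtain ⟨s, hs⟩ : ∃ s : Multiset ℤ, s = vals (j + 1) P F I := ⟨_, rfl⟩
  obtain ⟨N, hN⟩ : ∃ N : ℤ → ℝ, N = fun D => m * (cnt I F r m D : ℝ) := ⟨_, rfl⟩
  have hN0 : ∀ D, 0 ≤ N D := fun D => by rw [hN]; positivity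
  have h1 := weyl (m := m) (fun c => ‖∑ x ∈ I, ee (((F x * c : ℤ) : ℝ) / m)‖ ^ (2 * r)) (fun c => by positivity) P N
    (fun D => by rw [hN]; exact (cnt_eq I F r hm0 D).symm) j F I hI
  rw [← hs] at h1
  have h2 : (m : ℝ) * nrg I F (2 ^ (j + 1)) ≤
      ∑ c ∈ range m, ‖∑ x ∈ I, ee (((F x * c : ℤ) : ℝ) / m)‖ ^ (2 * r) * ‖∑ x ∈ I, ee (((F x * c : ℤ) : ℝ) / m)‖ ^ (2 ^ (j + 1)) := by
    have e1 := cnt_eq I F (2 ^ (j + 1)) hm0 0
    have e2 : (nrg I F (2 ^ (j + 1)) : ℝ) ≤ cnt I F (2 ^ (j + 1)) m 0 := by exact_mod_cast nrg_le_cnt I F _ m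
    refine (mul_le_mul_of_nonneg_left e2 hmr.le).trans (le_of_eq ?_)
    rw [← e1]
    apply sum_congr rfl
    intro c _
    rw [zero_mul, Int.cast_zero, zero_div, ee_zero, Complex.one_re, mul_one, hr2, ← pow_add]
    congr 1
    omega
  have h3 := h2.trans h1
  have hc0 : (s.count 0 : ℝ) ≤ (d + 2 * (j + 1) + 1) * (2 * P) ^ (j + 1) := by
    have := count_zero P (j + 1) d F F 1 hF one_ne_zero (fun x => (one_mul _).symm) I hIc
    rw [hs]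
    exact_mod_cast this
  have hc1 : ∀ D ∈ s, D ≠ 0 → (s.count D : ℝ) ≤ (d + (j + 1) + 1) * (2 * T) ^ (j + 1) := by
    intro D hD hD0
    have e1 := count_ne hD0 P (j + 1) d F F 1 hF one_ne_zero (fun x => (one_mul _).symm) I
    rw [← hs] at e1
    have e2 : (s.count D : ℝ) ≤ ((d + (j + 1) + 1) * (2 * D.natAbs.divisors.card) ^ (j + 1) : ℝ) := by exact_mod_cast e1
    refine e2.trans ?_
    have e3 := hT D hD0 (by
      rw [hs] at hD
      exact vals_abs (j + 1) P F I B hB D hD)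
    have e4 : (2 * D.natAbs.divisors.card : ℝ) ^ (j + 1) ≤ (2 * T) ^ (j + 1) :=
      pow_le_pow_left₀ (by positivity) (by linarith) _
    exact mul_le_mul_of_nonneg_left e4 (by positivity)
  have h4 := lf_le hN0 s hc0 (by positivity) hc1
  have h5 : N 0 ≤ m * nrg I F (2 ^ j) := by
    rw [hN]
    simp only
    rw [← hr]
    apply mul_le_mul_of_nonneg_left _ hmr.le
    have := cnt_le_nrg (r := r) (m := m) hB (by rw [← hr2, hm]; omega)
    exact_mod_cast this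
  have h6 : ∑ D ∈ s.toFinset, N D ≤ m * P ^ (2 ^ (j + 1)) := by
    rw [hN, ← mul_sum]
    apply mul_le_mul_of_nonneg_left _ hmr.le
    have e1 := sum_cnt I F r m s.toFinset (by
      intro D hD D' hD' hd
      rw [Multiset.mem_toFinset, hs] at hD hD'
      have a1 := vals_abs (j + 1) P F I B hB D hD
      have a2 := vals_abs (j + 1) P F I B hB D' hD'
      have a3 := abs_sub D D'
      have a4 : (m : ℤ) = 1 + 2 * (2 ^ (j + 1) * B) := by rw [hm]; push_cast; ring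
      have := Int.eq_zero_of_abs_lt_dvd hd (by linarith)
      linarith)
    rw [← hr2] at e1
    have e2 : (∑ D ∈ s.toFinset, (cnt I F r m D : ℝ)) ≤ ((I.card ^ (2 ^ (j + 1)) : ℕ) : ℝ) := by exact_mod_cast e1
    refine e2.trans ?_
    exact_mod_cast Nat.pow_le_pow_left hIc _
  have h7 : (m : ℝ) * nrg I F (2 ^ (j + 1)) ≤ m * ((2 * P : ℝ) ^ (2 ^ (j + 1) - (j + 1) - 1) *
      ((d + 2 * (j + 1) + 1) * (2 * P) ^ (j + 1) * nrg I F (2 ^ j) + (d + (j + 1) + 1) * (2 * T) ^ (j + 1) * P ^ (2 ^ (j + 1)))) := by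
    refine h3.trans ?_
    have e1 : lf N s ≤ m * ((d + 2 * (j + 1) + 1) * (2 * P) ^ (j + 1) * nrg I F (2 ^ j) +
        (d + (j + 1) + 1) * (2 * T) ^ (j + 1) * P ^ (2 ^ (j + 1))) := by
      refine h4.trans ?_
      calc _ ≤ ((d + 2 * (j + 1) + 1) * (2 * P) ^ (j + 1)) * (m * nrg I F (2 ^ j) : ℝ) +
            ((d + (j + 1) + 1) * (2 * T) ^ (j + 1)) * (m * P ^ (2 ^ (j + 1))) :=
            add_le_add (mul_le_mul_of_nonneg_left h5 (by positivity)) (mul_le_mul_of_nonneg_left h6 (by positivity))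
        _ = _ := by ring
    calc _ ≤ (2 * P : ℝ) ^ (2 ^ (j + 1) - (j + 1) - 1) * (m * ((d + 2 * (j + 1) + 1) * (2 * P) ^ (j + 1) * nrg I F (2 ^ j) +
        (d + (j + 1) + 1) * (2 * T) ^ (j + 1) * P ^ (2 ^ (j + 1)))) := mul_le_mul_of_nonneg_left e1 (by positivity)
      _ = _ := by ring
  exact le_of_mul_le_mul_left h7 hmr

end Pool.Agent.Helper85.HP
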