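import Pool.Agent.Helper85.HP.A1

set_option autoImplicit false

/-!
# Replacement over product sets of small energy
-/

open Finset

namespace Pool.Agent.Helper85.HP

open Pool.Agent.Helper86.PS Pool.Agent.H807R2.Dav

lemma omit1_norm {s : ℕ} {F1 F2 : ℤ → ℂ} {V : ℝ} (hV : 1 ≤ V) (hV1 : ∀ x, ‖F1 x‖ ≤ V) (hV2 : ∀ x, ‖F2 x‖ ≤ V)
    (a h : Fin s → ℤ) (k : Fin s) (n : ℤ) : ‖omit1 F1 F2 a h k n‖ ≤ V ^ s := by
  unfold omit1
  rw [norm_prod]
  calc ∏ i ∈ univ.erase k, ‖if (i : ℕ) < k then F1 (a i * n + h i) else F2 (a i * n + h i)‖ ≤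
      ∏ i ∈ univ.erase k, V := by
        apply prod_le_prod
        · intro _ _; positivity
        · intro i _
          split_ifs
          · exact hV1 _
          · exact hV2 _
    _ = V ^ (univ.erase k).card := by rw [prod_const]
    _ ≤ V ^ s := by
      apply pow_le_pow_right₀ hV
      rw [card_erase_of_mem (mem_univ k), card_univ, Fintype.card_fin]
      omega

/-- the telescoping sum -/
lemma tele {s : ℕ} (F1 F2 : ℤ → ℂ) (a h : Fin s → ℤ) (I : Finset ℤ) :
    ∑ n ∈ I, (∏ i, F1 (a i * n + h i) - ∏ i, F2 (a i * n + h i)) =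
      ∑ k : Fin s, ∑ n ∈ I, omit1 F1 F2 a h k n * (F1 (a k * n + h k) - F2 (a k * n + h k)) := by
  rw [sum_comm]
  apply sum_congr rfl
  intro n _
  have e2 : ∑ k : Fin s, omit1 F1 F2 a h k n * (F1 (a k * n + h k) - F2 (a k * n + h k)) =
      ∑ k ∈ range s, (hyb F1 F2 a h (k + 1) n - hyb F1 F2 a h k n) := by
    rw [← Fin.sum_univ_eq_sum_range (fun k => hyb F1 F2 a h (k + 1) n - hyb F1 F2 a h k n) s]
    apply sum_congr rfl
    intro k _
    rw [hyb_diff]
  rw [e2, sum_range_sub (fun k => hyb F1 F2 a h k n)]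
  unfold hyb
  congr 1
  apply prod_congr rfl
  intro i _
  rw [if_pos i.2]

/-- counting by slices -/
lemma card_slices {s : ℕ} (X : Fin s → Finset ℤ) (k : Fin s) (Y : Finset (Fin s → ℤ)) (hY : Y ⊆ Fintype.piFinset X) {b : ℝ}
    (hb : 0 ≤ b) (hs : ∀ x : Fin s → ℤ, ((((X k).filter (fun t => Function.update x k t ∈ Y)).card : ℕ) : ℝ) ≤ b) :
    (Y.card : ℝ) ≤ b * ∏ i ∈ univ.erase k, ((X i).card : ℝ) := by
  classical
  have h1 : Y.card ≤ ⌊b⌋₊ * (Fintype.piFinset (Function.update X k {0})).card := by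
    apply card_le_mul_card_image_of_maps_to (f := fun x => Function.update x k 0)
    · intro x hx
      have hx' := Fintype.mem_piFinset.1 (hY hx)
      rw [Fintype.mem_piFinset]
      intro i
      by_cases h : i = k
      · subst h; rw [Function.update_self, Function.update_self]; exact mem_singleton_self _
      · rw [Function.update_of_ne h, Function.update_of_ne h]; exact hx' i
    · intro z _
      apply Nat.le_floor
      refine le_trans ?_ (hs z)
      have h2 : (Y.filter (fun x => Function.update x k 0 = z)).card ≤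
          ((X k).filter (fun t => Function.update z k t ∈ Y)).card := by
        have hup : ∀ x : Fin s → ℤ, Function.update x k 0 = z → Function.update z k (x k) = x := by
          intro x hx
          rw [← hx, Function.update_idem, Function.update_eq_self]
        apply card_le_card_of_injOn (fun x => x k)
        · intro x hx
          rw [mem_coe, mem_filter] at hx
          rw [mem_coe, mem_filter, hup x hx.2]
          exact ⟨Fintype.mem_piFinset.1 (hY hx.1) k, hx.1⟩
        · intro x hx y hy hxy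
          rw [mem_coe, mem_filter] at hx hy
          simp only at hxy
          rw [← hup x hx.2, ← hup y hy.2, hxy]
      exact_mod_cast h2
  have h2 : (Fintype.piFinset (Function.update X k {0})).card = ∏ i ∈ univ.erase k, (X i).card := by
    rw [Fintype.card_piFinset, ← mul_prod_erase univ _ (mem_univ k), Function.update_self, card_singleton, one_mul]
    apply prod_congr rfl
    intro i hi
    rw [Function.update_of_ne (ne_of_mem_erase hi)]
  rw [h2] at h1
  have h3 : (Y.card : ℝ) ≤ (⌊b⌋₊ : ℝ) * ∏ i ∈ univ.erase k, ((X i).card : ℝ) := by exact_mod_cast h1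
  refine h3.trans ?_
  exact mul_le_mul_of_nonneg_right (Nat.floor_le hb) (prod_nonneg fun _ _ => Nat.cast_nonneg _)

/-- the number of the points for which the replacement fails -/
theorem hyb_count {s : ℕ} {F1 F2 : ℤ → ℂ} {S : Finset ℤ} (h1 : SF F1 S) (h2 : SF F2 S) {σ V : ℝ}
    (hσ : ∀ θ, ‖FT F1 θ - FT F2 θ‖ ≤ σ) (hV : 1 ≤ V) (hV1 : ∀ x, ‖F1 x‖ ≤ V) (hV2 : ∀ x, ‖F2 x‖ ≤ V)
    {a : Fin s → ℤ} (ha : ∀ i, a i ≠ 0) (I : Finset ℤ) (X : Fin s → Finset ℤ) (f : Fin s → ℤ → ℤ) (r : Fin s → ℕ)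
    (hr : ∀ i, 1 ≤ r i) {l : ℝ} (hl : 0 < l) {b : Fin s → ℝ} (hb0 : ∀ i, 0 ≤ b i)
    (hb : ∀ i, (I.card * (V ^ s) ^ 2) ^ (r i) * ((S.card * (2 * V) ^ 2) ^ (r i - 1) * (σ ^ 2 * nrg (X i) (f i) (r i))) ≤
      (l * b i) ^ (2 * r i)) (Y : Finset (Fin s → ℤ)) (hY : Y ⊆ Fintype.piFinset X)
    (hYl : ∀ x ∈ Y, s * l < ‖∑ n ∈ I, (∏ i, F1 (a i * n + f i (x i)) - ∏ i, F2 (a i * n + f i (x i)))‖) :
    (Y.card : ℝ) ≤ ∑ k, b k * ∏ i ∈ univ.erase k, ((X i).card : ℝ) := by
  classical
  obtain ⟨D, hD⟩ : ∃ D : ℤ → ℂ, D = fun n => F1 n - F2 n := ⟨_, rfl⟩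
  have hDSF : SF D S := by
    intro n hn
    rw [hD]
    simp only
    rw [h1 n hn, h2 n hn, sub_zero]
  have hDσ : ∀ θ, ‖FT D θ‖ ≤ σ := by
    intro θ
    rw [hD, FT_sub h1 h2]
    exact hσ θ
  have hDV : ∀ n, ‖D n‖ ≤ 2 * V := by
    intro n
    rw [hD]
    refine (norm_sub_le _ _).trans ?_
    have := hV1 n
    have := hV2 n
    linarith
  obtain ⟨Yk, hYk⟩ : ∃ Yk : Fin s → Finset (Fin s → ℤ), Yk = fun k => Y.filter (fun x =>
    l ≤ ‖∑ n ∈ I, omit1 F1 F2 a (fun i => f i (x i)) k n * D (a k * n + f k (x k))‖) := ⟨_, rfl⟩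
  have hsub : Y ⊆ univ.biUnion Yk := by
    intro x hx
    by_contra hc
    rw [mem_biUnion] at hc
    push Not at hc
    have h3 := hYl x hx
    rw [tele F1 F2 a (fun i => f i (x i)) I] at h3
    have h4 : ∀ k ∈ (univ : Finset (Fin s)), ‖∑ n ∈ I, omit1 F1 F2 a (fun i => f i (x i)) k n *
        (F1 (a k * n + f k (x k)) - F2 (a k * n + f k (x k)))‖ ≤ l := by
      intro k hk
      have h5 := hc k hk
      rw [hYk, mem_filter] at h5
      push Not at h5
      have h6 := h5 hx
      rw [hD] at h6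
      exact h6.le
    have h5 := (norm_sum_le _ _).trans (sum_le_sum h4)
    rw [sum_const, card_univ, Fintype.card_fin, nsmul_eq_mul] at h5
    linarith
  have hcard : (Y.card : ℝ) ≤ ∑ k, ((Yk k).card : ℝ) := by
    exact_mod_cast (card_le_card hsub).trans card_biUnion_le
  refine hcard.trans (sum_le_sum fun k _ => ?_)
  apply card_slices X k (Yk k) (by rw [hYk]; exact (filter_subset _ _).trans hY) (hb0 k)
  intro x
  obtain ⟨Z, hZ⟩ : ∃ Z : Finset ℤ, Z = (X k).filter (fun t => Function.update x k t ∈ Yk k) := ⟨_, rfl⟩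
  rw [← hZ]
  have h3 := count_bad (X k) (f k) hDSF hDσ (hr k) (ha k) I (fun n => omit1 F1 F2 a (fun i => f i (x i)) k n) Z
    (by rw [hZ]; exact filter_subset _ _) hl (by
      intro t ht
      rw [hZ, mem_filter, hYk, mem_filter] at ht
      refine ht.2.2.trans (le_of_eq ?_)
      congr 1
      apply sum_congr rfl
      intro n _
      rw [Function.update_self]
      congr 1
      unfold omit1
      apply prod_congr rfl
      intro i hi
      have e := Function.update_of_ne (ne_of_mem_erase hi) t x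
      simp only [e])
  have h4 : ∑ n ∈ I, ‖omit1 F1 F2 a (fun i => f i (x i)) k n‖ ^ 2 ≤ I.card * (V ^ s) ^ 2 := by
    calc _ ≤ ∑ n ∈ I, (V ^ s) ^ 2 :=
          sum_le_sum fun n _ => pow_le_pow_left₀ (norm_nonneg _) (omit1_norm hV hV1 hV2 _ _ k n) 2
      _ = _ := by rw [sum_const, nsmul_eq_mul]
  have h5 : ∑ n ∈ S, ‖D n‖ ^ 2 ≤ S.card * (2 * V) ^ 2 := by
    calc _ ≤ ∑ n ∈ S, (2 * V) ^ 2 := sum_le_sum fun n _ => pow_le_pow_left₀ (norm_nonneg _) (hDV n) 2
      _ = _ := by rw [sum_const, nsmul_eq_mul]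
  have h6 : (l * Z.card) ^ (2 * r k) ≤ (l * b k) ^ (2 * r k) := by
    refine h3.trans (le_trans ?_ (hb k))
    apply mul_le_mul
    · exact pow_le_pow_left₀ (sum_nonneg fun _ _ => by positivity) h4 _
    · apply mul_le_mul_of_nonneg_right _ (by positivity)
      exact pow_le_pow_left₀ (sum_nonneg fun _ _ => by positivity) h5 _
    · positivity
    · positivity
  have h7 : l * Z.card ≤ l * b k := le_of_pow_le_pow_left₀ (by have := hr k; omega) (mul_nonneg hl.le (hb0 k)) h6
  exact le_of_mul_le_mul_left h7 hl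

end Pool.Agent.Helper85.HP
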