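import Pool.Agent.Helper85.HP.A3
import Pool.Agent.Helper85.HP.A5
import Pool.Agent.Helper85.HP.B5
import Pool.Agent.Helper85.HP.C1

set_option autoImplicit false

/-!
# Replacement along integer polynomials
-/

open Finset Filter Topology

namespace Pool.Agent.Helper85.HP

open Pool.Agent.Helper86.PS Pool.Agent.H807R2.Dav

/-- Hua's inequality for all degrees up to `K` -/
theorem hua_all (K : ℕ) {η : ℝ} (hη : 0 < η) : ∃ C : ℝ, 1 ≤ C ∧ ∀ k : ℕ, 1 ≤ k → k ≤ K → ∀ F : ℤ → ℤ, IsPol k F → ∀ P : ℕ,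
    1 ≤ P → ∀ B : ℕ, 1 ≤ B → (∀ x ∈ Ico (0 : ℤ) P, |F x| ≤ B) →
    (nrg (Ico (0 : ℤ) P) F (2 ^ (k - 1)) : ℝ) ≤ C * (B : ℝ) ^ η * (P : ℝ) ^ (2 ^ k - k) := by
  have h1 : ∀ k : ℕ, ∃ C : ℝ, 1 ≤ C ∧ (1 ≤ k → ∀ F : ℤ → ℤ, IsPol k F → ∀ P : ℕ, 1 ≤ P →
      ∀ B : ℕ, 1 ≤ B → (∀ x ∈ Ico (0 : ℤ) P, |F x| ≤ B) →
      (nrg (Ico (0 : ℤ) P) F (2 ^ (k - 1)) : ℝ) ≤ C * (B : ℝ) ^ η * (P : ℝ) ^ (2 ^ k - k)) := by
    intro k
    rcases Nat.lt_or_ge k 1 with h | h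
    · exact ⟨1, le_refl _, fun h' => absurd h' (by omega)⟩
    · obtain ⟨C, hC, hC2⟩ := hua_pol k h hη
      refine ⟨C, hC, fun _ F hF P hP B hB hFB => ?_⟩
      apply hC2 F hF P hP (Ico (0 : ℤ) P) _ _ B hB hFB
      · intro x hx y hy
        rw [mem_Ico] at hx hy
        rw [mem_Ioo]
        constructor <;> linarith [hx.1, hx.2, hy.1, hy.2]
      · rw [Int.card_Ico]; omega
  choose C hC1 hC2 using h1
  have hC0 : ∀ k, 0 ≤ C k := fun k => by linarith [hC1 k]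
  refine ⟨∑ k ∈ range (K + 1), C k, ?_, ?_⟩
  · exact (hC1 0).trans (single_le_sum (f := C) (fun k _ => hC0 k) (mem_range.2 (by omega)))
  · intro k hk hkK F hF P hP B hB hFB
    refine (hC2 k hk F hF P hP B hB hFB).trans ?_
    have h2 : C k ≤ ∑ k ∈ range (K + 1), C k := single_le_sum (f := C) (fun k _ => hC0 k) (mem_range.2 (by omega))
    exact mul_le_mul_of_nonneg_right (mul_le_mul_of_nonneg_right h2 (by positivity)) (by positivity)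

/-- the numbers in one step -/
lemma num_step {Ic Sc N P q C M0 w nn : ℝ} {s r c E' : ℕ} (hr : 1 ≤ r) (hs : 1 ≤ s) (hN : 0 < N) (hP : 0 ≤ P) (hq : 1 ≤ q) (hC : 1 ≤ C)
    (hM0 : 1 ≤ M0) (hI0 : 0 ≤ Ic) (hS0 : 0 ≤ Sc) (hI : Ic ≤ 8 * N) (hS : Sc ≤ 4 * (M0 * N)) (hnn0 : 0 ≤ nn)
    (hnn : N * nn ≤ C * q ^ 2 * P ^ (2 * r)) (hw : w ^ 2 * q ^ E' = 1) (hE : 1 + 2 * r * (s + c + 6) ≤ E')
    (hbig : (s : ℝ) ^ (2 * r) * ((8 * 4 ^ s) ^ r * (64 * M0) ^ r * 4 * M0 ^ 2 * C) ≤ q) :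
    (Ic * ((2 * q) ^ s) ^ 2) ^ r * ((Sc * (2 * (2 * q)) ^ 2) ^ (r - 1) * ((2 * (M0 * N * w)) ^ 2 * nn)) ≤
      (N / (s * q ^ 4) * (P / q ^ (c + 1))) ^ (2 * r) := by
  obtain ⟨t, rfl⟩ : ∃ t, r = t + 1 := ⟨r - 1, by omega⟩
  have hq0 : 0 < q := by linarith
  have hs0 : (0 : ℝ) < s := by exact_mod_cast hs
  have hw0 : 0 ≤ w ^ 2 := sq_nonneg w
  rw [Nat.add_sub_cancel]
  have a1 : (Ic * ((2 * q) ^ s) ^ 2) ^ (t + 1) ≤ (8 * 4 ^ s) ^ (t + 1) * (N ^ (t + 1) * q ^ (2 * s * (t + 1))) := by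
    have e1 : (8 * 4 ^ s) ^ (t + 1) * (N ^ (t + 1) * q ^ (2 * s * (t + 1))) = (8 * N * ((2 * q) ^ s) ^ 2) ^ (t + 1) := by
      have : ((2 * q) ^ s) ^ 2 = 4 ^ s * q ^ (2 * s) := by
        rw [← pow_mul, mul_comm s 2, pow_mul, pow_mul, ← mul_pow]
        congr 1
        ring
      rw [this, pow_mul q (2 * s) (t + 1), ← mul_pow N, ← mul_pow (8 * 4 ^ s)]
      congr 1
      ring
    rw [e1]
    apply pow_le_pow_left₀ (by positivity)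
    exact mul_le_mul_of_nonneg_right hI (by positivity)
  have a2 : (Sc * (2 * (2 * q)) ^ 2) ^ t ≤ (64 * M0) ^ (t + 1) * (N ^ t * q ^ (2 * t)) := by
    have e1 : (64 * M0) ^ t * (N ^ t * q ^ (2 * t)) = (4 * (M0 * N) * (2 * (2 * q)) ^ 2) ^ t := by
      rw [pow_mul, ← mul_pow N, ← mul_pow (64 * M0)]
      congr 1
      ring
    have e2 : (64 * M0) ^ t ≤ (64 * M0) ^ (t + 1) := pow_le_pow_right₀ (by linarith) (by omega)
    calc (Sc * (2 * (2 * q)) ^ 2) ^ t ≤ (4 * (M0 * N) * (2 * (2 * q)) ^ 2) ^ t := by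
          apply pow_le_pow_left₀ (by positivity)
          exact mul_le_mul_of_nonneg_right hS (by positivity)
      _ = (64 * M0) ^ t * (N ^ t * q ^ (2 * t)) := e1.symm
      _ ≤ _ := mul_le_mul_of_nonneg_right e2 (by positivity)
  have a3 : (2 * (M0 * N * w)) ^ 2 * nn ≤ 4 * M0 ^ 2 * C * (N * (w ^ 2 * (q ^ 2 * P ^ (2 * (t + 1))))) := by
    calc (2 * (M0 * N * w)) ^ 2 * nn = 4 * M0 ^ 2 * N * w ^ 2 * (N * nn) := by ring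
      _ ≤ 4 * M0 ^ 2 * N * w ^ 2 * (C * q ^ 2 * P ^ (2 * (t + 1))) := mul_le_mul_of_nonneg_left hnn (by positivity)
      _ = _ := by ring
  have a4 : (Ic * ((2 * q) ^ s) ^ 2) ^ (t + 1) * ((Sc * (2 * (2 * q)) ^ 2) ^ t * ((2 * (M0 * N * w)) ^ 2 * nn)) ≤
      ((8 * 4 ^ s) ^ (t + 1) * (N ^ (t + 1) * q ^ (2 * s * (t + 1)))) * (((64 * M0) ^ (t + 1) * (N ^ t * q ^ (2 * t))) *
        (4 * M0 ^ 2 * C * (N * (w ^ 2 * (q ^ 2 * P ^ (2 * (t + 1))))))) := by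
    apply mul_le_mul a1 _ (by positivity) (by positivity)
    exact mul_le_mul a2 a3 (by positivity) (by positivity)
  refine a4.trans ?_
  obtain ⟨K0, hK0⟩ : ∃ K0 : ℝ, K0 = (8 * 4 ^ s) ^ (t + 1) * (64 * M0) ^ (t + 1) * 4 * M0 ^ 2 * C := ⟨_, rfl⟩
  rw [← hK0] at hbig
  have e3 : ((8 * 4 ^ s) ^ (t + 1) * (N ^ (t + 1) * q ^ (2 * s * (t + 1)))) * (((64 * M0) ^ (t + 1) * (N ^ t * q ^ (2 * t))) *
        (4 * M0 ^ 2 * C * (N * (w ^ 2 * (q ^ 2 * P ^ (2 * (t + 1))))))) =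
      K0 * (N ^ (2 * (t + 1)) * P ^ (2 * (t + 1)) * (w ^ 2 * q ^ (2 * s * (t + 1) + 2 * (t + 1)))) := by
    rw [hK0]; ring
  rw [e3]
  have e4 : (N / (s * q ^ 4) * (P / q ^ (c + 1))) ^ (2 * (t + 1)) =
      (N ^ (2 * (t + 1)) * P ^ (2 * (t + 1))) / ((s : ℝ) ^ (2 * (t + 1)) * q ^ ((c + 5) * (2 * (t + 1)))) := by
    rw [div_mul_div_comm, div_pow, mul_pow]
    congr 1
    rw [mul_assoc, ← pow_add, mul_pow, ← pow_mul]
    congr 2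
    ring
  rw [e4, le_div_iff₀ (by positivity)]
  have e5 : K0 * (N ^ (2 * (t + 1)) * P ^ (2 * (t + 1)) * (w ^ 2 * q ^ (2 * s * (t + 1) + 2 * (t + 1)))) *
      ((s : ℝ) ^ (2 * (t + 1)) * q ^ ((c + 5) * (2 * (t + 1)))) =
      (N ^ (2 * (t + 1)) * P ^ (2 * (t + 1))) * ((s : ℝ) ^ (2 * (t + 1)) * K0 *
        (w ^ 2 * q ^ (2 * s * (t + 1) + 2 * (t + 1) + (c + 5) * (2 * (t + 1))))) := by
    rw [pow_add q (2 * s * (t + 1) + 2 * (t + 1))]; ring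
  rw [e5]
  have hNP : 0 ≤ N ^ (2 * (t + 1)) * P ^ (2 * (t + 1)) := by positivity
  have e6 : (s : ℝ) ^ (2 * (t + 1)) * K0 * (w ^ 2 * q ^ (2 * s * (t + 1) + 2 * (t + 1) + (c + 5) * (2 * (t + 1)))) ≤ 1 := by
    calc _ ≤ q * (w ^ 2 * q ^ (2 * s * (t + 1) + 2 * (t + 1) + (c + 5) * (2 * (t + 1)))) :=
          mul_le_mul_of_nonneg_right hbig (by positivity)
      _ = w ^ 2 * q ^ (2 * s * (t + 1) + 2 * (t + 1) + (c + 5) * (2 * (t + 1)) + 1) := by rw [pow_succ]; ring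
      _ ≤ w ^ 2 * q ^ E' := by
        apply mul_le_mul_of_nonneg_left _ hw0
        apply pow_le_pow_right₀ hq
        refine le_trans (le_of_eq ?_) hE
        ring
      _ = 1 := hw
  calc _ ≤ (N ^ (2 * (t + 1)) * P ^ (2 * (t + 1))) * 1 := mul_le_mul_of_nonneg_left e6 hNP
    _ = _ := mul_one _

end Pool.Agent.Helper85.HP
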