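import Pool.Agent.Helper85.HP.C2

set_option autoImplicit false

/-!
# The number of the exceptions for one interval
-/

open Finset Filter Topology

namespace Pool.Agent.Helper85.HP

open Pool.Agent.Helper86.PS Pool.Agent.H807R2.Dav

theorem poly_count (s : ℕ) (hs : 1 ≤ s) (K A : ℕ) (hA : 1 ≤ A) (c L1 L2 E' : ℕ) (hL1 : lE s ≤ L1)
    (hE' : 1 + 2 * 2 ^ K * (s + c + 6) ≤ E') (hE32 : 32 ≤ E') : ∃ Q0 : ℕ, ∀ Q : ℕ, Q0 ≤ Q → ∀ N : ℕ, Q ^ L1 ≤ N → N ≤ Q ^ L2 →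
    ∀ B : PC → ℝ, HW Q ((4 * A + 1) * N) B → ∑ j ∈ fam Q, B j ≤ 1 → ∀ a : Fin s → ℤ, (∀ i, a i ≠ 0) →
    ∀ (d P : Fin s → ℕ) (f : Fin s → ℤ → ℤ), (∀ i, 1 ≤ d i ∧ d i ≤ K) → (∀ i, IsPol (d i) (f i)) → (∀ i, 1 ≤ P i) →
    (∀ i, (N : ℝ) ≤ qk (2 * E') Q * (P i : ℝ) ^ d i) → (∀ i, ∀ x ∈ Ico (0 : ℤ) (P i), |f i x| ≤ 2 * A * N) →
    ∀ u v : ℤ, v - u ≤ 8 * N → ∀ Y ⊆ Fintype.piFinset (fun i => Ico (0 : ℤ) (P i)),
    (∀ x ∈ Y, (N : ℝ) / qk (2 * E') Q ^ 4 < ‖DI Q ((4 * A + 1) * N) a (fun i => f i (x i)) u v‖) →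
    (Y.card : ℝ) ≤ (∏ i, (P i : ℝ)) / qk (2 * E') Q ^ c := by
  classical
  have hE'0 : (0 : ℝ) < ((2 * E' : ℕ) : ℝ) := by exact_mod_cast (by omega : 0 < 2 * E')
  obtain ⟨C, hC, hnrg⟩ := hua_all K (η := 1 / (((2 * E' : ℕ) : ℝ) * (L2 + 1))) (by positivity)
  obtain ⟨M0, hM0⟩ : ∃ M0 : ℝ, M0 = 4 * A + 1 := ⟨_, rfl⟩
  have hA0 : (1 : ℝ) ≤ A := by exact_mod_cast hA
  have hM01 : 1 ≤ M0 := by rw [hM0]; linarith
  obtain ⟨R, hR⟩ : ∃ R : ℕ, R = 2 ^ K := ⟨_, rfl⟩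
  rw [← hR] at hE'
  have hsr : (1 : ℝ) ≤ s := by exact_mod_cast hs
  obtain ⟨Kc, hKc⟩ : ∃ Kc : ℝ, Kc = (s : ℝ) ^ (2 * R) * ((8 * 4 ^ s) ^ R * (64 * M0) ^ R * 4 * M0 ^ 2 * C) := ⟨_, rfl⟩
  obtain ⟨Q1, hQ1⟩ := sup_main (cR s) (L2 + 1) (by
    unfold cR
    have : 0 < 2 * s * (s * (s + 1) + 2) := by positivity
    omega) (κ := 1 / ((2 * E' : ℕ) : ℝ)) (by positivity) (by
    apply one_div_le_one_div_of_le (by norm_num)
    exact_mod_cast (by omega : 32 ≤ 2 * E'))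
  obtain ⟨Q2, hQ2⟩ := ev_log (max Kc s) 0 (a := 1 / ((2 * E' : ℕ) : ℝ)) (by positivity)
  refine ⟨Q1 + Q2 + 4 * A + 5, fun Q hQ N hN1 hN2 B hw hBs a ha d P f hd hf hP hPN hfB u v huv Y hY hYl => ?_⟩
  have hQ1' : 1 ≤ Q := by omega
  have hQr : (1 : ℝ) ≤ Q := by exact_mod_cast hQ1'
  have hQ0 : (0 : ℝ) < Q := by linarith
  have hNpos : 0 < N := lt_of_lt_of_le (by positivity) hN1
  have hN0 : (0 : ℝ) < N := by exact_mod_cast hNpos
  obtain ⟨M, hM⟩ : ∃ M : ℕ, M = (4 * A + 1) * N := ⟨_, rfl⟩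
  have hMN : N ≤ M := by rw [hM]; exact Nat.le_mul_of_pos_left _ (by omega)
  have hM1 : 1 ≤ M := by omega
  have hMr : (M : ℝ) = M0 * N := by rw [hM, hM0]; push_cast; ring
  have hlow : Q ^ (6 * cR s + 20) ≤ M := by
    refine le_trans (Nat.pow_le_pow_right (by omega) ?_) (hN1.trans hMN)
    unfold lE at hL1
    omega
  have hup : M ≤ Q ^ (L2 + 1) := by
    calc M = (4 * A + 1) * N := hM
      _ ≤ Q * Q ^ L2 := Nat.mul_le_mul (by omega) hN2
      _ = Q ^ (L2 + 1) := by ring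
  rw [← hM] at hw hYl
  obtain ⟨hσ, hcL, hcB, hS1, hS2, -⟩ := hQ1 Q (by omega) M hlow hup B hw hBs
  obtain ⟨q, hq⟩ : ∃ q : ℝ, q = qk (2 * E') Q := ⟨_, rfl⟩
  have hqd : (Q : ℝ) ^ (1 / ((2 * E' : ℕ) : ℝ)) = q := by rw [hq]; rfl
  have hq1 : 1 ≤ q := by rw [hq]; exact qk_ge hQ1'
  have hq0 : 0 < q := by linarith
  have hmaxq : max Kc s ≤ q := by
    have := hQ2 Q (by omega)
    rwa [pow_zero, mul_one, hqd] at this
  have hKcq : Kc ≤ q := (le_max_left _ _).trans hmaxq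
  have hsq : (s : ℝ) ≤ q := (le_max_right _ _).trans hmaxq
  rw [hqd] at hcL hcB
  rw [← hq] at hPN hYl ⊢
  obtain ⟨w, hwd⟩ : ∃ w : ℝ, w = (Q : ℝ) ^ (-(1 / 4) : ℝ) := ⟨_, rfl⟩
  rw [← hwd] at hσ
  have hww : w ^ 2 * q ^ E' = 1 := by
    have e1 : w ^ 2 = (Q : ℝ) ^ (-(1 / 2) : ℝ) := by
      rw [hwd, ← Real.rpow_natCast, ← Real.rpow_mul hQ0.le]
      norm_num
    have e2 : q ^ E' = (Q : ℝ) ^ (1 / 2 : ℝ) := by
      rw [← hqd, ← Real.rpow_natCast, ← Real.rpow_mul hQ0.le]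
      congr 1
      push_cast
      have : (E' : ℝ) ≠ 0 := by
        have : 0 < E' := by omega
        exact_mod_cast this.ne'
      field_simp
    rw [e1, e2, ← Real.rpow_add hQ0]
    norm_num
  have hl : 0 < (N : ℝ) / (s * q ^ 4) := by positivity
  have hcount := hyb_count hS1 hS2 (σ := 2 * (M0 * N * w)) (V := 2 * q) (by
      intro θ
      have := hσ θ
      rwa [hMr] at this) (by linarith) (fun x => (hcL x).trans (by linarith)) hcB ha (Ico u v) (fun i => Ico (0 : ℤ) (P i)) f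
    (fun i => 2 ^ (d i - 1)) (fun i => Nat.one_le_two_pow) hl (b := fun i => (P i : ℝ) / q ^ (c + 1)) (fun i => by positivity) (by
      intro i
      obtain ⟨r, hr⟩ : ∃ r : ℕ, r = 2 ^ (d i - 1) := ⟨_, rfl⟩
      have hr1 : 1 ≤ r := by rw [hr]; exact Nat.one_le_two_pow
      have h2r : 2 * r = 2 ^ (d i) := by
        rw [hr]
        obtain ⟨e, he⟩ : ∃ e, d i = e + 1 := ⟨d i - 1, by have := (hd i).1; omega⟩
        rw [he, Nat.add_sub_cancel, pow_succ]; ring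
      have hrR : 2 * r ≤ R := by
        rw [h2r, hR]
        exact Nat.pow_le_pow_right (by norm_num) (hd i).2
      rw [← hr]
      have h1 := hnrg (d i) (hd i).1 (hd i).2 (f i) (hf i) (P i) (hP i) (2 * A * N) (by
        have : 0 < 2 * A * N := by positivity
        omega) (by
        intro x hx
        push_cast
        exact hfB i x hx)
      rw [← hr] at h1
      have hBη : ((2 * A * N : ℕ) : ℝ) ^ (1 / (((2 * E' : ℕ) : ℝ) * (L2 + 1))) ≤ q := by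
        have e1 : ((2 * A * N : ℕ) : ℝ) ≤ (Q : ℝ) ^ (L2 + 1) := by
          have : 2 * A * N ≤ Q ^ (L2 + 1) := by
            calc 2 * A * N ≤ (4 * A + 1) * N := Nat.mul_le_mul_right _ (by omega)
              _ = M := hM.symm
              _ ≤ _ := hup
          exact_mod_cast this
        refine (Real.rpow_le_rpow (Nat.cast_nonneg _) e1 (by positivity)).trans (le_of_eq ?_)
        rw [← hqd, ← Real.rpow_natCast, ← Real.rpow_mul hQ0.le]
        congr 1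
        push_cast
        have : (L2 : ℝ) + 1 ≠ 0 := by positivity
        field_simp
      have hk2 : d i ≤ 2 ^ (d i) := Nat.lt_two_pow_self.le
      have hnn : (N : ℝ) * nrg (Ico (0 : ℤ) (P i)) (f i) r ≤ C * q ^ 2 * (P i : ℝ) ^ (2 * r) := by
        have hn0 : (0 : ℝ) ≤ nrg (Ico (0 : ℤ) (P i)) (f i) r := Nat.cast_nonneg _
        have hC0 : (0 : ℝ) ≤ C := by linarith
        calc (N : ℝ) * nrg (Ico (0 : ℤ) (P i)) (f i) r ≤ (q * (P i : ℝ) ^ d i) * (C * q * (P i : ℝ) ^ (2 ^ (d i) - d i)) := by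
              apply mul_le_mul (hPN i) _ hn0 (by positivity)
              refine h1.trans ?_
              apply mul_le_mul_of_nonneg_right _ (by positivity)
              exact mul_le_mul_of_nonneg_left hBη hC0
          _ = C * q ^ 2 * ((P i : ℝ) ^ d i * (P i : ℝ) ^ (2 ^ (d i) - d i)) := by ring
          _ = _ := by rw [← pow_add, h2r]; congr 2; omega
      apply num_step hr1 hs hN0 (Nat.cast_nonneg _) hq1 hC hM01 (Nat.cast_nonneg _) (Nat.cast_nonneg _) _ _ (Nat.cast_nonneg _)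
        hnn hww _ _
      · rw [Int.card_Ico]
        have : (v - u).toNat ≤ 8 * N := by omega
        exact_mod_cast this
      · rw [← hMr]
        exact card_Icc3 hM1
      · refine le_trans ?_ hE'
        have := Nat.mul_le_mul_right (s + c + 6) hrR
        have e : 2 * R * (s + c + 6) = 2 * (R * (s + c + 6)) := by ring
        omega
      · refine le_trans ?_ hKcq
        rw [hKc]
        have hrR' : r ≤ R := by omega
        have g1 : (s : ℝ) ^ (2 * r) ≤ (s : ℝ) ^ (2 * R) := pow_le_pow_right₀ hsr (by omega)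
        have g0 : (1 : ℝ) ≤ 8 * 4 ^ s := by
          have : (1 : ℝ) ≤ 4 ^ s := one_le_pow₀ (by norm_num)
          linarith
        have g2 : (8 * 4 ^ s : ℝ) ^ r ≤ (8 * 4 ^ s) ^ R := pow_le_pow_right₀ g0 hrR'
        have g3 : (64 * M0) ^ r ≤ (64 * M0) ^ R := pow_le_pow_right₀ (by linarith) hrR'
        have hC0 : (0 : ℝ) ≤ C := by linarith
        have hM00 : (0 : ℝ) ≤ M0 := by linarith
        gcongr) Y hY (by
      intro x hx
      have e : (s : ℝ) * ((N : ℝ) / (s * q ^ 4)) = N / q ^ 4 := by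
        have : (s : ℝ) ≠ 0 := by positivity
        field_simp
      rw [e]
      exact hYl x hx)
  refine hcount.trans ?_
  have hcardI : ∀ i, ((Ico (0 : ℤ) (P i)).card : ℝ) = P i := by
    intro i
    rw [Int.card_Ico]
    simp
  simp only [hcardI]
  have h2 : ∀ k ∈ (univ : Finset (Fin s)), (P k : ℝ) / q ^ (c + 1) * ∏ i ∈ univ.erase k, (P i : ℝ) = (∏ i, (P i : ℝ)) / q ^ (c + 1) := by
    intro k _
    rw [← mul_prod_erase univ (fun i => (P i : ℝ)) (mem_univ k)]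
    ring
  rw [sum_congr rfl h2, sum_const, card_univ, Fintype.card_fin, nsmul_eq_mul, pow_succ, ← mul_div_assoc, div_le_div_iff₀ (by positivity) (by positivity)]
  have hPi : 0 ≤ ∏ i, (P i : ℝ) := prod_nonneg fun _ _ => Nat.cast_nonneg _
  calc (s : ℝ) * (∏ i, (P i : ℝ)) * q ^ c ≤ q * (∏ i, (P i : ℝ)) * q ^ c := by
        apply mul_le_mul_of_nonneg_right _ (by positivity)
        exact mul_le_mul_of_nonneg_right hsq hPi
    _ = _ := by ring

end Pool.Agent.Helper85.HP
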