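import Pool.Agent.Helper85.HP.C3
import Pool.Agent.Helper86.PS.H10

set_option autoImplicit false

/-!
# Polynomial shifts at a fixed scale
-/

open Finset Filter Topology

namespace Pool.Agent.Helper85.HP

open Pool.Agent.Helper86.PS Pool.Agent.H807R2.Dav

lemma Del_zero {s : ℕ} {a h : Fin s → ℤ} (hz : Del a h = 0) : ∃ i : Fin s, ∃ k ∈ univ.erase i, a k * h i = a i * h k := by
  unfold Del at hz
  rw [prod_eq_zero_iff] at hz
  obtain ⟨i, -, hi⟩ := hz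
  rw [prod_eq_zero_iff] at hi
  obtain ⟨k, hk, hk2⟩ := hi
  exact ⟨i, k, hk, by linarith⟩

/-- the points with proportional forms -/
lemma card_Del_pol {s K : ℕ} {a : Fin s → ℤ} (ha : ∀ i, a i ≠ 0) {d P : Fin s → ℕ} {f : Fin s → ℤ → ℤ}
    (hd : ∀ i, 1 ≤ d i ∧ d i ≤ K) (hf : ∀ i, IsPol (d i) (f i)) {m : ℝ} (hm : 0 < m) (hPm : ∀ i, m ≤ P i) :
    (((Fintype.piFinset (fun i => Ico (0 : ℤ) (P i))).filter (fun x => Del a (fun i => f i (x i)) = 0)).card : ℝ) ≤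
      s * s * (K * ((∏ i, (P i : ℝ)) / m)) := by
  classical
  obtain ⟨Yk, hYk⟩ : ∃ Yk : Fin s → Fin s → Finset (Fin s → ℤ), Yk = fun i k =>
    (Fintype.piFinset (fun i => Ico (0 : ℤ) (P i))).filter (fun x => a k * f i (x i) = a i * f k (x k)) := ⟨_, rfl⟩
  have hsub : (Fintype.piFinset (fun i => Ico (0 : ℤ) (P i))).filter (fun x => Del a (fun i => f i (x i)) = 0) ⊆
      univ.biUnion (fun i => (univ.erase i).biUnion (fun k => Yk i k)) := by
    intro x hx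
    rw [mem_filter] at hx
    obtain ⟨i, k, hk, h1⟩ := Del_zero hx.2
    rw [mem_biUnion]
    refine ⟨i, mem_univ i, ?_⟩
    rw [mem_biUnion]
    refine ⟨k, hk, ?_⟩
    rw [hYk, mem_filter]
    exact ⟨hx.1, h1⟩
  have hPi0 : 0 ≤ ∏ i, (P i : ℝ) := prod_nonneg fun _ _ => Nat.cast_nonneg _
  have hone : ∀ i, ∀ k ∈ univ.erase i, ((Yk i k).card : ℝ) ≤ K * ((∏ i, (P i : ℝ)) / m) := by
    intro i k hk
    have hki : k ≠ i := ne_of_mem_erase hk
    have h1 := card_slices (fun i => Ico (0 : ℤ) (P i)) i (Yk i k) (by rw [hYk]; exact filter_subset _ _) (b := (K : ℝ))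
      (Nat.cast_nonneg _) (by
        intro x
        obtain ⟨e, he⟩ : ∃ e, d i = e + 1 := ⟨d i - 1, by have := (hd i).1; omega⟩
        have h2 := hf i
        rw [he] at h2
        have h3 := roots_le h2 ((a i * f k (x k)) / a k) (Ico (0 : ℤ) (P i))
        have h4 : ((Ico (0 : ℤ) (P i)).filter (fun t => Function.update x i t ∈ Yk i k)).card ≤ e + 1 := by
          refine le_trans (card_le_card ?_) h3
          intro t ht
          rw [mem_filter, hYk, mem_filter, Function.update_self, Function.update_of_ne hki] at ht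
          rw [mem_filter]
          refine ⟨ht.1, ?_⟩
          rw [← ht.2.2, Int.mul_ediv_cancel_left _ (ha k)]
        have h5 : e + 1 ≤ K := by have := (hd i).2; omega
        exact_mod_cast h4.trans h5)
    refine h1.trans ?_
    apply mul_le_mul_of_nonneg_left _ (Nat.cast_nonneg _)
    have hcardI : ∀ i, ((Ico (0 : ℤ) (P i)).card : ℝ) = P i := by
      intro i
      rw [Int.card_Ico]
      simp
    simp only [hcardI]
    rw [le_div_iff₀ hm, ← mul_prod_erase univ (fun i => (P i : ℝ)) (mem_univ i), mul_comm]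
    exact mul_le_mul_of_nonneg_right (hPm i) (prod_nonneg fun _ _ => Nat.cast_nonneg _)
  have hcard : (((Fintype.piFinset (fun i => Ico (0 : ℤ) (P i))).filter (fun x => Del a (fun i => f i (x i)) = 0)).card : ℝ) ≤
      ∑ i : Fin s, ∑ k ∈ univ.erase i, ((Yk i k).card : ℝ) := by
    have h1 := (card_le_card hsub).trans card_biUnion_le
    have h2 : ∑ i : Fin s, ((univ.erase i).biUnion (fun k => Yk i k)).card ≤ ∑ i : Fin s, ∑ k ∈ univ.erase i, (Yk i k).card :=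
      sum_le_sum fun i _ => card_biUnion_le
    exact_mod_cast h1.trans h2
  refine hcard.trans ?_
  have h3 : ∀ i ∈ (univ : Finset (Fin s)), ∑ k ∈ univ.erase i, ((Yk i k).card : ℝ) ≤ s * (K * ((∏ i, (P i : ℝ)) / m)) := by
    intro i _
    refine (sum_le_sum (hone i)).trans ?_
    rw [sum_const, nsmul_eq_mul]
    apply mul_le_mul_of_nonneg_right _ (by positivity)
    have : (univ.erase i).card ≤ s := by
      refine (card_le_card (erase_subset _ _)).trans ?_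
      rw [card_univ, Fintype.card_fin]
    exact_mod_cast this
  refine (sum_le_sum h3).trans ?_
  rw [sum_const, card_univ, Fintype.card_fin, nsmul_eq_mul, mul_assoc]

theorem fixedP (s : ℕ) (hs : 1 ≤ s) (K A : ℕ) (hA : 1 ≤ A) {ε : ℝ} (hε0 : 0 < ε) (hε1 : ε ≤ 1) (c L1 L2 E' : ℕ) (hL1 : lE s ≤ L1)
    (hL1κ : 160 * (s : ℝ) ≤ ε * L1) (hE' : 1 + 2 * 2 ^ K * (s + (c + 10) + 6) ≤ E') (hE32 : 32 ≤ E') :
    ∃ Q0 : ℕ, ∀ Q : ℕ, Q0 ≤ Q → ∀ N : ℕ, Q ^ L1 ≤ N → N ≤ Q ^ L2 → ∀ B : PC → ℝ, HW Q ((4 * A + 1) * N) B →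
    ∀ ε' : ℝ, ∑ j ∈ fam Q, B j ≤ ε' → (1 + ε') ^ s - 1 ≤ ε / 40 → ε' ≤ 1 →
    ∀ a : Fin s → ℤ, (∀ i, a i ≠ 0 ∧ |a i| ≤ A) →
    ∀ (d P : Fin s → ℕ) (f : Fin s → ℤ → ℤ), (∀ i, 1 ≤ d i ∧ d i ≤ K) → (∀ i, IsPol (d i) (f i)) → (∀ i, 1 ≤ P i) →
    (∀ i, (N : ℝ) ≤ qk (2 * E') Q * (P i : ℝ) ^ d i) → (∀ i, ∀ x ∈ Ico (0 : ℤ) (P i), |f i x| ≤ 2 * A * N) →
    ∃ E : Finset (Fin s → ℤ), (E.card : ℝ) ≤ (∏ i, (P i : ℝ)) / qk (2 * E') Q ^ c ∧
      ∀ x ∈ Fintype.piFinset (fun i => Ico (0 : ℤ) (P i)), x ∉ E → (∀ p : ℕ, p.Prime → nuP a (fun i => f i (x i)) p < p) →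
      ∃ S : ℝ, HasProd (fun p : Nat.Primes => facP a (fun i => f i (x i)) (p : ℕ)) S ∧
        ∀ u v : ℤ, -(N : ℤ) ≤ u → v ≤ N → (N : ℝ) / qk (2 * E') Q ≤ ((v - u : ℤ) : ℝ) →
        (∀ n ∈ Ico u v, ∀ i, 1 ≤ a i * n + f i (x i)) →
        |(pc a (fun i => f i (x i)) u v : ℝ) - S * (((v - u : ℤ) : ℝ) / Real.log N ^ s)| ≤
          ε * (S * (((v - u : ℤ) : ℝ) / Real.log N ^ s)) := by
  classical
  have hsr : (1 : ℝ) ≤ s := by exact_mod_cast hs
  obtain ⟨Q1, hQ1⟩ := poly_count s hs K A hA (c + 10) L1 L2 E' hL1 hE' hE32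
  obtain ⟨Q2, hQ2⟩ := per_h (E := 2 * E') (by omega) s hs A (κ := ε / 10) (by positivity) (by linarith) L1 L2
    hL1 (by linarith)
  have hE0 : (0 : ℝ) < ((2 * E' : ℕ) : ℝ) := by exact_mod_cast (by omega : 0 < 2 * E')
  obtain ⟨Q3, hQ3⟩ := ev_log (max ((s : ℝ) * s * K) 25) 0 (a := 1 / ((2 * E' : ℕ) : ℝ)) (by positivity)
  refine ⟨Q1 + Q2 + Q3 + 3, fun Q hQ N hN1 hN2 B hw ε' hBs hε' hε'1 a ha d P f hd hf hP hPN hfB => ?_⟩
  have hQ1' : 1 ≤ Q := by omega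
  have hQr : (1 : ℝ) ≤ Q := by exact_mod_cast hQ1'
  have hQ2r : (2 : ℝ) ≤ Q := by exact_mod_cast (by omega : 2 ≤ Q)
  obtain ⟨q, hq⟩ : ∃ q : ℝ, q = qk (2 * E') Q := ⟨_, rfl⟩
  have hq1 : 1 ≤ q := by rw [hq]; exact qk_ge hQ1'
  have hq0 : 0 < q := by linarith
  have hqd : (Q : ℝ) ^ (1 / ((2 * E' : ℕ) : ℝ)) = q := by rw [hq]; rfl
  have hmaxq : max ((s : ℝ) * s * K) 25 ≤ q := by
    have := hQ3 Q (by omega)
    rwa [pow_zero, mul_one, hqd] at this
  have hsKq : (s : ℝ) * s * K ≤ q := (le_max_left _ _).trans hmaxq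
  have h25q : 25 ≤ q := (le_max_right _ _).trans hmaxq
  have hNpos : 0 < N := lt_of_lt_of_le (by positivity) hN1
  have hN0 : (0 : ℝ) < N := by exact_mod_cast hNpos
  obtain ⟨G, hG⟩ : ∃ G : ℕ, G = cg (2 * E') Q N := ⟨_, rfl⟩
  obtain ⟨k0, hk0⟩ : ∃ k0 : ℕ, k0 = kk (2 * E') Q := ⟨_, rfl⟩
  obtain ⟨J, hJ⟩ : ∃ J : Finset ℤ, J = Icc (-(2 * k0 : ℤ)) (2 * k0) := ⟨_, rfl⟩
  have hKq : (k0 : ℝ) ≤ q ^ 4 := by rw [hk0, hq]; exact kk_le hQ1'
  have hQN : Q < N := by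
    have h40 : 40 ≤ lE s := by unfold lE; omega
    have h1 : Q ^ 2 ≤ Q ^ L1 := Nat.pow_le_pow_right (by omega) (by omega)
    have h2 : Q * 1 < Q * Q := Nat.mul_lt_mul_of_pos_left (by omega) (by omega)
    have h3 : Q ^ 2 = Q * Q := sq Q
    omega
  have hqQ : ∀ n : ℕ, n ≤ 2 * E' → q ^ n ≤ Q := by
    intro n hn
    rw [hq]
    exact qk_le (by omega) hQ1' hn
  have hKN : k0 ≤ N := by
    have h1 : (k0 : ℝ) ≤ Q := hKq.trans (hqQ 4 (by omega))
    have h2 : k0 ≤ Q := by exact_mod_cast h1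
    omega
  have hKG : k0 * G ≤ 2 * N := by
    have e1 : k0 * G = k0 * (N / k0) + k0 := by rw [hG, hk0]; unfold cg; ring
    have e2 := Nat.mul_div_le N k0
    omega
  have hkG : ∀ k ∈ J, -(4 * N : ℤ) ≤ k * G ∧ k * G ≤ 4 * N := by
    intro k hk
    rw [hJ, mem_Icc] at hk
    have h1 : (k0 : ℤ) * G ≤ 2 * N := by exact_mod_cast hKG
    have hG0 : (0 : ℤ) ≤ G := Int.natCast_nonneg _
    constructor
    · have := mul_le_mul_of_nonneg_right hk.1 hG0
      linarith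
    · have := mul_le_mul_of_nonneg_right hk.2 hG0
      linarith
  obtain ⟨X, hX⟩ : ∃ X : Finset (Fin s → ℤ), X = Fintype.piFinset (fun i => Ico (0 : ℤ) (P i)) := ⟨_, rfl⟩
  obtain ⟨Yk, hYk⟩ : ∃ Yk : ℤ × ℤ → Finset (Fin s → ℤ), Yk = fun k => X.filter (fun x =>
    (N : ℝ) / q ^ 4 < ‖DI Q ((4 * A + 1) * N) a (fun i => f i (x i)) (k.1 * G) (k.2 * G)‖) := ⟨_, rfl⟩
  obtain ⟨Z, hZ⟩ : ∃ Z : Finset (Fin s → ℤ), Z = X.filter (fun x => Del a (fun i => f i (x i)) = 0) := ⟨_, rfl⟩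
  obtain ⟨E, hE⟩ : ∃ E : Finset (Fin s → ℤ), E = Z ∪ (J ×ˢ J).biUnion Yk := ⟨_, rfl⟩
  have hPi0 : 0 ≤ ∏ i, (P i : ℝ) := prod_nonneg fun _ _ => Nat.cast_nonneg _
  have hone : ∀ k ∈ J ×ˢ J, ((Yk k).card : ℝ) ≤ (∏ i, (P i : ℝ)) / q ^ (c + 10) := by
    intro k hk
    rw [mem_product] at hk
    have h1 := hQ1 Q (by omega) N hN1 hN2 B hw (hBs.trans hε'1) a (fun i => (ha i).1) d P f hd hf hP hPN hfB
      (k.1 * G) (k.2 * G) (by linarith [(hkG _ hk.1).1, (hkG _ hk.2).2]) (Yk k) (by rw [hYk, hX]; exact filter_subset _ _) (by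
        intro x hx
        rw [hYk, mem_filter] at hx
        rw [← hq]
        exact hx.2)
    rwa [← hq] at h1
  -- the size of the `P i`
  have hPm : ∀ i, q ^ (c + 10) ≤ P i := by
    intro i
    by_contra hc
    push Not at hc
    have h1 : (P i : ℝ) ^ d i ≤ (q ^ (c + 10)) ^ d i := pow_le_pow_left₀ (Nat.cast_nonneg _) hc.le _
    have h2 : (q ^ (c + 10)) ^ d i ≤ (q ^ (c + 10)) ^ K := pow_le_pow_right₀ (one_le_pow₀ hq1) (hd i).2
    have h3 : (N : ℝ) ≤ q * (q ^ (c + 10)) ^ K := by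
      have := hPN i
      rw [← hq] at this
      exact this.trans (mul_le_mul_of_nonneg_left (h1.trans h2) hq0.le)
    have h4 : q * (q ^ (c + 10)) ^ K = q ^ (1 + (c + 10) * K) := by
      rw [pow_add q 1, pow_one, pow_mul]
    have h5 : 1 + (c + 10) * K ≤ 2 * E' := by
      have hK2 : K ≤ 2 ^ K := Nat.lt_two_pow_self.le
      have g1 : (c + 10) * K ≤ (s + (c + 10) + 6) * 2 ^ K := Nat.mul_le_mul (by omega) hK2
      have g2 : 2 * 2 ^ K * (s + (c + 10) + 6) = 2 * ((s + (c + 10) + 6) * 2 ^ K) := by ring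
      omega
    have h6 := hqQ _ h5
    rw [h4] at h3
    have h7 : (N : ℝ) ≤ Q := h3.trans h6
    have h8 : N ≤ Q := by exact_mod_cast h7
    omega
  have hZc : (Z.card : ℝ) ≤ (∏ i, (P i : ℝ)) / q ^ (c + 1) := by
    have h1 := card_Del_pol (a := a) (fun i => (ha i).1) hd hf (m := q ^ (c + 10)) (by positivity) hPm
    rw [hZ, hX]
    refine h1.trans ?_
    calc (s : ℝ) * s * (K * ((∏ i, (P i : ℝ)) / q ^ (c + 10))) = ((s : ℝ) * s * K) * ((∏ i, (P i : ℝ)) / q ^ (c + 10)) := by ring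
      _ ≤ q * ((∏ i, (P i : ℝ)) / q ^ (c + 10)) := mul_le_mul_of_nonneg_right hsKq (by positivity)
      _ = (∏ i, (P i : ℝ)) / q ^ (c + 9) := by
        rw [pow_succ q (c + 9)]
        field_simp
      _ ≤ _ := by
        apply div_le_div_of_nonneg_left hPi0 (by positivity)
        exact pow_le_pow_right₀ hq1 (by omega)
  have hJc : (J.card : ℝ) ≤ 5 * q ^ 4 := by
    have h1 : J.card ≤ 4 * k0 + 1 := by
      rw [hJ, Int.card_Icc]
      omega
    have h2 : (J.card : ℝ) ≤ 4 * k0 + 1 := by exact_mod_cast h1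
    have h3 : 1 ≤ q ^ 4 := one_le_pow₀ hq1
    linarith
  have hUc : (((J ×ˢ J).biUnion Yk).card : ℝ) ≤ (∏ i, (P i : ℝ)) / q ^ (c + 1) := by
    have hcard : (((J ×ˢ J).biUnion Yk).card : ℝ) ≤ ∑ k ∈ J ×ˢ J, ((Yk k).card : ℝ) := by
      exact_mod_cast card_biUnion_le
    refine (hcard.trans (sum_le_sum hone)).trans ?_
    rw [sum_const, nsmul_eq_mul, card_product]
    push_cast
    calc (J.card : ℝ) * J.card * ((∏ i, (P i : ℝ)) / q ^ (c + 10)) ≤
        (5 * q ^ 4) * (5 * q ^ 4) * ((∏ i, (P i : ℝ)) / q ^ (c + 10)) := by gcongr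
      _ = 25 * (q ^ 8 * ((∏ i, (P i : ℝ)) / q ^ (c + 10))) := by ring
      _ ≤ q * (q ^ 8 * ((∏ i, (P i : ℝ)) / q ^ (c + 10))) := mul_le_mul_of_nonneg_right h25q (by positivity)
      _ = (∏ i, (P i : ℝ)) / q ^ (c + 1) := by
        rw [show c + 10 = (c + 1) + 9 by ring, pow_add q (c + 1) 9]
        field_simp
  rw [← hq]
  refine ⟨E, ?_, ?_⟩
  · have h1 : (E.card : ℝ) ≤ Z.card + ((J ×ˢ J).biUnion Yk).card := by
      rw [hE]
      exact_mod_cast card_union_le _ _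
    refine h1.trans ((add_le_add hZc hUc).trans ?_)
    calc (∏ i, (P i : ℝ)) / q ^ (c + 1) + (∏ i, (P i : ℝ)) / q ^ (c + 1) = 2 * ((∏ i, (P i : ℝ)) / q ^ (c + 1)) := by ring
      _ ≤ q * ((∏ i, (P i : ℝ)) / q ^ (c + 1)) := mul_le_mul_of_nonneg_right (by linarith) (by positivity)
      _ = _ := by
        rw [pow_succ q c]
        field_simp
  · intro x hx hxE hadm
    rw [← hX] at hx
    have hΔ : Del a (fun i => f i (x i)) ≠ 0 := by
      intro hc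
      apply hxE
      rw [hE, mem_union]
      left
      rw [hZ, mem_filter]
      exact ⟨hx, hc⟩
    obtain ⟨S, hS⟩ := exists_facP (fun i => (ha i).1) hΔ hadm
    refine ⟨S, hS, fun u v hu hv hW hpos => ?_⟩
    have hxi : ∀ i, x i ∈ Ico (0 : ℤ) (P i) := by
      intro i
      rw [hX, Fintype.mem_piFinset] at hx
      exact hx i
    have h1 := hQ2 Q (by omega) N hN1 hN2 B hw ε' hBs (by linarith) a (fun i => f i (x i)) (fun i => (ha i).1)
      (fun i => (ha i).2) (fun i => hfB i _ (hxi i)) hΔ hadm (by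
        intro k1 k2 hk1 hk2
        by_contra hc
        push Not at hc
        apply hxE
        rw [hE, mem_union, mem_biUnion]
        right
        refine ⟨(k1, k2), ?_, ?_⟩
        · rw [mem_product, hJ, mem_Icc, mem_Icc, hk0]
          exact ⟨abs_le.1 hk1, abs_le.1 hk2⟩
        · rw [hYk, mem_filter]
          refine ⟨hx, ?_⟩
          rw [hq, hG]
          exact hc) S hS u v (by
        have : (0 : ℤ) ≤ N := Int.natCast_nonneg _
        linarith) (by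
        have : (0 : ℤ) ≤ N := Int.natCast_nonneg _
        linarith) (by rw [← hq]; exact hW) hpos
    have e2 : 10 * (ε / 10) = ε := by ring
    rwa [e2] at h1

end Pool.Agent.Helper85.HP
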