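import Pool.Agent.Helper85.HP.C4

set_option autoImplicit false

/-!
# Polynomial shifts at most scales
-/

open Finset Filter Topology Polynomial

namespace Pool.Agent.Helper85.HP

open Pool.Agent.Helper86.PS Pool.Agent.H807R2.Dav

/-- the statement at the scale `N` -/
def PPS (s K A : ℕ) (ε δ : ℝ) (N : ℕ) : Prop :=
  ∀ a : Fin s → ℤ, (∀ i, a i ≠ 0 ∧ |a i| ≤ A) → ∀ (P : Fin s → ℕ) (F : Fin s → ℤ[X]),
    (∀ i, 1 ≤ (F i).natDegree ∧ (F i).natDegree ≤ K) → (∀ i, (N : ℝ) ^ (1 - δ) ≤ (P i : ℝ) ^ (F i).natDegree) →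
    (∀ i, ∀ x : ℤ, 0 ≤ x → x < P i → |(F i).eval x| ≤ A * N) →
    ∃ E : Finset (Fin s → ℤ), (E.card : ℝ) ≤ (N : ℝ) ^ (-δ) * ∏ i, (P i : ℝ) ∧
      ∀ x : Fin s → ℤ, (∀ i, 0 ≤ x i ∧ x i < P i) → x ∉ E →
        ∀ h : Fin s → ℤ, (∀ i, ((|h i - (F i).eval (x i)| : ℤ) : ℝ) ≤ (N : ℝ) ^ δ) →
        (∀ p : ℕ, p.Prime → nuP a h p < p) → ∃ S : ℝ, HasProd (fun p : Nat.Primes => facP a h (p : ℕ)) S ∧
          ∀ u v : ℤ, -(N : ℤ) ≤ u → v ≤ N → (N : ℝ) ^ (1 - δ) ≤ ((v - u : ℤ) : ℝ) →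
            (∀ n ∈ Ico u v, ∀ i, 1 ≤ a i * n + h i) →
            |(pc a h u v : ℝ) - S * (((v - u : ℤ) : ℝ) / Real.log N ^ s)| ≤
              ε * (S * (((v - u : ℤ) : ℝ) / Real.log N ^ s))

theorem fixedPP (s : ℕ) (hs : 1 ≤ s) (K A : ℕ) (hA : 1 ≤ A) {ε : ℝ} (hε0 : 0 < ε) (hε1 : ε ≤ 1) (L1 L2 E' : ℕ) (hL1 : lE s ≤ L1)
    (hL1κ : 160 * (s : ℝ) ≤ ε * L1) (hL2 : 1 ≤ L2) (hE' : 1 + 2 * 2 ^ K * (s + ((2 * s + 1) + 10) + 6) ≤ E') (hE32 : 32 ≤ E') :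
    ∃ Q0 : ℕ, ∀ Q : ℕ, Q0 ≤ Q → ∀ N : ℕ, Q ^ L1 ≤ N → N ≤ Q ^ L2 → ∀ B : PC → ℝ, HW Q ((4 * A + 1) * N) B →
    ∀ ε' : ℝ, ∑ j ∈ fam Q, B j ≤ ε' → (1 + ε') ^ s - 1 ≤ ε / 40 → ε' ≤ 1 → PPS s K A ε (1 / (((2 * E' : ℕ) : ℝ) * L2)) N := by
  classical
  obtain ⟨Q1, hQ1⟩ := fixedP s hs K A hA hε0 hε1 (2 * s + 1) L1 L2 E' hL1 hL1κ hE' hE32
  have hE0 : (0 : ℝ) < ((2 * E' : ℕ) : ℝ) := by exact_mod_cast (by omega : 0 < 2 * E')
  obtain ⟨Q3, hQ3⟩ := ev_log 3 0 (a := 1 / ((2 * E' : ℕ) : ℝ)) (by positivity)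
  refine ⟨Q1 + Q3 + 3, fun Q hQ N hN1 hN2 B hw ε' hBs hε' hε'1 a ha P F hF hPN hFB => ?_⟩
  have hQ1' : 1 ≤ Q := by omega
  have hQr : (1 : ℝ) ≤ Q := by exact_mod_cast hQ1'
  have hQ0 : (0 : ℝ) < Q := by linarith
  obtain ⟨q, hq⟩ : ∃ q : ℝ, q = qk (2 * E') Q := ⟨_, rfl⟩
  have hq1 : 1 ≤ q := by rw [hq]; exact qk_ge hQ1'
  have hq0 : 0 < q := by linarith
  have hqd : (Q : ℝ) ^ (1 / ((2 * E' : ℕ) : ℝ)) = q := by rw [hq]; rfl
  have h3q : 3 ≤ q := by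
    have := hQ3 Q (by omega)
    rwa [pow_zero, mul_one, hqd] at this
  have hNpos : 0 < N := lt_of_lt_of_le (by positivity) hN1
  have hN0 : (0 : ℝ) < N := by exact_mod_cast hNpos
  have hN1r : (1 : ℝ) ≤ N := by exact_mod_cast hNpos
  obtain ⟨δ, hδ⟩ : ∃ δ : ℝ, δ = 1 / (((2 * E' : ℕ) : ℝ) * L2) := ⟨_, rfl⟩
  rw [← hδ] at hPN ⊢
  have hL2r : (0 : ℝ) < L2 := by exact_mod_cast hL2
  have hδ0 : 0 < δ := by rw [hδ]; positivity
  have hNδ : (N : ℝ) ^ δ ≤ q := by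
    have h1 : (N : ℝ) ^ δ ≤ ((Q : ℝ) ^ L2) ^ δ := by
      apply Real.rpow_le_rpow hN0.le _ hδ0.le
      exact_mod_cast hN2
    refine h1.trans (le_of_eq ?_)
    rw [← hqd, ← Real.rpow_natCast, ← Real.rpow_mul (by linarith)]
    congr 1
    rw [hδ]
    field_simp
  have hNδ0 : 0 < (N : ℝ) ^ δ := Real.rpow_pos_of_pos hN0 _
  have hsplit : (N : ℝ) = (N : ℝ) ^ δ * (N : ℝ) ^ (1 - δ) := by
    rw [← Real.rpow_add hN0]
    have : δ + (1 - δ) = 1 := by ring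
    rw [this, Real.rpow_one]
  have hQN : Q ≤ N := by
    have h40 : 40 ≤ lE s := by unfold lE; omega
    have h1 : Q ≤ Q ^ L1 := Nat.le_self_pow (by omega) Q
    omega
  obtain ⟨T, hT⟩ : ∃ T : ℕ, T = ⌊(N : ℝ) ^ δ⌋₊ := ⟨_, rfl⟩
  have hTq : (T : ℝ) ≤ q := by rw [hT]; exact (Nat.floor_le hNδ0.le).trans hNδ
  have hTN : T ≤ N := by
    have h1 : (T : ℝ) ≤ Q := hTq.trans (by
      have := qk_le (E := 2 * E') (Q := Q) (by omega) hQ1' (n := 1) (by omega)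
      rwa [pow_one, ← hq] at this)
    have h2 : T ≤ Q := by exact_mod_cast h1
    omega
  obtain ⟨Ts, hTs⟩ : ∃ Ts : Finset (Fin s → ℤ), Ts = Fintype.piFinset (fun _ : Fin s => Icc (-(T : ℤ)) T) := ⟨_, rfl⟩
  have hP1 : ∀ i, 1 ≤ P i := by
    intro i
    by_contra hc
    have h0 : P i = 0 := by omega
    have h1 := hPN i
    rw [h0, Nat.cast_zero, zero_pow (by have := (hF i).1; omega)] at h1
    have := Real.rpow_pos_of_pos hN0 (1 - δ)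
    linarith
  have hPi0 : 0 ≤ ∏ i, (P i : ℝ) := prod_nonneg fun _ _ => Nat.cast_nonneg _
  have hex := hQ1 Q (by omega) N hN1 hN2 B hw ε' hBs hε' hε'1 a ha (fun i => (F i).natDegree) P
  rw [← hq] at hex
  have hPN' : ∀ i, (N : ℝ) ≤ q * (P i : ℝ) ^ (F i).natDegree := by
    intro i
    calc (N : ℝ) = (N : ℝ) ^ δ * (N : ℝ) ^ (1 - δ) := hsplit
      _ ≤ q * (P i : ℝ) ^ (F i).natDegree := mul_le_mul hNδ (hPN i) (Real.rpow_nonneg hN0.le _) hq0.le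
  have ht : ∀ t ∈ Ts, ∃ E : Finset (Fin s → ℤ), (E.card : ℝ) ≤ (∏ i, (P i : ℝ)) / q ^ (2 * s + 1) ∧
      ∀ x ∈ Fintype.piFinset (fun i => Ico (0 : ℤ) (P i)), x ∉ E →
      (∀ p : ℕ, p.Prime → nuP a (fun i => (F i).eval (x i) + t i) p < p) →
      ∃ S : ℝ, HasProd (fun p : Nat.Primes => facP a (fun i => (F i).eval (x i) + t i) (p : ℕ)) S ∧
        ∀ u v : ℤ, -(N : ℤ) ≤ u → v ≤ N → (N : ℝ) / q ≤ ((v - u : ℤ) : ℝ) →
        (∀ n ∈ Ico u v, ∀ i, 1 ≤ a i * n + ((F i).eval (x i) + t i)) →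
        |(pc a (fun i => (F i).eval (x i) + t i) u v : ℝ) - S * (((v - u : ℤ) : ℝ) / Real.log N ^ s)| ≤
          ε * (S * (((v - u : ℤ) : ℝ) / Real.log N ^ s)) := by
    intro t ht
    rw [hTs, Fintype.mem_piFinset] at ht
    exact hex (fun i y => (F i).eval y + t i) hF (fun i => ⟨F i + C (t i), natDegree_add_C, fun y => by
      rw [eval_add, eval_C]⟩) hP1 hPN' (by
        intro i y hy
        rw [mem_Ico] at hy
        have h1 := hFB i y hy.1 hy.2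
        have h2 := ht i
        rw [mem_Icc] at h2
        have h3 : |t i| ≤ T := abs_le.2 h2
        have h4 := abs_add_le ((F i).eval y) (t i)
        have h5 : (T : ℤ) ≤ N := by exact_mod_cast hTN
        have h6 : (1 : ℤ) ≤ A := by exact_mod_cast hA
        have h7 : (N : ℤ) ≤ A * N := le_mul_of_one_le_left (Int.natCast_nonneg _) h6
        linarith)
  choose! Et hEt1 hEt2 using ht
  refine ⟨Ts.biUnion Et, ?_, ?_⟩
  · have hTsc : (Ts.card : ℝ) ≤ q ^ (2 * s) := by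
      have h1 : Ts.card = (2 * T + 1) ^ s := by
        rw [hTs, Fintype.card_piFinset, prod_const, card_univ, Fintype.card_fin, Int.card_Icc]
        congr 1
        omega
      rw [h1]
      push_cast
      calc (2 * (T : ℝ) + 1) ^ s ≤ (q ^ 2) ^ s := by
            apply pow_le_pow_left₀ (by positivity)
            nlinarith
        _ = q ^ (2 * s) := by rw [pow_mul]
    have h1 : ((Ts.biUnion Et).card : ℝ) ≤ ∑ t ∈ Ts, ((Et t).card : ℝ) := by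
      exact_mod_cast card_biUnion_le
    refine (h1.trans (sum_le_sum hEt1)).trans ?_
    rw [sum_const, nsmul_eq_mul]
    calc (Ts.card : ℝ) * ((∏ i, (P i : ℝ)) / q ^ (2 * s + 1)) ≤ q ^ (2 * s) * ((∏ i, (P i : ℝ)) / q ^ (2 * s + 1)) :=
          mul_le_mul_of_nonneg_right hTsc (by positivity)
      _ = q⁻¹ * ∏ i, (P i : ℝ) := by
        rw [pow_succ]
        field_simp
      _ ≤ (N : ℝ) ^ (-δ) * ∏ i, (P i : ℝ) := by
        apply mul_le_mul_of_nonneg_right _ hPi0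
        rw [Real.rpow_neg hN0.le]
        exact inv_anti₀ hNδ0 hNδ
  · intro x hx hxE h hh hadm
    obtain ⟨t, htd⟩ : ∃ t : Fin s → ℤ, t = fun i => h i - (F i).eval (x i) := ⟨_, rfl⟩
    have htT : t ∈ Ts := by
      rw [hTs, Fintype.mem_piFinset]
      intro i
      rw [mem_Icc, ← abs_le]
      have h1 := hh i
      have h2 : |t i| = ((t i).natAbs : ℤ) := Int.abs_eq_natAbs _
      rw [h2]
      have h3 : ((t i).natAbs : ℝ) ≤ (N : ℝ) ^ δ := by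
        have h4 : ((t i).natAbs : ℝ) = ((|t i| : ℤ) : ℝ) := by rw [h2]; simp
        rw [h4, htd]
        exact h1
      have h5 := Nat.le_floor h3
      rw [← hT] at h5
      exact_mod_cast h5
    have hxE' : x ∉ Et t := fun hc => hxE (mem_biUnion.2 ⟨t, htT, hc⟩)
    have hht : (fun i => (F i).eval (x i) + t i) = h := by
      funext i
      rw [htd]
      ring
    have h1 := hEt2 t htT x (by
      rw [Fintype.mem_piFinset]
      intro i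
      exact mem_Ico.2 (hx i)) hxE' (by rw [hht]; exact hadm)
    rw [hht] at h1
    obtain ⟨S, hS, h2⟩ := h1
    refine ⟨S, hS, fun u v hu hv hW hpos => ?_⟩
    apply h2 u v hu hv _ _
    · refine le_trans ?_ hW
      rw [div_le_iff₀ hq0]
      calc (N : ℝ) = (N : ℝ) ^ δ * (N : ℝ) ^ (1 - δ) := hsplit
        _ ≤ q * (N : ℝ) ^ (1 - δ) := mul_le_mul_of_nonneg_right hNδ (Real.rpow_nonneg hN0.le _)
        _ = _ := mul_comm _ _
    · intro n hn i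
      have h3 := hpos n hn i
      have h4 := congrFun hht i
      rw [h4]
      exact h3

theorem mostP (s : ℕ) (hs : 1 ≤ s) (K A : ℕ) (hA : 1 ≤ A) {ε : ℝ} (hε : 0 < ε) :
    ∃ δ : ℝ, 0 < δ ∧ ∀ N0 : ℕ, MostSc ε (fun N => N0 ≤ N ∧ PPS s K A ε δ N) := by
  have hsr : (1 : ℝ) ≤ s := by exact_mod_cast hs
  obtain ⟨ε0, hε0d⟩ : ∃ ε0 : ℝ, ε0 = min ε 1 := ⟨_, rfl⟩
  have hε00 : 0 < ε0 := by rw [hε0d]; exact lt_min hε one_pos
  have hε01 : ε0 ≤ 1 := by rw [hε0d]; exact min_le_right _ _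
  have hε0ε : ε0 ≤ ε := by rw [hε0d]; exact min_le_left _ _
  obtain ⟨E1, hE1⟩ := short_main
  obtain ⟨E2, hE2⟩ := Pool.Agent.TH823.PS.good_scales
  obtain ⟨E, hE⟩ : ∃ E : ℕ, E = E1 + E2 := ⟨_, rfl⟩
  obtain ⟨ε', hε'⟩ : ∃ ε' : ℝ, ε' = ε0 / (80 * s) := ⟨_, rfl⟩
  have hε'0 : 0 < ε' := by rw [hε']; positivity
  have hsε' : s * ε' = ε0 / 80 := by rw [hε']; field_simp
  have hε'1 : ε' ≤ 1 := by
    have : 1 * ε' ≤ s * ε' := mul_le_mul_of_nonneg_right hsr hε'0.le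
    linarith
  have hpow : (1 + ε') ^ s - 1 ≤ ε0 / 40 := by
    have h1 : (1 + ε') ^ s ≤ Real.exp (s * ε') := by
      rw [Real.exp_nat_mul]
      apply pow_le_pow_left₀ (by linarith)
      linarith [Real.add_one_le_exp ε']
    have h2 : Real.exp (s * ε') ≤ (1 - s * ε')⁻¹ := by
      have h3 := Real.add_one_le_exp (-(s * ε'))
      rw [Real.exp_neg] at h3
      have h4 : 0 < 1 - s * ε' := by rw [hsε']; linarith
      rw [le_inv_comm₀ (Real.exp_pos _) h4]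
      linarith
    have h3 : (1 - s * ε')⁻¹ ≤ 1 + ε0 / 40 := by
      rw [hsε', inv_le_iff_one_le_mul₀ (by linarith)]
      nlinarith
    linarith
  obtain ⟨L0, Q1, hQ1⟩ := hE1 E (by omega) ε' hε'0
  obtain ⟨k1, hk1⟩ := exists_nat_ge (160 * (s : ℝ) / ε0)
  obtain ⟨L1, hL1⟩ : ∃ L1 : ℕ, L1 = lE s + k1 + L0 + 6 := ⟨_, rfl⟩
  obtain ⟨k2, hk2⟩ := exists_nat_ge (((L1 : ℝ) + 1) / ε0)
  obtain ⟨L2, hL2⟩ : ∃ L2 : ℕ, L2 = k2 + 1 := ⟨_, rfl⟩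
  have hL1κ : 160 * (s : ℝ) ≤ ε0 * L1 := by
    have h1 : (k1 : ℝ) ≤ L1 := by exact_mod_cast (by omega : k1 ≤ L1)
    have h2 := hk1.trans h1
    rw [div_le_iff₀ hε00] at h2
    linarith
  have hL2κ : (L1 + 1 : ℝ) ≤ ε0 * L2 := by
    have h1 : (k2 : ℝ) ≤ L2 := by exact_mod_cast (by omega : k2 ≤ L2)
    have h2 := hk2.trans h1
    rw [div_le_iff₀ hε00] at h2
    linarith
  obtain ⟨E', hE'⟩ : ∃ E' : ℕ, E' = 1 + 2 * 2 ^ K * (s + ((2 * s + 1) + 10) + 6) + 32 := ⟨_, rfl⟩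
  obtain ⟨Q2, hQ2⟩ := fixedPP s hs K A hA hε00 hε01 L1 L2 E' (by omega) hL1κ (by omega) (by omega) (by omega)
  obtain ⟨Q3, hQ3⟩ := hw_of_short (L0 := L0) (L2 := L2 + 1)
  refine ⟨1 / (((2 * E' : ℕ) : ℝ) * L2), by
    have h1 : (0 : ℝ) < ((2 * E' : ℕ) : ℝ) := by exact_mod_cast (by omega : 0 < 2 * E')
    have h2 : (0 : ℝ) < L2 := by exact_mod_cast (by omega : 0 < L2)
    positivity, fun N0 => ?_⟩
  refine most_range (E := E) (L1 := L1) (L2 := L2) (Q0 := Q1 + Q2 + Q3 + 4 * A + N0 + 3)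
    (fun Q0 => hE2 E (by omega) 44 (by norm_num) Q0)
    (hL2κ.trans (mul_le_mul_of_nonneg_right hε0ε (Nat.cast_nonneg _))) ?_
  intro Q hQ hNE N hN1 hN2
  obtain ⟨b, hb0, hbs, hb⟩ := hQ1 Q (by omega) hNE
  have hNM : N ≤ (4 * A + 1) * N := Nat.le_mul_of_pos_left _ (by omega)
  have hw := hQ3 Q (by omega) b hb0 hb ((4 * A + 1) * N)
    (((Nat.pow_le_pow_right (by omega) (by omega : L0 + 6 ≤ L1)).trans hN1).trans hNM) (by
      calc (4 * A + 1) * N ≤ Q * Q ^ L2 := Nat.mul_le_mul (by omega) hN2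
        _ = Q ^ (L2 + 1) := by ring)
  have hp := hQ2 Q (by omega) N hN1 hN2 b hw ε' hbs hpow hε'1
  refine ⟨?_, ?_⟩
  · have h3 : Q ≤ Q ^ L1 := Nat.le_self_pow (by omega) Q
    omega
  intro a ha P F hF hPN hFB
  obtain ⟨Ex, hEx1, hEx2⟩ := hp a ha P F hF hPN hFB
  refine ⟨Ex, hEx1, fun x hx hxE h hh hadm => ?_⟩
  obtain ⟨S, hS, hS2⟩ := hEx2 x hx hxE h hh hadm
  refine ⟨S, hS, fun u v hu hv hW hpos => ?_⟩
  have h1 := hS2 u v hu hv hW hpos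
  refine h1.trans ?_
  have h2 : 0 ≤ ε0 * (S * (((v - u : ℤ) : ℝ) / Real.log N ^ s)) := (abs_nonneg _).trans h1
  have h3 : 0 ≤ S * (((v - u : ℤ) : ℝ) / Real.log N ^ s) := nonneg_of_mul_nonneg_right h2 hε00
  exact mul_le_mul_of_nonneg_right hε0ε h3

end Pool.Agent.Helper85.HP
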