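import Pool.Agent.Helper85.HP.C5

set_option autoImplicit false

/-!
# Monotonicity
-/

open Finset Filter Topology Polynomial

namespace Pool.Agent.Helper85.HP

open Pool.Agent.Helper86.PS

lemma MostSc_mono {ε : ℝ} {P R : ℕ → Prop} (h : ∀ N, P N → R N) (hP : MostSc ε P) : MostSc ε R := by
  classical
  intro R₀
  obtain ⟨T, hT, hsum⟩ := hP R₀
  refine ⟨T, hT, le_trans ?_ hsum⟩
  apply sum_le_sum_of_subset_of_nonneg
  · intro N hN
    rw [mem_filter] at hN ⊢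
    exact ⟨hN.1, fun hc => hN.2 (h N hc)⟩
  · intro N _ _
    positivity

theorem mostP' (s : ℕ) (hs : 1 ≤ s) (K A : ℕ) (hA : 1 ≤ A) {ε : ℝ} (hε : 0 < ε) :
    ∃ δ : ℝ, 0 < δ ∧ MostSc ε (PPS s K A ε δ) := by
  obtain ⟨δ, hδ, hm⟩ := mostP s hs K A hA hε
  exact ⟨δ, hδ, MostSc_mono (fun N h => h.2) (hm 0)⟩

end Pool.Agent.Helper85.HP
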