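import Pool.Agent.Helper85.HP.A4

set_option autoImplicit false

/-!
# Small coefficients
-/

open Finset Filter Topology

namespace Pool.Agent.Helper85.HP

lemma AS_powE {A K Q n : ℕ} (h : (A + 1) ^ K ≤ Q) (hn : n ≤ K) : (A + 1) ^ n ≤ Q :=
  (Nat.pow_le_pow_right (by omega) hn).trans h

lemma AS_64 {A s Q E : ℕ} (hE : 64 ≤ E) (h : (A + 1) ^ (E * (s + 2) ^ 2) ≤ Q) : (A + 1) ^ (64 * (s + 2) ^ 2) ≤ Q :=
  AS_powE h (Nat.mul_le_mul_right _ hE)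

lemma AS_qk {A m Q n E : ℕ} (hE : 64 ≤ E) (h : (A + 1) ^ (E * m) ≤ Q) (hn : n ≤ m) : ((A : ℝ) + 1) ^ n ≤ qk E Q := by
  have h1 : (A + 1) ^ (E * n) ≤ Q := AS_powE h (Nat.mul_le_mul_left _ hn)
  have h2 : (((A : ℝ) + 1) ^ n) ^ E ≤ Q := by
    rw [← pow_mul, mul_comm]
    exact_mod_cast h1
  unfold qk
  have h3 : ∀ x : ℝ, 0 ≤ x → (x ^ E) ^ (1 / (E : ℝ)) = x := by
    intro x hx
    have := Real.pow_rpow_inv_natCast hx (n := E) (by omega)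
    rw [one_div]
    exact this
  rw [← h3 (((A : ℝ) + 1) ^ n) (by positivity)]
  exact Real.rpow_le_rpow (by positivity) h2 (by positivity)

end Pool.Agent.Helper85.HP
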