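import Pool.Agent.Helper86.DZ.F4
import Pool.Agent.Helper85.HP.D1
import Pool.Agent.Helper85.HP.D2
import Pool.Agent.Helper85.HP.D4

set_option autoImplicit false

/-!
# The asymptotic formula at every scale
-/

open Finset Filter Topology

namespace Pool.Agent.Helper85.HP

open Pool.Agent.H807R2.Dav hiding KK
open Pool.Agent.Helper86.PS
open Pool.Agent.Helper86.XS
open Pool.Agent.Helper86.DZ
open Pool.Agent.Helper86.UA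

lemma four_A {A s Q e : ℕ} (he : 64 ≤ e) (h : (A + 1) ^ (e * (s + 2) ^ 2) ≤ Q) : 4 * A + 1 ≤ Q := by
  have h1 := AS_powE h (n := 3) (by
    have h0 : 1 ≤ (s + 2) ^ 2 := Nat.one_le_pow _ _ (by omega)
    have h2 := Nat.mul_le_mul (by omega : 3 ≤ e) h0
    omega)
  have h3 : 4 * A + 1 ≤ (A + 1) ^ 3 := by
    have e1 : (A + 1) ^ 3 = A * (A * A) + 3 * (A * A) + 3 * A + 1 := by ring
    have e2 : A ≤ A * A := Nat.le_mul_self A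
    rw [e1]
    omega
  exact h3.trans h1

/-- **the asymptotic formula at every scale** for good vectors, with at most one exceptional modulus -/
theorem everyX (s : ℕ) (hs : 1 ≤ s) {ε : ℝ} (hε : 0 < ε) :
    ∃ D : ℕ, 0 < D ∧ ∃ L1 L2 : ℕ, lE s ≤ L1 ∧ 1 ≤ L2 ∧ ∀ e : ℕ, 64 ≤ e → ∀ B Q0 : ℕ, ∃ N0 : ℕ, ∀ N : ℕ, N0 ≤ N →
    ∃ Q : ℕ, Q0 ≤ Q ∧ Q ^ L1 ≤ N ∧ N ≤ Q ^ L2 ∧ ∃ r : ℕ, Real.log N ^ B ≤ r ∧
    ∀ A : ℕ, 1 ≤ A → (A + 1) ^ (e * (s + 2) ^ 2) ≤ Q →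
      (∃ B' : PC → ℝ, HW Q ((4 * A + 1) * N) B' ∧ ∑ j ∈ fam Q, B' j ≤ 3) ∧
      ∀ a h : Fin s → ℤ, (∀ i, a i ≠ 0) → (∀ i, |a i| ≤ A) → (∀ i, |h i| ≤ 2 * A * N) → GoodH e Q N A a h →
        ¬ (r : ℤ) ∣ (D : ℤ) * (Del a h * ∏ i, a i) → (∀ p : ℕ, p.Prime → nuP a h p < p) →
        ∀ S : ℝ, HasProd (fun p : Nat.Primes => facP a h (p : ℕ)) S → ∀ u v : ℤ, -(2 * N : ℤ) ≤ u → v ≤ 2 * N →
        (N : ℝ) / qk e Q ≤ ((v - u : ℤ) : ℝ) → (∀ n ∈ Ico u v, ∀ i, 1 ≤ a i * n + h i) →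
        |(pc a h u v : ℝ) - S * (((v - u : ℤ) : ℝ) / Real.log N ^ s)| ≤ ε * (S * (((v - u : ℤ) : ℝ) / Real.log N ^ s)) := by
  classical
  have hsr : (1 : ℝ) ≤ s := by exact_mod_cast hs
  obtain ⟨ε0, hε0d⟩ : ∃ ε0 : ℝ, ε0 = min ε 1 := ⟨_, rfl⟩
  have hε00 : 0 < ε0 := by rw [hε0d]; exact lt_min hε one_pos
  have hε01 : ε0 ≤ 1 := by rw [hε0d]; exact min_le_right _ _
  have hε0ε : ε0 ≤ ε := by rw [hε0d]; exact min_le_left _ _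
  obtain ⟨E1, hE1⟩ := short_X
  obtain ⟨E2, hE2⟩ := unique_exc
  obtain ⟨E3, hE3⟩ := small_level
  obtain ⟨E, hE⟩ : ∃ E : ℕ, E = E1 + E2 + E3 := ⟨_, rfl⟩
  obtain ⟨ε', hε'⟩ : ∃ ε' : ℝ, ε' = ε0 / (80 * s * 4 ^ s) := ⟨_, rfl⟩
  have h4s : (1 : ℝ) ≤ 4 ^ s := one_le_pow₀ (by norm_num)
  have hε'0 : 0 < ε' := by rw [hε']; positivity
  have hε'1 : ε' ≤ 1 := by
    rw [hε', div_le_one (by positivity)]
    have : 1 ≤ (s : ℝ) * 4 ^ s := one_le_mul_of_one_le_of_one_le hsr h4s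
    linarith
  have hpow : (3 + ε') ^ s - 3 ^ s ≤ ε0 / 80 := by
    refine (pow_three_small hε'0.le hε'1 s).trans (le_of_eq ?_)
    rw [hε']
    field_simp
  obtain ⟨L0, Q1, hQ1⟩ := hE1 E (by omega) ε' hε'0
  obtain ⟨k1, hk1⟩ := exists_nat_ge (160 * (s : ℝ) / ε0)
  obtain ⟨L1, hL1⟩ : ∃ L1 : ℕ, L1 = lE s + k1 + L0 + 6 := ⟨_, rfl⟩
  obtain ⟨L2, hL2⟩ : ∃ L2 : ℕ, L2 = 2 * L1 := ⟨_, rfl⟩
  have hL1κ : 160 * (s : ℝ) ≤ ε0 * L1 := by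
    have h1 : (k1 : ℝ) ≤ L1 := by exact_mod_cast (by omega : k1 ≤ L1)
    have h2 := hk1.trans h1
    rw [div_le_iff₀ hε00] at h2
    linarith
  obtain ⟨k9, hk9⟩ := exists_nat_ge ((4 * (s : ℝ) / (ε0 / 10 / (8 * 3 ^ s))) ^ 2)
  obtain ⟨K0, hK0⟩ : ∃ K0 : ℕ, K0 = 8 + 2 * s + k9 := ⟨_, rfl⟩
  have hKρ : (4 * (s : ℝ) / (ε0 / 10 / (8 * 3 ^ s))) ^ 2 ≤ K0 :=
    hk9.trans (by exact_mod_cast (by omega : k9 ≤ K0))
  refine ⟨K0.factorial, Nat.factorial_pos K0, L1, L2, by omega, by omega, fun e he B Q0 => ?_⟩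
  obtain ⟨Q2, hQ2⟩ := per_hXE he s hs (κ := ε0 / 10) (by positivity) (by linarith) L1 L2 (by omega) (by linarith)
  obtain ⟨Q3, hQ3⟩ := hx_of_short (L0 := L0) (L2 := L2 + 1)
  obtain ⟨Q4, hQ4⟩ := hE3 E (by omega) 44 (by norm_num) (B + 1)
  obtain ⟨Q5, hQ5⟩ := exists_nat_ge (Real.exp ((2 * (L1 : ℝ)) ^ B))
  obtain ⟨Qa, hQa⟩ : ∃ Qa : ℕ, Qa = Q1 + Q2 + Q3 + Q4 + Q5 + Q0 + 3 := ⟨_, rfl⟩
  refine ⟨Qa ^ L1, fun N hN => ?_⟩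
  obtain ⟨Q, hQQ, hN1, hN2⟩ := exists_Q (by omega) (by omega) hN
  rw [← hL2] at hN2
  have hQ3n : 3 ≤ Q := by omega
  have hQ3r : (3 : ℝ) ≤ Q := by exact_mod_cast hQ3n
  have hQ0 : (0 : ℝ) < Q := by linarith
  obtain ⟨X, hX⟩ : ∃ X : Finset PC, X = (fam Q).filter (fun j => ¬ NX 44 E Q j.2) := ⟨_, rfl⟩
  have hX1 : X ⊆ fam Q := by rw [hX]; exact filter_subset _ _
  have hXe : ∀ j ∈ X, j ∈ fam Q ∧ ¬ NX 44 E Q j.2 := by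
    intro j hj
    rw [hX, mem_filter] at hj
    exact hj
  have hX2 : X.card ≤ 1 := card_le_one.2 fun j hj l hl =>
    hE2 E (by omega) 44 Q (by norm_num) hQ3n j (hXe j hj).1 l (hXe l hl).1 (hXe j hj).2 (hXe l hl).2
  have hX3 : ∀ j ∈ X, j.2 ≠ 1 ∧ j.2 ^ 2 = 1 := by
    intro j hj
    have h1 := (hXe j hj).2
    unfold NX at h1
    push Not at h1
    exact ⟨h1.1, h1.2.1⟩
  obtain ⟨b, hb0, hbs, hb⟩ := hQ1 Q (by omega)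
  have hp' : ∀ A : ℕ, 1 ≤ A → (A + 1) ^ (e * (s + 2) ^ 2) ≤ Q → HX Q ((4 * A + 1) * N) b X := by
    intro A hA hAQ
    have hA4 := four_A he hAQ
    have hNM : N ≤ (4 * A + 1) * N := Nat.le_mul_of_pos_left N (by omega)
    exact hQ3 Q (by omega) X hX1 hX2 (fun j hj => (hX3 j hj).1) b hb0 (hbs.trans hε'1) (by
      intro j hj hjX
      apply hb j hj
      by_contra hc
      apply hjX
      rw [hX, mem_filter]
      exact ⟨hj, hc⟩) ((4 * A + 1) * N)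
      (((Nat.pow_le_pow_right (by omega) (by omega : L0 + 6 ≤ L1)).trans hN1).trans hNM) (by
        calc (4 * A + 1) * N ≤ Q * Q ^ L2 := Nat.mul_le_mul hA4 hN2
          _ = Q ^ (L2 + 1) := by ring)
  have hfin : ∀ r : ℕ, (∀ j ∈ X, j.1 + 1 = r) → ∀ A : ℕ, 1 ≤ A → (A + 1) ^ (e * (s + 2) ^ 2) ≤ Q →
      (∃ B' : PC → ℝ, HW Q ((4 * A + 1) * N) B' ∧ ∑ j ∈ fam Q, B' j ≤ 3) ∧
      ∀ a h : Fin s → ℤ, (∀ i, a i ≠ 0) → (∀ i, |a i| ≤ A) → (∀ i, |h i| ≤ 2 * A * N) → GoodH e Q N A a h →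
        ¬ (r : ℤ) ∣ (K0.factorial : ℤ) * (Del a h * ∏ i, a i) → (∀ p : ℕ, p.Prime → nuP a h p < p) →
        ∀ S : ℝ, HasProd (fun p : Nat.Primes => facP a h (p : ℕ)) S → ∀ u v : ℤ, -(2 * N : ℤ) ≤ u → v ≤ 2 * N →
        (N : ℝ) / qk e Q ≤ ((v - u : ℤ) : ℝ) → (∀ n ∈ Ico u v, ∀ i, 1 ≤ a i * n + h i) →
        |(pc a h u v : ℝ) - S * (((v - u : ℤ) : ℝ) / Real.log N ^ s)| ≤ ε * (S * (((v - u : ℤ) : ℝ) / Real.log N ^ s)) := by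
    intro r hr A hA hAQ
    have hw := hp' A hA hAQ
    refine ⟨⟨_, HX_HW hw, HX_sum hw (hbs.trans hε'1)⟩, ?_⟩
    intro a h ha haA hh hG hnd hadm S hS u v hu hv hW hpos
    have h1 := hQ2 Q (by omega) A hAQ N hN1 hN2 b X hw (fun j hj => (hX3 j hj).2) ε' hbs (by linarith) K0 (by omega) (by omega)
      hKρ a h ha haA hh hG.1 (fun j hj => by rw [hr j hj]; exact hnd) hadm hG.2 S hS u v hu hv hW hpos
    have e2 : 10 * (ε0 / 10) = ε0 := by ring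
    rw [e2] at h1
    refine h1.trans ?_
    have h2 : 0 ≤ ε0 * (S * (((v - u : ℤ) : ℝ) / Real.log N ^ s)) := (abs_nonneg _).trans h1
    have h3 : 0 ≤ S * (((v - u : ℤ) : ℝ) / Real.log N ^ s) := nonneg_of_mul_nonneg_right h2 hε00
    exact mul_le_mul_of_nonneg_right hε0ε h3
  refine ⟨Q, by omega, hN1, hN2, ?_⟩
  rcases X.eq_empty_or_nonempty with hXE | hXne
  · obtain ⟨r, hr⟩ := exists_nat_ge (Real.log N ^ B)
    refine ⟨r, hr, hfin r ?_⟩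
    intro j hj
    rw [hXE] at hj
    exact absurd hj (notMem_empty j)
  · obtain ⟨j1, hj1⟩ := hXne
    refine ⟨j1.1 + 1, ?_, hfin _ ?_⟩
    · obtain ⟨ℓ, hℓ⟩ : ∃ ℓ : ℝ, ℓ = Real.log Q := ⟨_, rfl⟩
      have hlev : Real.log Q ^ (B + 1) ≤ ((j1.1 + 1 : ℕ) : ℝ) := by
        by_contra hc
        push Not at hc
        have hprim := (mem_fam.1 (hXe j1 hj1).1).2
        exact (hXe j1 hj1).2 (hQ4 Q (by omega) (j1.1 + 1) hc.le j1.2 hprim)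
      have hN0 : (0 : ℝ) < N := by
        have : 0 < N := lt_of_lt_of_le (by positivity) hN1
        exact_mod_cast this
      have hlN : Real.log N ≤ 2 * L1 * ℓ := by
        have h1 : Real.log N ≤ Real.log ((Q : ℝ) ^ L2) := Real.log_le_log hN0 (by exact_mod_cast hN2)
        rw [Real.log_pow, ← hℓ, hL2] at h1
        push_cast at h1
        exact h1
      have hℓ2 : (2 * (L1 : ℝ)) ^ B ≤ ℓ := by
        rw [hℓ, Real.le_log_iff_exp_le hQ0]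
        exact hQ5.trans (by exact_mod_cast (by omega : Q5 ≤ Q))
      have hℓ0 : 0 ≤ ℓ := le_trans (by positivity) hℓ2
      calc Real.log N ^ B ≤ (2 * L1 * ℓ) ^ B := pow_le_pow_left₀ (Real.log_natCast_nonneg N) hlN B
        _ = (2 * (L1 : ℝ)) ^ B * ℓ ^ B := by rw [mul_pow]
        _ ≤ ℓ * ℓ ^ B := mul_le_mul_of_nonneg_right hℓ2 (by positivity)
        _ = ℓ ^ (B + 1) := by ring
        _ ≤ _ := by rw [hℓ]; exact hlev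
    · intro j hj
      have : j = j1 := card_le_one.1 hX2 j hj j1 hj1
      rw [this]

end Pool.Agent.Helper85.HP
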