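import Pool.Agent.Helper85.HP.D5

set_option autoImplicit false

/-!
# The lower bound at every scale
-/

open Finset Filter Topology

namespace Pool.Agent.Helper85.HP

open Pool.Agent.H807R2.Dav hiding KK
open Pool.Agent.Helper86.PS
open Pool.Agent.Helper86.XS
open Pool.Agent.Helper86.DZ
open Pool.Agent.Helper86.UA

/-- **the lower bound at every scale** for good vectors -/
theorem everyL (s : ℕ) (hs : 1 ≤ s) :
    ∃ c : ℝ, 0 < c ∧ ∃ L1 L2 : ℕ, lE s ≤ L1 ∧ 1 ≤ L2 ∧ ∀ e : ℕ, 64 ≤ e → ∀ κ : ℝ, 0 < κ → ∀ Q0 : ℕ, ∃ N0 : ℕ, ∀ N : ℕ, N0 ≤ N →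
    ∃ Q : ℕ, Q0 ≤ Q ∧ Q ^ L1 ≤ N ∧ N ≤ Q ^ L2 ∧ ∃ θ : ℝ, (N : ℝ) ^ (-κ) ≤ θ ∧ θ ≤ 1 ∧
    ∀ A : ℕ, 1 ≤ A → (A + 1) ^ (e * (s + 2) ^ 2) ≤ Q →
      (∃ B' : PC → ℝ, HW Q ((4 * A + 1) * N) B' ∧ ∑ j ∈ fam Q, B' j ≤ 3) ∧
      ∀ a h : Fin s → ℤ, (∀ i, a i ≠ 0) → (∀ i, |a i| ≤ A) → (∀ i, |h i| ≤ 2 * A * N) → GoodH e Q N A a h →
        (∀ p : ℕ, p.Prime → nuP a h p < p) →
        ∀ S : ℝ, HasProd (fun p : Nat.Primes => facP a h (p : ℕ)) S → ∀ u v : ℤ, -(2 * N : ℤ) ≤ u → v ≤ 2 * N →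
        (N : ℝ) / qk e Q ≤ ((v - u : ℤ) : ℝ) → (∀ n ∈ Ico u v, ∀ i, 1 ≤ a i * n + h i) →
        c * θ ^ s * (S * (((v - u : ℤ) : ℝ) / Real.log N ^ s)) ≤ (pc a h u v : ℝ) := by
  classical
  have hsr : (1 : ℝ) ≤ s := by exact_mod_cast hs
  obtain ⟨ε0, hε0d⟩ : ∃ ε0 : ℝ, ε0 = 1 / 2 := ⟨_, rfl⟩
  have hε00 : 0 < ε0 := by rw [hε0d]; norm_num
  have hε01 : ε0 ≤ 1 := by rw [hε0d]; norm_num
  obtain ⟨θ0, hθ00, hθ08, Ld, hd⟩ := hd_main (s + 1) (by omega)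
  have h32 : (1 : ℝ) ≤ 32 ^ s := one_le_pow₀ (by norm_num)
  obtain ⟨θ1, hθ1⟩ : ∃ θ1 : ℝ, θ1 = min θ0 (1 / (32 * s * 32 ^ s)) := ⟨_, rfl⟩
  have hθ10 : 0 < θ1 := by rw [hθ1]; exact lt_min hθ00 (by positivity)
  have hθ11 : θ1 ≤ θ0 := by rw [hθ1]; exact min_le_left _ _
  have hθ12 : θ1 ≤ 1 / (32 * s * 32 ^ s) := by rw [hθ1]; exact min_le_right _ _
  obtain ⟨E0, hE0⟩ := exc_zero θ1 hθ10
  obtain ⟨E1, hE1⟩ := short_X
  obtain ⟨E2, hE2⟩ := unique_exc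
  obtain ⟨E, hE⟩ : ∃ E : ℕ, E = E0 + E1 + E2 := ⟨_, rfl⟩
  obtain ⟨ε', hε'⟩ : ∃ ε' : ℝ, ε' = ε0 / (80 * s * 4 ^ s) := ⟨_, rfl⟩
  have h4s : (1 : ℝ) ≤ 4 ^ s := one_le_pow₀ (by norm_num)
  have hε'0 : 0 < ε' := by rw [hε']; positivity
  have hε'1 : ε' ≤ 1 := by
    rw [hε', div_le_one (by positivity)]
    have : 1 ≤ (s : ℝ) * 4 ^ s := one_le_mul_of_one_le_of_one_le hsr h4s
    linarith
  have hpow : (3 + ε') ^ s - 3 ^ s ≤ ε0 / 80 := by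
    refine (pow_three_small hε'0.le hε'1 s).trans (le_of_eq ?_)
    rw [hε']
    field_simp
  obtain ⟨L0, Q1, hQ1⟩ := hE1 E (by omega) ε' hε'0
  obtain ⟨k1, hk1⟩ := exists_nat_ge (160 * (s : ℝ) / ε0)
  obtain ⟨L1, hL1⟩ : ∃ L1 : ℕ, L1 = lE s + k1 + L0 + Ld + 6 := ⟨_, rfl⟩
  obtain ⟨L2, hL2⟩ : ∃ L2 : ℕ, L2 = 2 * L1 := ⟨_, rfl⟩
  have hL1κ : 160 * (s : ℝ) ≤ ε0 * L1 := by
    have h1 : (k1 : ℝ) ≤ L1 := by exact_mod_cast (by omega : k1 ≤ L1)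
    have h2 := hk1.trans h1
    rw [div_le_iff₀ hε00] at h2
    linarith
  obtain ⟨k9, hk9⟩ := exists_nat_ge ((4 * (s : ℝ) / (ε0 / 10 / (8 * 3 ^ s))) ^ 2)
  obtain ⟨K0, hK0⟩ : ∃ K0 : ℕ, K0 = 8 + 2 * s + k9 := ⟨_, rfl⟩
  have hKρ : (4 * (s : ℝ) / (ε0 / 10 / (8 * 3 ^ s))) ^ 2 ≤ K0 :=
    hk9.trans (by exact_mod_cast (by omega : k9 ≤ K0))
  refine ⟨1 / (8 ^ s * 2 ^ (s + 3)), by positivity, L1, L2, by omega, by omega, fun e he κ hκ Q0 => ?_⟩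
  have he0 : (0 : ℝ) < e := by exact_mod_cast (by omega : 0 < e)
  obtain ⟨Q2, hQ2⟩ := per_hXE he s hs (κ := ε0 / 10) (by positivity) (by linarith) L1 L2 (by omega) (by linarith)
  obtain ⟨Q3, hQ3⟩ := hx_of_short (L0 := L0) (L2 := L2 + 1)
  obtain ⟨Q4, hQ4⟩ := per_hLE he s hs L1 L2 (by omega)
  obtain ⟨Q5, hQ5⟩ := hd (L2 + 1)
  obtain ⟨κ1, hκ1⟩ : ∃ κ1 : ℝ, κ1 = min κ (1 / (2 * e * s)) := ⟨_, rfl⟩
  have hκ10 : 0 < κ1 := by rw [hκ1]; exact lt_min hκ (by positivity)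
  have hκ1κ : κ1 ≤ κ := by rw [hκ1]; exact min_le_left _ _
  have hκ1e : κ1 * s ≤ 1 / (2 * e) := by
    have h1 : κ1 ≤ 1 / (2 * e * s) := by rw [hκ1]; exact min_le_right _ _
    calc κ1 * s ≤ 1 / (2 * e * s) * s := mul_le_mul_of_nonneg_right h1 (by linarith)
      _ = 1 / (2 * e) := by field_simp
  obtain ⟨Q6, hQ6⟩ := siegel_scale s hκ10
  obtain ⟨Q7, hQ7⟩ := ev_log ((8 : ℝ) ^ s) 0 (a := 1 / (2 * (e : ℝ))) (by positivity)
  obtain ⟨Qa, hQa⟩ : ∃ Qa : ℕ, Qa = Q1 + Q2 + Q3 + Q4 + Q5 + Q6 + Q7 + Q0 + 3 := ⟨_, rfl⟩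
  refine ⟨Qa ^ L1, fun N hN => ?_⟩
  obtain ⟨Q, hQQ, hN1, hN2⟩ := exists_Q (by omega) (by omega) hN
  rw [← hL2] at hN2
  have hQ3n : 3 ≤ Q := by omega
  have hQ3r : (3 : ℝ) ≤ Q := by exact_mod_cast hQ3n
  have hQ0 : (0 : ℝ) < Q := by linarith
  obtain ⟨X, hX⟩ : ∃ X : Finset PC, X = (fam Q).filter (fun j => ¬ NX 44 E Q j.2) := ⟨_, rfl⟩
  have hX1 : X ⊆ fam Q := by rw [hX]; exact filter_subset _ _
  have hXe : ∀ j ∈ X, j ∈ fam Q ∧ ¬ NX 44 E Q j.2 := by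
    intro j hj
    rw [hX, mem_filter] at hj
    exact hj
  have hX2 : X.card ≤ 1 := card_le_one.2 fun j hj l hl =>
    hE2 E (by omega) 44 Q (by norm_num) hQ3n j (hXe j hj).1 l (hXe l hl).1 (hXe j hj).2 (hXe l hl).2
  have hX3 : ∀ j ∈ X, j.2 ≠ 1 ∧ j.2 ^ 2 = 1 := by
    intro j hj
    have h1 := (hXe j hj).2
    unfold NX at h1
    push Not at h1
    exact ⟨h1.1, h1.2.1⟩
  have hN1n : 1 ≤ N := le_trans (Nat.one_le_pow _ _ (by omega)) hN1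
  have hN1r : (1 : ℝ) ≤ N := by exact_mod_cast hN1n
  refine ⟨Q, by omega, hN1, hN2, ?_⟩
  rcases X.eq_empty_or_nonempty with hXE | hXne
  · obtain ⟨b, hb0, hbs, hb⟩ := hQ1 Q (by omega)
    refine ⟨1, Real.rpow_le_one_of_one_le_of_nonpos hN1r (by linarith), le_rfl, fun A hA hAQ => ?_⟩
    have hA4 := four_A he hAQ
    have hNM : N ≤ (4 * A + 1) * N := Nat.le_mul_of_pos_left N (by omega)
    have hMup : (4 * A + 1) * N ≤ Q ^ (L2 + 1) := by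
      calc (4 * A + 1) * N ≤ Q * Q ^ L2 := Nat.mul_le_mul hA4 hN2
        _ = Q ^ (L2 + 1) := by ring
    have hw := hQ3 Q (by omega) X hX1 hX2 (fun j hj => (hX3 j hj).1) b hb0 (hbs.trans hε'1) (by
      intro j hj hjX
      apply hb j hj
      by_contra hc
      apply hjX
      rw [hX, mem_filter]
      exact ⟨hj, hc⟩) ((4 * A + 1) * N)
      (((Nat.pow_le_pow_right (by omega) (by omega : L0 + 6 ≤ L1)).trans hN1).trans hNM) hMup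
    refine ⟨⟨_, HX_HW hw, HX_sum hw (hbs.trans hε'1)⟩, ?_⟩
    intro a h ha haA hh hG hadm S hS u v hu hv hW hpos
    have h1 := hQ2 Q (by omega) A hAQ N hN1 hN2 b X hw (fun j hj => (hX3 j hj).2) ε' hbs (by linarith) K0 (by omega) (by omega)
      hKρ a h ha haA hh hG.1 (fun j hj => by
        rw [hXE] at hj
        exact absurd hj (notMem_empty j)) hadm hG.2 S hS u v hu hv hW hpos
    have e2 : 10 * (ε0 / 10) = 1 / 2 := by rw [hε0d]; norm_num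
    rw [e2] at h1
    obtain ⟨w, hw'⟩ : ∃ w : ℝ, w = S * (((v - u : ℤ) : ℝ) / Real.log N ^ s) := ⟨_, rfl⟩
    rw [← hw'] at h1 ⊢
    have h2 : 0 ≤ 1 / 2 * w := (abs_nonneg _).trans h1
    have h3 := (abs_le.1 h1).1
    rw [one_pow, mul_one]
    have h4 : (1 : ℝ) / (8 ^ s * 2 ^ (s + 3)) ≤ 1 / 2 := by
      apply div_le_div_of_nonneg_left (by norm_num) (by norm_num)
      have h8 : (1 : ℝ) ≤ 8 ^ s := one_le_pow₀ (by norm_num)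
      have h2 : (2 : ℝ) ≤ 2 ^ (s + 3) := by
        calc (2 : ℝ) = 2 ^ 1 := by norm_num
          _ ≤ 2 ^ (s + 3) := pow_le_pow_right₀ (by norm_num) (by omega)
      calc (2 : ℝ) = 1 * 2 := by norm_num
        _ ≤ 8 ^ s * 2 ^ (s + 3) := mul_le_mul h8 h2 (by norm_num) (by positivity)
    have h5 : 1 / (8 ^ s * 2 ^ (s + 3)) * w ≤ 1 / 2 * w := mul_le_mul_of_nonneg_right h4 (by linarith)
    linarith
  · obtain ⟨j1, hj1⟩ := hXne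
    obtain ⟨hjf, hjn⟩ := hXe j1 hj1
    obtain ⟨hj11, hj12⟩ := hX3 j1 hj1
    have hjm := mem_fam.1 hjf
    obtain ⟨b, hb1, hLb, hθb⟩ := hE0 E (by omega) 44 Q (by norm_num) hQ3n (j1.1 + 1) hjm.1 j1.2 hjn
    obtain ⟨g1, g2, g3⟩ := hQ6 Q (by omega) j1 hjf hj11 hj12 b hb1 hLb
    obtain ⟨θ, hθ⟩ : ∃ θ : ℝ, θ = (1 - b) * Real.log Q := ⟨_, rfl⟩
    have hθle1 : θ ≤ 1 := by rw [hθ]; linarith
    have hd1 := hQ5 Q (by omega) j1 hjf hj11 hj12 b hb1 hLb (hθb.trans hθ11) (g2 (by rw [← hθ]; exact hθle1))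
    rw [← hθ] at g1 hθb hd1
    clear g3
    have hθ0 : 0 < θ := lt_of_lt_of_le (Real.rpow_pos_of_pos hQ0 _) g1
    obtain ⟨B, hBs, hB⟩ := hd1
    have hθs : θ ≤ 1 / (32 * s * 32 ^ s) := hθb.trans hθ12
    rw [le_div_iff₀ (by positivity)] at hθs
    -- `32 s 32^s θ ≤ 1`
    have hθ1024 : 1024 * θ ≤ 1 := by
      have h1 : (32 : ℝ) ≤ 32 ^ s := by
        calc (32 : ℝ) = 32 ^ 1 := by norm_num
          _ ≤ 32 ^ s := pow_le_pow_right₀ (by norm_num) hs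
      have h2 : (1024 : ℝ) ≤ 32 * s * 32 ^ s := by
        calc (1024 : ℝ) = 32 * 1 * 32 := by norm_num
          _ ≤ 32 * s * 32 ^ s := mul_le_mul (mul_le_mul_of_nonneg_left hsr (by norm_num)) h1 (by norm_num) (by positivity)
      have h3 : 1024 * θ ≤ 32 * s * 32 ^ s * θ := mul_le_mul_of_nonneg_right h2 hθ0.le
      linarith
    have hθs1 : θ ^ s ≤ θ := by
      calc θ ^ s ≤ θ ^ 1 := pow_le_pow_of_le_one hθ0.le hθle1 hs
        _ = θ := pow_one θ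
    have hθs0 : 0 < θ ^ s := by positivity
    have hε2 : 2 * (2 * θ ^ (s + 1)) ≤ θ / 4 := by
      rw [pow_succ]
      have : θ ^ s * θ ≤ θ * θ := mul_le_mul_of_nonneg_right hθs1 hθ0.le
      nlinarith
    have hε1 : 2 * θ ^ (s + 1) ≤ 1 := by linarith
    have hε3 : (3 + 2 * θ ^ (s + 1)) ^ s - 3 ^ s ≤ (θ / 4 / 2) ^ s / 16 := by
      refine (pow_three_small (by positivity) hε1 s).trans ?_
      have f2 : (θ / 4 / 2) ^ s = θ ^ s / 8 ^ s := by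
        rw [div_div, div_pow]
        norm_num
      rw [f2, div_div, le_div_iff₀ (by positivity)]
      calc (s : ℝ) * (2 * θ ^ (s + 1)) * 4 ^ s * (8 ^ s * 16) = θ ^ s * (θ * (32 * s * (4 ^ s * 8 ^ s))) := by ring
        _ = θ ^ s * (θ * (32 * s * 32 ^ s)) := by
            rw [← mul_pow]
            norm_num
        _ ≤ θ ^ s * 1 := mul_le_mul_of_nonneg_left hθs hθs0.le
        _ = θ ^ s := mul_one _
    have g3 : 1 ≤ (θ / 4 / 2) ^ s * qk e Q := by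
      have h8 := hQ7 Q (by omega)
      rw [pow_zero, mul_one] at h8
      have f1 : ((Q : ℝ) ^ (-κ1)) ^ s ≤ θ ^ s := pow_le_pow_left₀ (Real.rpow_nonneg hQ0.le _) g1 s
      have f2 : (Q : ℝ) ^ (-(1 / (2 * (e : ℝ)))) ≤ ((Q : ℝ) ^ (-κ1)) ^ s := by
        rw [← Real.rpow_natCast, ← Real.rpow_mul hQ0.le]
        apply Real.rpow_le_rpow_of_exponent_le (by linarith)
        linarith
      have f3 : (Q : ℝ) ^ (1 / (2 * (e : ℝ))) = (Q : ℝ) ^ (-(1 / (2 * (e : ℝ)))) * qk e Q := by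
        unfold qk
        rw [← Real.rpow_add hQ0]
        congr 1
        field_simp
        norm_num
      have f4 : (θ / 4 / 2) ^ s = θ ^ s / 8 ^ s := by
        rw [div_div, div_pow]
        norm_num
      have hq0 : 0 ≤ qk e Q := by unfold qk; positivity
      rw [f4, div_mul_eq_mul_div, le_div_iff₀ (by positivity), one_mul]
      calc (8 : ℝ) ^ s ≤ (Q : ℝ) ^ (1 / (2 * (e : ℝ))) := h8
        _ = (Q : ℝ) ^ (-(1 / (2 * (e : ℝ)))) * qk e Q := f3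
        _ ≤ θ ^ s * qk e Q := mul_le_mul_of_nonneg_right (f2.trans f1) hq0
    refine ⟨θ, ?_, hθle1, fun A hA hAQ => ?_⟩
    · refine le_trans ?_ g1
      calc (N : ℝ) ^ (-κ) ≤ (Q : ℝ) ^ (-κ) := by
            apply Real.rpow_le_rpow_of_nonpos hQ0 _ (by linarith)
            exact_mod_cast (Nat.le_self_pow (by omega) Q).trans hN1
        _ ≤ (Q : ℝ) ^ (-κ1) := Real.rpow_le_rpow_of_exponent_le (by linarith) (by linarith)
    · have hA4 := four_A he hAQ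
      have hNM : N ≤ (4 * A + 1) * N := Nat.le_mul_of_pos_left N (by omega)
      have hMup : (4 * A + 1) * N ≤ Q ^ (L2 + 1) := by
        calc (4 * A + 1) * N ≤ Q * Q ^ L2 := Nat.mul_le_mul hA4 hN2
          _ = Q ^ (L2 + 1) := by ring
      have hHD := hB ((4 * A + 1) * N)
        (((Nat.pow_le_pow_right (by omega) (by omega : Ld + 6 ≤ L1)).trans hN1).trans hNM) hMup
      have hg0 : (0 : ℝ) ≤ θ / 4 := by positivity
      refine ⟨⟨_, HX_HW (HD_HX hg0 hHD), HX_sum (HD_HX hg0 hHD) (hBs.trans hε1)⟩, ?_⟩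
      intro a h ha haA hh hG hadm S hS u v hu hv hW hpos
      have hp := hQ4 Q (by omega) A hAQ N hN1 hN2 B j1 (θ / 4) hHD hj12 hg0 (by linarith) (2 * θ ^ (s + 1)) hBs
        hε1 hε2 hε3 g3 a h ha haA hh hG.1 hadm hG.2 S hS u v hu hv hW hpos
      have e1 : 1 / (8 ^ s * 2 ^ (s + 3)) * θ ^ s = (θ / 4 / 2) ^ s / 2 ^ (s + 3) := by
        have f2 : (θ / 4 / 2) ^ s = θ ^ s / 8 ^ s := by
          rw [div_div, div_pow]
          norm_num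
        rw [f2]
        field_simp
      rw [e1]
      exact hp

end Pool.Agent.Helper85.HP
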