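import Pool.Agent.Helper85.HP.D6
import Pool.Agent.Helper86.PS.H10

set_option autoImplicit false

/-!
# Every scale, polynomial shifts
-/

open Finset Filter Topology Polynomial

namespace Pool.Agent.Helper85.HP

open Pool.Agent.H807R2.Dav hiding KK
open Pool.Agent.Helper86.PS

/-- coefficients up to a small power of the scale -/
lemma small_coeff {k m L : ℕ} (hk : 1 ≤ k) (hL : 1 ≤ L) {δ : ℝ} (hδ : δ = 1 / (2 * ((k * m * L : ℕ) : ℝ))) (hm : 1 ≤ m) :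
    ∃ N0 : ℕ, ∀ N : ℕ, N0 ≤ N → (1 ≤ ⌈(N : ℝ) ^ δ⌉₊ ∧ (N : ℝ) ^ δ ≤ ⌈(N : ℝ) ^ δ⌉₊ ∧ 2 ≤ (N : ℝ) ^ δ) ∧
      ∀ Q L' : ℕ, L' ≤ L → 1 ≤ Q → N ≤ Q ^ L' → (⌈(N : ℝ) ^ δ⌉₊ + 1) ^ (k * m) ≤ Q ∧ (N : ℝ) ^ (2 * δ) ≤ qk k Q := by
  obtain ⟨K, hK⟩ : ∃ K : ℕ, K = k * m * L := ⟨_, rfl⟩
  have hK1 : 0 < K := by rw [hK]; positivity
  rw [← hK] at hδ
  have hK0 : (0 : ℝ) < K := by exact_mod_cast hK1
  have hδ0 : 0 < δ := by rw [hδ]; positivity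
  have hδK : δ * K ≤ 1 / 2 := by
    rw [hδ]
    apply le_of_eq
    field_simp
  obtain ⟨N3, hN3⟩ := ev_log 2 0 (a := δ) hδ0
  refine ⟨N3 + (3 ^ K) ^ 2 + 1, fun N hN => ?_⟩
  have h3 := hN3 N (by omega)
  rw [pow_zero, mul_one] at h3
  have hN1r : (1 : ℝ) ≤ N := by exact_mod_cast (by omega : 1 ≤ N)
  have hN0 : (0 : ℝ) < N := by linarith
  obtain ⟨A, hA⟩ : ∃ A : ℕ, A = ⌈(N : ℝ) ^ δ⌉₊ := ⟨_, rfl⟩
  rw [← hA]
  have hA1 : 1 ≤ A := by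
    rw [hA]
    exact Nat.ceil_pos.2 (Real.rpow_pos_of_pos hN0 _)
  have hAle : (N : ℝ) ^ δ ≤ A := by rw [hA]; exact Nat.le_ceil _
  have hAK : (A + 1) ^ K ≤ N := by
    have f1 : (A : ℝ) < (N : ℝ) ^ δ + 1 := by rw [hA]; exact Nat.ceil_lt_add_one (Real.rpow_nonneg hN0.le _)
    have f2 : (A : ℝ) + 1 ≤ 3 * (N : ℝ) ^ δ := by linarith
    have f3 : ((A : ℝ) + 1) ^ K ≤ (3 * (N : ℝ) ^ δ) ^ K := pow_le_pow_left₀ (by positivity) f2 K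
    have f4 : ((N : ℝ) ^ δ) ^ K ≤ √(N : ℝ) := by
      rw [← Real.rpow_natCast, ← Real.rpow_mul hN0.le, Real.sqrt_eq_rpow]
      exact Real.rpow_le_rpow_of_exponent_le hN1r hδK
    have f5 : (3 : ℝ) ^ K ≤ √(N : ℝ) := by
      apply Real.le_sqrt_of_sq_le
      have : (3 ^ K) ^ 2 ≤ N := by omega
      exact_mod_cast this
    have f6 : ((A : ℝ) + 1) ^ K ≤ N := by
      calc ((A : ℝ) + 1) ^ K ≤ (3 * (N : ℝ) ^ δ) ^ K := f3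
        _ = 3 ^ K * ((N : ℝ) ^ δ) ^ K := mul_pow _ _ _
        _ ≤ √(N : ℝ) * √(N : ℝ) := mul_le_mul f5 f4 (by positivity) (Real.sqrt_nonneg _)
        _ = N := Real.mul_self_sqrt hN0.le
    exact_mod_cast f6
  refine ⟨⟨hA1, hAle, h3⟩, fun Q L' hL' hQ hNQ => ?_⟩
  have hNQL : N ≤ Q ^ L := hNQ.trans (Nat.pow_le_pow_right hQ hL')
  constructor
  · rw [hK, pow_mul] at hAK
    exact (Nat.pow_le_pow_iff_left (by omega)).1 (hAK.trans hNQL)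
  · have hQr : (1 : ℝ) ≤ Q := by exact_mod_cast hQ
    have h1 : (N : ℝ) ^ (2 * δ) ≤ ((Q : ℝ) ^ L) ^ (2 * δ) := by
      apply Real.rpow_le_rpow hN0.le _ (by positivity)
      exact_mod_cast hNQL
    refine h1.trans ?_
    unfold qk
    rw [← Real.rpow_natCast, ← Real.rpow_mul (by linarith)]
    apply Real.rpow_le_rpow_of_exponent_le hQr
    have hk0 : (0 : ℝ) < k := by exact_mod_cast hk
    have hm0 : (1 : ℝ) ≤ m := by exact_mod_cast hm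
    have hL0 : (0 : ℝ) < L := by exact_mod_cast hL
    have e1 : (L : ℝ) * (2 * δ) = 1 / (k * m) := by
      rw [hδ, hK]
      push_cast
      have : (m : ℝ) ≠ 0 := by positivity
      field_simp
    rw [e1]
    apply div_le_div_of_nonneg_left zero_le_one hk0
    exact le_mul_of_one_le_right hk0.le hm0

/-- the statement at the scale `N` -/
def PPR (s K : ℕ) (ε δ c θ : ℝ) (R : (Fin s → ℤ) → (Fin s → ℤ) → Prop) (N : ℕ) : Prop :=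
  ∀ a : Fin s → ℤ, (∀ i, a i ≠ 0 ∧ ((|a i| : ℤ) : ℝ) ≤ (N : ℝ) ^ δ) → ∀ (P : Fin s → ℕ) (F : Fin s → ℤ[X]),
    (∀ i, 1 ≤ (F i).natDegree ∧ (F i).natDegree ≤ K) → (∀ i, (N : ℝ) ^ (1 - δ) ≤ (P i : ℝ) ^ (F i).natDegree) →
    (∀ i, ∀ x : ℤ, 0 ≤ x → x < P i → ((|(F i).eval x| : ℤ) : ℝ) ≤ (N : ℝ) ^ (1 + δ)) →
    ∃ E : Finset (Fin s → ℤ), (E.card : ℝ) ≤ (N : ℝ) ^ (-δ) * ∏ i, (P i : ℝ) ∧
      ∀ x : Fin s → ℤ, (∀ i, 0 ≤ x i ∧ x i < P i) → x ∉ E →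
        ∀ h : Fin s → ℤ, (∀ i, ((|h i - (F i).eval (x i)| : ℤ) : ℝ) ≤ (N : ℝ) ^ δ) →
        (∀ p : ℕ, p.Prime → nuP a h p < p) → ∃ S : ℝ, HasProd (fun p : Nat.Primes => facP a h (p : ℕ)) S ∧ c ≤ S ∧
          ∀ u v : ℤ, -(N : ℤ) ≤ u → v ≤ N → (N : ℝ) ^ (1 - δ) ≤ ((v - u : ℤ) : ℝ) →
            (∀ n ∈ Ico u v, ∀ i, 1 ≤ a i * n + h i) →
            c * θ ^ s * (S * (((v - u : ℤ) : ℝ) / Real.log N ^ s)) ≤ (pc a h u v : ℝ) ∧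
            (R a h → |(pc a h u v : ℝ) - S * (((v - u : ℤ) : ℝ) / Real.log N ^ s)| ≤
              ε * (S * (((v - u : ℤ) : ℝ) / Real.log N ^ s)))

theorem everyPR (s : ℕ) (hs : 1 ≤ s) (K : ℕ) {ε : ℝ} (hε : 0 < ε) :
    ∃ D : ℕ, 0 < D ∧ ∃ δ : ℝ, 0 < δ ∧ ∃ c : ℝ, 0 < c ∧ ∀ B : ℕ, ∀ κ : ℝ, 0 < κ → ∃ N0 : ℕ, ∀ N : ℕ, N0 ≤ N →
    ∃ r : ℕ, Real.log N ^ B ≤ r ∧ ∃ θ : ℝ, (N : ℝ) ^ (-κ) ≤ θ ∧ θ ≤ 1 ∧
      PPR s K ε δ c θ (fun a h => ¬ (r : ℤ) ∣ (D : ℤ) * (Del a h * ∏ i, a i)) N := by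
  classical
  obtain ⟨D, hD, L1, L2, hL1, hL2, hX⟩ := everyX s hs hε
  obtain ⟨c2, hc2, L3, L4, hL3, hL4, hL⟩ := everyL s hs
  obtain ⟨E', hE'⟩ : ∃ E' : ℕ, E' = 2 + 2 * 2 ^ K * (s + ((2 * s + 1) + 10) + 6) + 32 := ⟨_, rfl⟩
  obtain ⟨m, hm⟩ : ∃ m : ℕ, m = (s + 2) ^ 2 + (2 ^ K + 3) := ⟨_, rfl⟩
  have hmK : 2 ^ K + 3 ≤ m := by rw [hm]; exact Nat.le_add_left _ _
  have hms : (s + 2) ^ 2 ≤ m := by rw [hm]; exact Nat.le_add_right _ _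
  have hm1 : 1 ≤ m := le_trans (Nat.one_le_pow _ _ (by omega)) hms
  clear hm
  obtain ⟨L, hLd⟩ : ∃ L : ℕ, L = L2 + L4 := ⟨_, rfl⟩
  obtain ⟨δ, hδ⟩ : ∃ δ : ℝ, δ = 1 / (2 * ((2 * E' * m * L : ℕ) : ℝ)) := ⟨_, rfl⟩
  have hδ0 : 0 < δ := by
    have h1 : 0 < 2 * E' * m * L := by
      have h2 : 0 < m := hm1
      have h3 : 0 < L := by omega
      have h4 : 0 < 2 * E' := by omega
      positivity
    have h5 : (0 : ℝ) < ((2 * E' * m * L : ℕ) : ℝ) := by exact_mod_cast h1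
    rw [hδ]
    positivity
  obtain ⟨N4, hN4⟩ := small_coeff (k := 2 * E') (m := m) (L := L) (by omega) (by omega) hδ hm1
  obtain ⟨Q1, hQ1⟩ := goodPT s hs K L1 L2 E' hL1 (by omega) (by omega)
  obtain ⟨Q2, hQ2⟩ := goodPT s hs K L3 L4 E' hL3 (by omega) (by omega)
  obtain ⟨c, hc⟩ : ∃ c : ℝ, c = min c2 (cS s / 2) := ⟨_, rfl⟩
  have hcS := cS_pos s
  have hc0 : 0 < c := by rw [hc]; exact lt_min hc2 (by positivity)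
  refine ⟨D, hD, δ, hδ0, c, hc0, fun B κ hκ => ?_⟩
  obtain ⟨N1, hN1⟩ := hX (2 * E') (by omega) B (Q1 + 1)
  obtain ⟨N2, hN2⟩ := hL (2 * E') (by omega) κ hκ (Q2 + 1)
  refine ⟨N1 + N2 + N4 + 1, fun N hN => ?_⟩
  obtain ⟨Qa, hQa0, hQa1, hQa2, r, hr, hP1⟩ := hN1 N (by omega)
  obtain ⟨Qb, hQb0, hQb1, hQb2, θ, hθ1, hθ2, hP2⟩ := hN2 N (by omega)
  obtain ⟨⟨hA1, hAle, h3⟩, hsc⟩ := hN4 N (by omega)
  obtain ⟨A, hA⟩ : ∃ A : ℕ, A = ⌈(N : ℝ) ^ δ⌉₊ := ⟨_, rfl⟩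
  rw [← hA] at hA1 hAle hsc
  have hN1r : (1 : ℝ) ≤ N := by exact_mod_cast (by omega : 1 ≤ N)
  have hN0 : (0 : ℝ) < N := by linarith
  obtain ⟨ha1, ha2⟩ := hsc Qa L2 (by omega) (by omega) hQa2
  obtain ⟨hb1, hb2⟩ := hsc Qb L4 (by omega) (by omega) hQb2
  have hNδ0 : 0 < (N : ℝ) ^ δ := Real.rpow_pos_of_pos hN0 _
  have h2δ : (N : ℝ) ^ (2 * δ) = (N : ℝ) ^ δ * (N : ℝ) ^ δ := by
    rw [← Real.rpow_add hN0]; congr 1; ring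
  have hδ2δ : (N : ℝ) ^ δ ≤ (N : ℝ) ^ (2 * δ) := Real.rpow_le_rpow_of_exponent_le hN1r (by linarith)
  have hsplit : (N : ℝ) = (N : ℝ) ^ δ * (N : ℝ) ^ (1 - δ) := by
    rw [← Real.rpow_add hN0]
    have : δ + (1 - δ) = 1 := by ring
    rw [this, Real.rpow_one]
  refine ⟨r, hr, θ, hθ1, hθ2, fun a ha P F hF hPN hFB => ?_⟩
  have haA : ∀ i, |a i| ≤ A := by
    intro i
    have := (ha i).2.trans hAle
    exact_mod_cast this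
  have ha0 : ∀ i, a i ≠ 0 := fun i => (ha i).1
  obtain ⟨⟨B1, hw1, hs1⟩, hP1'⟩ := hP1 A hA1 (AS_powE ha1 (Nat.mul_le_mul_left _ hms))
  obtain ⟨⟨B2, hw2, hs2⟩, hP2'⟩ := hP2 A hA1 (AS_powE hb1 (Nat.mul_le_mul_left _ hms))
  have hPN' : ∀ q : ℝ, (N : ℝ) ^ (2 * δ) ≤ q → ∀ i, (N : ℝ) ≤ q * (P i : ℝ) ^ (F i).natDegree := by
    intro q hq i
    calc (N : ℝ) = (N : ℝ) ^ δ * (N : ℝ) ^ (1 - δ) := hsplit
      _ ≤ q * (P i : ℝ) ^ (F i).natDegree := mul_le_mul (hδ2δ.trans hq) (hPN i) (Real.rpow_nonneg hN0.le _)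
          (hNδ0.le.trans (hδ2δ.trans hq))
  have hFB' : ∀ i, ∀ x : ℤ, 0 ≤ x → x < P i → |(F i).eval x| ≤ A * N := by
    intro i x hx hx'
    have f1 := hFB i x hx hx'
    rw [Real.rpow_add hN0, Real.rpow_one] at f1
    have f2 : ((|(F i).eval x| : ℤ) : ℝ) ≤ A * N := by
      refine f1.trans ?_
      rw [mul_comm]
      exact mul_le_mul_of_nonneg_right hAle hN0.le
    exact_mod_cast f2
  obtain ⟨E1, hE1, hE1'⟩ := hQ1 Qa (by omega) A hA1 (AS_powE ha1 (Nat.mul_le_mul_left _ hmK)) N hQa1 hQa2 B1 hw1 hs1 a ha0 P F hF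
    (hPN' _ ha2) hFB'
  obtain ⟨E2, hE2, hE2'⟩ := hQ2 Qb (by omega) A hA1 (AS_powE hb1 (Nat.mul_le_mul_left _ hmK)) N hQb1 hQb2 B2 hw2 hs2 a ha0 P F hF
    (hPN' _ hb2) hFB'
  have hPi0 : 0 ≤ ∏ i, (P i : ℝ) := prod_nonneg fun _ _ => Nat.cast_nonneg _
  refine ⟨E1 ∪ E2, ?_, fun x hx hxE h hh hadm => ?_⟩
  · have e1 : ((E1 ∪ E2).card : ℝ) ≤ E1.card + E2.card := by exact_mod_cast card_union_le E1 E2
    have e2 : ∀ q : ℝ, (N : ℝ) ^ (2 * δ) ≤ q → (∏ i, (P i : ℝ)) / q ≤ (∏ i, (P i : ℝ)) / (N : ℝ) ^ (2 * δ) :=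
      fun q hq => div_le_div_of_nonneg_left hPi0 (Real.rpow_pos_of_pos hN0 _) hq
    have e3 := hE1.trans (e2 _ ha2)
    have e4 := hE2.trans (e2 _ hb2)
    have e5 : 2 * ((∏ i, (P i : ℝ)) / (N : ℝ) ^ (2 * δ)) ≤ (N : ℝ) ^ (-δ) * ∏ i, (P i : ℝ) := by
      rw [h2δ, Real.rpow_neg hN0.le]
      have e6 : 2 * ((∏ i, (P i : ℝ)) / ((N : ℝ) ^ δ * (N : ℝ) ^ δ)) = (2 / (N : ℝ) ^ δ) * (((N : ℝ) ^ δ)⁻¹ * ∏ i, (P i : ℝ)) := by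
        field_simp
      rw [e6]
      have e7 : 2 / (N : ℝ) ^ δ ≤ 1 := by rw [div_le_one hNδ0]; exact h3
      calc _ ≤ 1 * (((N : ℝ) ^ δ)⁻¹ * ∏ i, (P i : ℝ)) := mul_le_mul_of_nonneg_right e7 (by positivity)
        _ = _ := one_mul _
    linarith
  · rw [mem_union, not_or] at hxE
    obtain ⟨hG1, hhA⟩ := hE1' x hx hxE.1 h (fun i => (hh i).trans (hδ2δ.trans ha2))
    obtain ⟨hG2, -⟩ := hE2' x hx hxE.2 h (fun i => (hh i).trans (hδ2δ.trans hb2))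
    obtain ⟨S, hS⟩ := exists_facP ha0 hG1.1 hadm
    have hcS' : c ≤ S := by
      have f1 := S_lower hadm hS
      have f2 : c ≤ cS s / 2 := by rw [hc]; exact min_le_right _ _
      linarith
    have hlen : ∀ q : ℝ, (N : ℝ) ^ (2 * δ) ≤ q → ∀ W : ℝ, (N : ℝ) ^ (1 - δ) ≤ W → (N : ℝ) / q ≤ W := by
      intro q hq W h5
      refine le_trans ?_ h5
      have hq0 : 0 < q := lt_of_lt_of_le (Real.rpow_pos_of_pos hN0 _) hq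
      rw [div_le_iff₀ hq0]
      calc (N : ℝ) = (N : ℝ) ^ δ * (N : ℝ) ^ (1 - δ) := hsplit
        _ ≤ q * (N : ℝ) ^ (1 - δ) := mul_le_mul_of_nonneg_right (hδ2δ.trans hq) (Real.rpow_nonneg hN0.le _)
        _ = _ := mul_comm _ _
    have hNz : (0 : ℤ) ≤ N := Int.natCast_nonneg _
    refine ⟨S, hS, hcS', fun u v hu hv hW hpos => ⟨?_, fun hPr => ?_⟩⟩
    · have f1 := hP2' a h ha0 haA hhA hG2 hadm S hS u v (by linarith) (by linarith) (hlen _ hb2 _ hW) hpos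
      refine le_trans ?_ f1
      have hW0 : 0 ≤ ((v - u : ℤ) : ℝ) := le_trans (Real.rpow_nonneg hN0.le _) hW
      have hθ0 : 0 ≤ θ := le_trans (Real.rpow_nonneg hN0.le _) hθ1
      have hlog : 0 ≤ Real.log N := Real.log_natCast_nonneg N
      have hS0 : 0 ≤ S := hc0.le.trans hcS'
      apply mul_le_mul_of_nonneg_right _ (by positivity)
      apply mul_le_mul_of_nonneg_right _ (by positivity)
      rw [hc]
      exact min_le_left _ _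
    · exact hP1' a h ha0 haA hhA hG1 hPr hadm S hS u v (by linarith) (by linarith) (hlen _ ha2 _ hW) hpos

end Pool.Agent.Helper85.HP
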