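import Pool.Agent.Helper85.HP.D4
import Pool.Agent.Helper85.HP.A7

set_option autoImplicit false

/-!
# Goldbach's problem along integer polynomials: the exceptions
-/

open Finset Filter Topology Polynomial

namespace Pool.Agent.Helper85.HP

open Pool.Agent.Helper86.PS Pool.Agent.H807R2.Dav

theorem count2 (K c L1 L2 E' : ℕ) (hL1 : lE 2 ≤ L1)
    (hE' : 2 + 2 * 2 ^ K * (3 + c + 6) ≤ E') (hE32 : 32 ≤ E') : ∃ Q0 : ℕ, ∀ Q : ℕ, Q0 ≤ Q →
    ∀ N : ℕ, Q ^ L1 ≤ N → N ≤ Q ^ L2 →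
    ∀ B : PC → ℝ, HW Q ((4 * 1 + 1) * N) B → ∑ j ∈ fam Q, B j ≤ 3 →
    ∀ (d P : ℕ) (f : ℤ → ℤ), (1 ≤ d ∧ d ≤ K) → IsPol d f → 1 ≤ P →
    (N : ℝ) ≤ qk (2 * E') Q * (P : ℝ) ^ d → (∀ x ∈ Ico (0 : ℤ) P, |f x| ≤ 2 * N) →
    ∀ u v : ℤ, -(4 * N : ℤ) ≤ u → u ≤ 4 * N → -(4 * N : ℤ) ≤ v → v ≤ 4 * N → ∀ Y ⊆ Ico (0 : ℤ) P,
    (∀ x ∈ Y, (N : ℝ) / qk (2 * E') Q ^ 4 < ‖DI Q ((4 * 1 + 1) * N) a2 (h2 (f x)) u v‖) →
    (Y.card : ℝ) ≤ P / qk (2 * E') Q ^ c := by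
  classical
  have hE'0 : (0 : ℝ) < ((2 * E' : ℕ) : ℝ) := by exact_mod_cast (by omega : 0 < 2 * E')
  obtain ⟨C, hC, hnrg⟩ := hua_all K (η := 1 / (((2 * E' : ℕ) : ℝ) * (L2 + 1))) (by positivity)
  obtain ⟨M0, hM0⟩ : ∃ M0 : ℝ, M0 = 5 := ⟨_, rfl⟩
  have hM01 : 1 ≤ M0 := by rw [hM0]; norm_num
  obtain ⟨R, hR⟩ : ∃ R : ℕ, R = 2 ^ K := ⟨_, rfl⟩
  rw [← hR] at hE'
  obtain ⟨Kc, hKc⟩ : ∃ Kc : ℝ, Kc = (3 : ℝ) ^ (2 * R) * ((8 * 4 ^ 3) ^ R * (64 * M0) ^ R * 4 * M0 ^ 2 * C) := ⟨_, rfl⟩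
  obtain ⟨Q1, hQ1⟩ := sup_main3 (cR 2) (L2 + 1) (by unfold cR; norm_num) (κ := 1 / ((2 * E' : ℕ) : ℝ)) (by positivity) (by
    apply one_div_le_one_div_of_le (by norm_num)
    exact_mod_cast (by omega : 32 ≤ 2 * E'))
  obtain ⟨Q2, hQ2⟩ := ev_log (max Kc 3) 0 (a := 1 / ((2 * E' : ℕ) : ℝ)) (by positivity)
  refine ⟨Q1 + Q2 + 5, fun Q hQ N hN1 hN2 B hw hBs d P f hd hf hP hPN hfB u v hu hu' hv hv' Y hY hYl => ?_⟩
  have hQ1' : 1 ≤ Q := by omega
  have hQr : (1 : ℝ) ≤ Q := by exact_mod_cast hQ1'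
  have hQ0 : (0 : ℝ) < Q := by linarith
  have hNpos : 0 < N := lt_of_lt_of_le (by positivity) hN1
  have hN0 : (0 : ℝ) < N := by exact_mod_cast hNpos
  obtain ⟨M, hM⟩ : ∃ M : ℕ, M = (4 * 1 + 1) * N := ⟨_, rfl⟩
  have hM5 : M = 5 * N := by omega
  have hMN : N ≤ M := by omega
  have hM1 : 1 ≤ M := by omega
  have hMr : (M : ℝ) = M0 * N := by rw [hM5, hM0]; push_cast; ring
  have hlow : Q ^ (6 * cR 2 + 20) ≤ M := by
    refine le_trans (Nat.pow_le_pow_right (by omega) ?_) (hN1.trans hMN)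
    unfold lE at hL1
    omega
  have hup : M ≤ Q ^ (L2 + 1) := by
    calc M = 5 * N := hM5
      _ ≤ Q * Q ^ L2 := Nat.mul_le_mul (by omega) hN2
      _ = Q ^ (L2 + 1) := by ring
  rw [← hM] at hw hYl
  obtain ⟨hσ, hcL, hcB, hS1, hS2, hlog⟩ := hQ1 Q (by omega) M hlow hup B hw hBs
  obtain ⟨q, hq⟩ : ∃ q : ℝ, q = qk (2 * E') Q := ⟨_, rfl⟩
  have hqd : (Q : ℝ) ^ (1 / ((2 * E' : ℕ) : ℝ)) = q := by rw [hq]; rfl
  have hq1 : 1 ≤ q := by rw [hq]; exact qk_ge hQ1'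
  have hq0 : 0 < q := by linarith
  have hmaxq : max Kc 3 ≤ q := by
    have := hQ2 Q (by omega)
    rwa [pow_zero, mul_one, hqd] at this
  have hKcq : Kc ≤ q := (le_max_left _ _).trans hmaxq
  have h3q : (3 : ℝ) ≤ q := (le_max_right _ _).trans hmaxq
  rw [hqd] at hcL hcB hlog
  rw [← hq] at hPN hYl ⊢
  obtain ⟨w, hwd⟩ : ∃ w : ℝ, w = (Q : ℝ) ^ (-(1 / 4) : ℝ) := ⟨_, rfl⟩
  rw [← hwd] at hσ
  have hw0 : 0 ≤ w := by rw [hwd]; positivity
  have hww : w ^ 2 * q ^ E' = 1 := by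
    have e1 : w ^ 2 = (Q : ℝ) ^ (-(1 / 2) : ℝ) := by
      rw [hwd, ← Real.rpow_natCast, ← Real.rpow_mul hQ0.le]
      norm_num
    have e2 : q ^ E' = (Q : ℝ) ^ (1 / 2 : ℝ) := by
      rw [← hqd, ← Real.rpow_natCast, ← Real.rpow_mul hQ0.le]
      congr 1
      push_cast
      have : (E' : ℝ) ≠ 0 := by
        have : 0 < E' := by omega
        exact_mod_cast this.ne'
      field_simp
    rw [e1, e2, ← Real.rpow_add hQ0]
    norm_num
  obtain ⟨D, hD⟩ : ∃ D : ℤ → ℂ, D = fun n => cL Q M n - cB Q (cR 2) M n := ⟨_, rfl⟩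
  have hDSF : SF D (Icc (-(M : ℤ)) (2 * M)) := by
    intro n hn
    rw [hD]
    simp only
    rw [hS1 n hn, hS2 n hn, sub_zero]
  have hDσ : ∀ θ, ‖FT D θ‖ ≤ 2 * (M * w) := by
    intro θ
    rw [hD, FT_sub hS1 hS2]
    exact hσ θ
  have hDV : ∀ n, ‖D n‖ ≤ 2 * (2 * q) := by
    intro n
    rw [hD]
    refine (norm_sub_le _ _).trans ?_
    have := hcL n
    have := hcB n
    linarith
  have hc3 := card_Icc3 hM1
  -- the exponents
  obtain ⟨r, hr⟩ : ∃ r : ℕ, r = 2 ^ (d - 1) := ⟨_, rfl⟩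
  have hr1 : 1 ≤ r := by rw [hr]; exact Nat.one_le_two_pow
  have h2r : 2 * r = 2 ^ d := by
    rw [hr]
    obtain ⟨e, he⟩ : ∃ e, d = e + 1 := ⟨d - 1, by have := hd.1; omega⟩
    rw [he, Nat.add_sub_cancel, pow_succ]; ring
  have hrR : 2 * r ≤ R := by
    rw [h2r, hR]
    exact Nat.pow_le_pow_right (by norm_num) hd.2
  obtain ⟨nn, hnnd⟩ : ∃ nn : ℝ, nn = (nrg (Ico (0 : ℤ) P) f r : ℝ) := ⟨_, rfl⟩
  have hnn0 : 0 ≤ nn := by rw [hnnd]; positivity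
  have hnn : (N : ℝ) * nn ≤ C * q ^ 2 * (P : ℝ) ^ (2 * r) := by
    have h1 := hnrg d hd.1 hd.2 f hf P hP (2 * N) (by omega) (by
      intro x hx
      push_cast
      exact hfB x hx)
    rw [← hr, ← hnnd] at h1
    have hBη : ((2 * N : ℕ) : ℝ) ^ (1 / (((2 * E' : ℕ) : ℝ) * (L2 + 1))) ≤ q := by
      have e1 : ((2 * N : ℕ) : ℝ) ≤ (Q : ℝ) ^ (L2 + 1) := by
        have : 2 * N ≤ Q ^ (L2 + 1) := by omega
        exact_mod_cast this
      refine (Real.rpow_le_rpow (Nat.cast_nonneg _) e1 (by positivity)).trans (le_of_eq ?_)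
      rw [← hqd, ← Real.rpow_natCast, ← Real.rpow_mul hQ0.le]
      congr 1
      push_cast
      have : (L2 : ℝ) + 1 ≠ 0 := by positivity
      field_simp
    have hk2 : d ≤ 2 ^ d := Nat.lt_two_pow_self.le
    have hC0 : (0 : ℝ) ≤ C := by linarith
    calc (N : ℝ) * nn ≤ (q * (P : ℝ) ^ d) * (C * q * (P : ℝ) ^ (2 ^ d - d)) := by
          apply mul_le_mul hPN _ hnn0 (by positivity)
          refine h1.trans ?_
          apply mul_le_mul_of_nonneg_right _ (by positivity)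
          exact mul_le_mul_of_nonneg_left hBη hC0
      _ = C * q ^ 2 * ((P : ℝ) ^ d * (P : ℝ) ^ (2 ^ d - d)) := by ring
      _ = _ := by rw [← pow_add, h2r]; congr 2; omega
  have hnum := num_stepU (Ic := 8 * (N : ℝ)) (Sc := 4 * (M0 * N)) (s := 3) (c := c) hr1 (by norm_num) hN0 (Nat.cast_nonneg P) hq1 hC hM01
    (by positivity) (by positivity) le_rfl le_rfl hnn0 hnn hww (by
      refine le_trans ?_ hE'
      have := Nat.mul_le_mul_right (3 + c + 6) hrR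
      have e : 2 * R * (3 + c + 6) = 2 * (R * (3 + c + 6)) := by ring
      omega) (by
      have hqq : q ≤ q ^ 2 := le_self_pow₀ hq1 (by norm_num)
      refine le_trans ?_ (hKcq.trans hqq)
      rw [hKc]
      have hrR' : r ≤ R := by omega
      have g1 : ((3 : ℕ) : ℝ) ^ (2 * r) ≤ (3 : ℝ) ^ (2 * R) := by
        push_cast
        exact pow_le_pow_right₀ (by norm_num) (by omega)
      have g2 : (8 * 4 ^ 3 : ℝ) ^ r ≤ (8 * 4 ^ 3) ^ R := pow_le_pow_right₀ (by norm_num) hrR'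
      have g3 : (64 * M0) ^ r ≤ (64 * M0) ^ R := pow_le_pow_right₀ (by linarith) hrR'
      have hC0 : (0 : ℝ) ≤ C := by linarith
      have hM00 : (0 : ℝ) ≤ M0 := by linarith
      gcongr)
  obtain ⟨l, hl⟩ : ∃ l : ℝ, l = (N : ℝ) / (((3 : ℕ) : ℝ) * q ^ 4) := ⟨_, rfl⟩
  have hl0 : 0 < l := by rw [hl]; positivity
  rw [← hl] at hnum
  obtain ⟨b, hb⟩ : ∃ b : ℝ, b = (P : ℝ) / q ^ (c + 1) := ⟨_, rfl⟩
  rw [← hb] at hnum
  have hb0 : 0 ≤ b := by rw [hb]; positivity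
  -- the two parts
  obtain ⟨Y1, hY1⟩ : ∃ Y1 : Finset ℤ, Y1 = Y.filter (fun x => l ≤ ‖∑ n ∈ Ico u v, cL Q M n * D (-1 * n + f x)‖) := ⟨_, rfl⟩
  obtain ⟨Y2, hY2⟩ : ∃ Y2 : Finset ℤ, Y2 = Y.filter (fun x => l ≤ ‖∑ n ∈ Icc (-(M : ℤ)) (2 * M), cB Q (cR 2) M n *
    ((if -1 * n + f x ∈ Ico u v then 1 else 0) * D (-1 * n + f x))‖) := ⟨_, rfl⟩
  have hM00 : (0 : ℝ) ≤ M0 := by linarith
  have h1q : (1 : ℝ) ≤ 2 * q := by linarith
  have hq2 : q ≤ (2 * q) ^ 3 := by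
    calc q ≤ 2 * q := by linarith
      _ ≤ (2 * q) ^ 3 := le_self_pow₀ h1q (by norm_num)
  have hq22 : q ^ 2 * ((2 * q) ^ 2) ^ 2 ≤ ((2 * q) ^ 3) ^ 2 := by
    have : q ^ 2 ≤ (2 * q) ^ 2 := pow_le_pow_left₀ hq0.le (by linarith) 2
    calc q ^ 2 * ((2 * q) ^ 2) ^ 2 ≤ (2 * q) ^ 2 * ((2 * q) ^ 2) ^ 2 := mul_le_mul_of_nonneg_right this (by positivity)
      _ = _ := by ring
  have hDs : ∑ n ∈ Icc (-(M : ℤ)) (2 * M), ‖D n‖ ^ 2 ≤ 4 * (M0 * N) * (2 * (2 * q)) ^ 2 := by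
    rw [← hMr]
    exact sum_norm_sq hc3 (by positivity) fun n _ => hDV n
  have hb1 : (Y1.card : ℝ) ≤ b := by
    have h1 := count_bad (Ico (0 : ℤ) P) f hDSF hDσ hr1 (a := -1) (by norm_num) (Ico u v) (cL Q M) Y1
      (by rw [hY1]; exact (filter_subset _ _).trans hY) hl0 (by
        intro x hx
        rw [hY1, mem_filter] at hx
        exact hx.2)
    have h2 : ∑ n ∈ Ico u v, ‖cL Q M n‖ ^ 2 ≤ 8 * N * ((2 * q) ^ 3) ^ 2 := by
      apply sum_norm_sq _ (by positivity) fun n _ => (hcL n).trans hq2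
      rw [Int.card_Ico]
      have : (v - u).toNat ≤ 8 * N := by omega
      exact_mod_cast this
    have h3 : (l * Y1.card) ^ (2 * r) ≤ (l * b) ^ (2 * r) := by
      refine h1.trans (le_trans ?_ hnum)
      rw [← hnnd, hMr]
      apply mul_le_mul
      · exact pow_le_pow_left₀ (sum_nonneg fun _ _ => by positivity) h2 _
      · apply mul_le_mul_of_nonneg_right _ (by positivity)
        exact pow_le_pow_left₀ (sum_nonneg fun _ _ => by positivity) hDs _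
      · positivity
      · positivity
    have h7 : l * Y1.card ≤ l * b := le_of_pow_le_pow_left₀ (by omega) (mul_nonneg hl0.le hb0) h3
    exact le_of_mul_le_mul_left h7 hl0
  have hb2 : (Y2.card : ℝ) ≤ b := by
    have hcut : ∀ θ, ‖FT (fun n => (if n ∈ Ico u v then 1 else 0) * D n) θ‖ ≤ 2 * (M * w) * q := by
      intro θ
      refine (cut_sup hDSF hDσ (m := 8 * M) (by omega) ?_ ?_ θ).trans ?_
      · intro n hn y hy
        rw [mem_Icc] at hn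
        rw [mem_Ico] at hy
        rw [abs_lt]
        push_cast
        constructor <;> omega
      · push_cast
        omega
      · apply mul_le_mul_of_nonneg_left _ (by positivity)
        push_cast
        exact hlog
    have hSFc : SF (fun n => (if n ∈ Ico u v then (1 : ℂ) else 0) * D n) (Icc (-(M : ℤ)) (2 * M)) := SF_mul' hDSF _
    have h1 := count_bad (Ico (0 : ℤ) P) f hSFc hcut hr1 (a := -1) (by norm_num) (Icc (-(M : ℤ)) (2 * M))
      (cB Q (cR 2) M) Y2 (by rw [hY2]; exact (filter_subset _ _).trans hY) hl0 (by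
        intro x hx
        rw [hY2, mem_filter] at hx
        exact hx.2)
    have h2 : ∑ n ∈ Icc (-(M : ℤ)) (2 * M), ‖cB Q (cR 2) M n‖ ^ 2 ≤ 8 * N * ((2 * q) ^ 2) ^ 2 := by
      refine (sum_norm_sq hc3 (by positivity) fun n _ => hcB n).trans ?_
      rw [hMr, hM0]
      have e1 : q ^ 2 * 9 ≤ q ^ 2 * q ^ 2 := by
        apply mul_le_mul_of_nonneg_left _ (by positivity)
        nlinarith
      calc 4 * (5 * (N : ℝ)) * (2 * q) ^ 2 = N * (80 * q ^ 2) := by ring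
        _ ≤ N * (128 * (q ^ 2 * q ^ 2)) := mul_le_mul_of_nonneg_left (by nlinarith [sq_nonneg q]) hN0.le
        _ = _ := by ring
    have h3 : ∑ n ∈ Icc (-(M : ℤ)) (2 * M), ‖(if n ∈ Ico u v then (1 : ℂ) else 0) * D n‖ ^ 2 ≤ 4 * (M0 * N) * (2 * (2 * q)) ^ 2 := by
      rw [← hMr]
      apply sum_norm_sq hc3 (by positivity)
      intro n _
      rw [norm_mul]
      split_ifs
      · rw [norm_one, one_mul]; exact hDV n
      · rw [norm_zero, zero_mul]; positivity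
    have h4 : (8 * N * ((2 * q) ^ 2) ^ 2) ^ r * q ^ 2 ≤ (8 * N * ((2 * q) ^ 3) ^ 2) ^ r := by
      have e1 : q ^ 2 ≤ (q ^ 2) ^ r := le_self_pow₀ (one_le_pow₀ hq1) (by omega)
      calc (8 * N * ((2 * q) ^ 2) ^ 2) ^ r * q ^ 2 ≤ (8 * N * ((2 * q) ^ 2) ^ 2) ^ r * (q ^ 2) ^ r :=
            mul_le_mul_of_nonneg_left e1 (by positivity)
        _ = (8 * N * (q ^ 2 * ((2 * q) ^ 2) ^ 2)) ^ r := by rw [← mul_pow]; congr 1; ring
        _ ≤ _ := by
          apply pow_le_pow_left₀ (by positivity)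
          exact mul_le_mul_of_nonneg_left hq22 (by positivity)
    have h5 : (l * Y2.card) ^ (2 * r) ≤ (l * b) ^ (2 * r) := by
      refine h1.trans (le_trans ?_ hnum)
      rw [← hnnd, hMr]
      calc (∑ n ∈ Icc (-(M : ℤ)) (2 * M), ‖cB Q (cR 2) M n‖ ^ 2) ^ r *
          ((∑ n ∈ Icc (-(M : ℤ)) (2 * M), ‖(if n ∈ Ico u v then (1 : ℂ) else 0) * D n‖ ^ 2) ^ (r - 1) *
            ((2 * (M0 * N * w) * q) ^ 2 * nn)) ≤
          (8 * N * ((2 * q) ^ 2) ^ 2) ^ r * ((4 * (M0 * N) * (2 * (2 * q)) ^ 2) ^ (r - 1) * ((2 * (M0 * N * w) * q) ^ 2 * nn)) := by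
            apply mul_le_mul
            · exact pow_le_pow_left₀ (sum_nonneg fun _ _ => by positivity) h2 _
            · apply mul_le_mul_of_nonneg_right _ (by positivity)
              exact pow_le_pow_left₀ (sum_nonneg fun _ _ => by positivity) h3 _
            · positivity
            · positivity
        _ = ((8 * N * ((2 * q) ^ 2) ^ 2) ^ r * q ^ 2) * ((4 * (M0 * N) * (2 * (2 * q)) ^ 2) ^ (r - 1) * ((2 * (M0 * N * w)) ^ 2 * nn)) := by
            ring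
        _ ≤ _ := mul_le_mul_of_nonneg_right h4 (by positivity)
    have h7 : l * Y2.card ≤ l * b := le_of_pow_le_pow_left₀ (by omega) (mul_nonneg hl0.le hb0) h5
    exact le_of_mul_le_mul_left h7 hl0
  have hsub : Y ⊆ Y1 ∪ Y2 := by
    intro x hx
    by_contra hc
    rw [mem_union, hY1, hY2, mem_filter, mem_filter] at hc
    push Not at hc
    have h1 := hc.1 hx
    have h2 := hc.2 hx
    have h3 := hYl x hx
    rw [DI_two Q M (f x) u v hS2] at h3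
    have h4 := norm_add_le (∑ n ∈ Ico u v, cL Q M n * (cL Q M (-1 * n + f x) - cB Q (cR 2) M (-1 * n + f x)))
      (∑ n ∈ Icc (-(M : ℤ)) (2 * M), cB Q (cR 2) M n *
        ((if -1 * n + f x ∈ Ico u v then 1 else 0) * (cL Q M (-1 * n + f x) - cB Q (cR 2) M (-1 * n + f x))))
    rw [hD] at h1 h2
    simp only at h1 h2
    have h5 : 2 * l ≤ N / q ^ 4 := by
      have e : (N : ℝ) / q ^ 4 = 3 * l := by
        rw [hl]
        push_cast
        field_simp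
      rw [e]
      linarith
    linarith
  have hcard : (Y.card : ℝ) ≤ Y1.card + Y2.card := by
    exact_mod_cast (card_le_card hsub).trans (card_union_le _ _)
  have hfin : (Y.card : ℝ) ≤ 2 * b := by linarith
  refine hfin.trans ?_
  rw [hb, pow_succ, ← mul_div_assoc, div_le_div_iff₀ (by positivity) (by positivity)]
  have hP0 : (0 : ℝ) ≤ P := Nat.cast_nonneg _
  calc 2 * (P : ℝ) * q ^ c ≤ q * P * q ^ c := by
        apply mul_le_mul_of_nonneg_right _ (by positivity)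
        exact mul_le_mul_of_nonneg_right (by linarith) hP0
    _ = _ := by ring

end Pool.Agent.Helper85.HP
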