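import Pool.Agent.Helper85.HP.G1
import Pool.Agent.Helper85.HP.D8

set_option autoImplicit false

/-!
# Goldbach's problem along integer polynomials
-/

open Finset Filter Topology Polynomial

namespace Pool.Agent.Helper85.HP

open Pool.Agent.H807R2.Dav hiding KK
open Pool.Agent.Helper86.PS

theorem good2 (K c L1 L2 E' : ℕ) (hL1 : lE 2 ≤ L1)
    (hE' : 2 + 2 * 2 ^ K * (3 + (c + 10) + 6) ≤ E') (hE32 : 32 ≤ E') : ∃ Q0 : ℕ, ∀ Q : ℕ, Q0 ≤ Q →
    ∀ N : ℕ, Q ^ L1 ≤ N → N ≤ Q ^ L2 →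
    ∀ B : PC → ℝ, HW Q ((4 * 1 + 1) * N) B → ∑ j ∈ fam Q, B j ≤ 3 →
    ∀ (d P : ℕ) (f : ℤ → ℤ), (1 ≤ d ∧ d ≤ K) → IsPol d f → 1 ≤ P →
    (N : ℝ) ≤ qk (2 * E') Q * (P : ℝ) ^ d → (∀ x ∈ Ico (0 : ℤ) P, |f x| ≤ 2 * N) →
    ∃ Ex : Finset ℤ, (Ex.card : ℝ) ≤ P / qk (2 * E') Q ^ c ∧
      ∀ x ∈ Ico (0 : ℤ) P, x ∉ Ex → GoodH (2 * E') Q N 1 a2 (h2 (f x)) := by
  classical
  obtain ⟨Q1, hQ1⟩ := count2 K (c + 10) L1 L2 E' hL1 hE' hE32
  have hE0 : (0 : ℝ) < ((2 * E' : ℕ) : ℝ) := by exact_mod_cast (by omega : 0 < 2 * E')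
  obtain ⟨Q3, hQ3⟩ := ev_log (max (K : ℝ) 25) 0 (a := 1 / ((2 * E' : ℕ) : ℝ)) (by positivity)
  refine ⟨Q1 + Q3 + 3, fun Q hQ N hN1 hN2 B hw hBs d P f hd hf hP hPN hfB => ?_⟩
  have hQ1' : 1 ≤ Q := by omega
  have hQr : (1 : ℝ) ≤ Q := by exact_mod_cast hQ1'
  obtain ⟨q, hq⟩ : ∃ q : ℝ, q = qk (2 * E') Q := ⟨_, rfl⟩
  have hq1 : 1 ≤ q := by rw [hq]; exact qk_ge hQ1'
  have hq0 : 0 < q := by linarith
  have hqd : (Q : ℝ) ^ (1 / ((2 * E' : ℕ) : ℝ)) = q := by rw [hq]; rfl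
  have hmaxq : max (K : ℝ) 25 ≤ q := by
    have := hQ3 Q (by omega)
    rwa [pow_zero, mul_one, hqd] at this
  have hKq : (K : ℝ) ≤ q := (le_max_left _ _).trans hmaxq
  have h25q : 25 ≤ q := (le_max_right _ _).trans hmaxq
  have hQN : Q < N := by
    have h40 : 40 ≤ lE 2 := by unfold lE; omega
    have h1 : Q ^ 2 ≤ Q ^ L1 := Nat.pow_le_pow_right (by omega) (by omega)
    have h2 : Q * 1 < Q * Q := Nat.mul_lt_mul_of_pos_left (by omega) (by omega)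
    have h3 : Q ^ 2 = Q * Q := sq Q
    omega
  have hqQ : ∀ n : ℕ, n ≤ 2 * E' → q ^ n ≤ Q := by
    intro n hn
    rw [hq]
    exact qk_le (by omega) hQ1' hn
  have hP0 : (0 : ℝ) ≤ P := Nat.cast_nonneg _
  have hPm : q ^ (c + 10) ≤ P := by
    by_contra hc
    push Not at hc
    have h1 : (P : ℝ) ^ d ≤ (q ^ (c + 10)) ^ d := pow_le_pow_left₀ (Nat.cast_nonneg _) hc.le _
    have h2 : (q ^ (c + 10)) ^ d ≤ (q ^ (c + 10)) ^ K := pow_le_pow_right₀ (one_le_pow₀ hq1) hd.2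
    have h3 : (N : ℝ) ≤ q * (q ^ (c + 10)) ^ K := by
      have := hPN
      rw [← hq] at this
      exact this.trans (mul_le_mul_of_nonneg_left (h1.trans h2) hq0.le)
    have h4 : q * (q ^ (c + 10)) ^ K = q ^ (1 + (c + 10) * K) := by
      rw [pow_add q 1, pow_one, pow_mul]
    have h5 : 1 + (c + 10) * K ≤ 2 * E' := by
      have hK2 : K ≤ 2 ^ K := Nat.lt_two_pow_self.le
      have g1 : (c + 10) * K ≤ (3 + (c + 10) + 6) * 2 ^ K := Nat.mul_le_mul (by omega) hK2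
      have g2 : 2 * 2 ^ K * (3 + (c + 10) + 6) = 2 * ((3 + (c + 10) + 6) * 2 ^ K) := by ring
      omega
    have h6 := hqQ _ h5
    rw [h4] at h3
    have h7 : (N : ℝ) ≤ Q := h3.trans h6
    have h8 : N ≤ Q := by exact_mod_cast h7
    omega
  exact exc_set (E := 2 * E') (Q := Q) (N := N) (A := 1) (by omega) hQ1' hQN.le (by rw [← hq]; exact h25q)
    (Ico (0 : ℤ) P) (fun x => h2 (f x)) a2 hP0 c (by
      intro Y hY hYd
      obtain ⟨e, he⟩ : ∃ e, d = e + 1 := ⟨d - 1, by have := hd.1; omega⟩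
      rw [he] at hf
      have h3 := roots_le hf 0 (Ico (0 : ℤ) P)
      have h4 : Y.card ≤ e + 1 := by
        refine le_trans (card_le_card ?_) h3
        intro x hx
        rw [mem_filter]
        refine ⟨hY hx, ?_⟩
        by_contra hc
        exact Del_two hc (hYd x hx)
      have h5 : (Y.card : ℝ) ≤ K := by exact_mod_cast h4.trans (by have := hd.2; omega)
      rw [← hq, le_div_iff₀ (by positivity)]
      calc (Y.card : ℝ) * q ^ (c + 1) ≤ q * q ^ (c + 1) := mul_le_mul_of_nonneg_right (h5.trans hKq) (by positivity)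
        _ = q ^ (c + 2) := by ring
        _ ≤ q ^ (c + 10) := pow_le_pow_right₀ hq1 (by omega)
        _ ≤ P := hPm) (by
      intro u v hu hu' hv hv' Y hY hYl
      exact hQ1 Q (by omega) N hN1 hN2 B hw hBs d P f hd hf hP hPN hfB u v hu hu' hv hv' Y hY hYl)

/-- all even numbers near the values -/
theorem good2T (K L1 L2 E' : ℕ) (hL1 : lE 2 ≤ L1)
    (hE' : 2 + 2 * 2 ^ K * (3 + (3 + 10) + 6) ≤ E') (hE32 : 32 ≤ E') : ∃ Q0 : ℕ, ∀ Q : ℕ, Q0 ≤ Q →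
    ∀ N : ℕ, Q ^ L1 ≤ N → N ≤ Q ^ L2 →
    ∀ B : PC → ℝ, HW Q ((4 * 1 + 1) * N) B → ∑ j ∈ fam Q, B j ≤ 3 →
    ∀ (P : ℕ) (F : ℤ[X]), (1 ≤ F.natDegree ∧ F.natDegree ≤ K) →
    (N : ℝ) ≤ qk (2 * E') Q * (P : ℝ) ^ F.natDegree → (∀ x : ℤ, 0 ≤ x → x < P → |F.eval x| ≤ N) →
    ∃ Ex : Finset ℤ, (Ex.card : ℝ) ≤ P / qk (2 * E') Q ∧
      ∀ x : ℤ, 0 ≤ x → x < P → x ∉ Ex → ∀ m : ℤ, ((|m - F.eval x| : ℤ) : ℝ) ≤ qk (2 * E') Q →
        GoodH (2 * E') Q N 1 a2 (h2 m) ∧ |m| ≤ 2 * N := by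
  classical
  obtain ⟨Q1, hQ1⟩ := good2 K 3 L1 L2 E' hL1 hE' hE32
  have hE0 : (0 : ℝ) < ((2 * E' : ℕ) : ℝ) := by exact_mod_cast (by omega : 0 < 2 * E')
  obtain ⟨Q3, hQ3⟩ := ev_log 3 0 (a := 1 / ((2 * E' : ℕ) : ℝ)) (by positivity)
  refine ⟨Q1 + Q3 + 3, fun Q hQ N hN1 hN2 B hw hBs P F hF hPN hFB => ?_⟩
  have hQ1' : 1 ≤ Q := by omega
  have hQr : (1 : ℝ) ≤ Q := by exact_mod_cast hQ1'
  obtain ⟨q, hq⟩ : ∃ q : ℝ, q = qk (2 * E') Q := ⟨_, rfl⟩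
  have hq1 : 1 ≤ q := by rw [hq]; exact qk_ge hQ1'
  have hq0 : 0 < q := by linarith
  have hqd : (Q : ℝ) ^ (1 / ((2 * E' : ℕ) : ℝ)) = q := by rw [hq]; rfl
  have h3q : 3 ≤ q := by
    have := hQ3 Q (by omega)
    rwa [pow_zero, mul_one, hqd] at this
  have hQN : Q ≤ N := by
    have h40 : 40 ≤ lE 2 := by unfold lE; omega
    have h1 : Q ≤ Q ^ L1 := Nat.le_self_pow (by omega) Q
    omega
  have hN0 : (0 : ℝ) < N := by exact_mod_cast (by omega : 0 < N)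
  obtain ⟨T, hT⟩ : ∃ T : ℕ, T = ⌊q⌋₊ := ⟨_, rfl⟩
  have hTq : (T : ℝ) ≤ q := by rw [hT]; exact Nat.floor_le hq0.le
  have hTN : T ≤ N := by
    have h1 : (T : ℝ) ≤ Q := hTq.trans (by
      have := qk_le (E := 2 * E') (Q := Q) (by omega) hQ1' (n := 1) (by omega)
      rwa [pow_one, ← hq] at this)
    have h2 : T ≤ Q := by exact_mod_cast h1
    omega
  have hP1 : 1 ≤ P := by
    by_contra hc
    have h0 : P = 0 := by omega
    rw [h0, Nat.cast_zero, zero_pow (by have := hF.1; omega), mul_zero] at hPN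
    linarith
  have hbd : ∀ t ∈ Icc (-(T : ℤ)) T, ∀ y : ℤ, 0 ≤ y → y < P → |F.eval y + t| ≤ 2 * N := by
    intro t ht y hy hy'
    rw [mem_Icc] at ht
    have h1 := hFB y hy hy'
    have h3 : |t| ≤ T := abs_le.2 ht
    have h4 := abs_add_le (F.eval y) t
    have h5 : (T : ℤ) ≤ N := by exact_mod_cast hTN
    linarith
  have ht : ∀ t ∈ Icc (-(T : ℤ)) T, ∃ E : Finset ℤ, (E.card : ℝ) ≤ P / q ^ 3 ∧
      ∀ x ∈ Ico (0 : ℤ) P, x ∉ E → GoodH (2 * E') Q N 1 a2 (h2 (F.eval x + t)) := by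
    intro t ht
    have h1 := hQ1 Q (by omega) N hN1 hN2 B hw hBs F.natDegree P
      (fun y => F.eval y + t) hF ⟨F + C t, natDegree_add_C, fun y => by
      rw [eval_add, eval_C]⟩ hP1 hPN (by
        intro y hy
        rw [mem_Ico] at hy
        exact hbd t ht y hy.1 hy.2)
    rwa [← hq] at h1
  choose! Et hEt1 hEt2 using ht
  rw [← hq]
  refine ⟨(Icc (-(T : ℤ)) T).biUnion Et, ?_, ?_⟩
  · have hTsc : ((Icc (-(T : ℤ)) T).card : ℝ) ≤ q ^ 2 := by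
      have h1 : (Icc (-(T : ℤ)) T).card = 2 * T + 1 := by
        rw [Int.card_Icc]
        omega
      rw [h1]
      push_cast
      nlinarith
    have h1 : (((Icc (-(T : ℤ)) T).biUnion Et).card : ℝ) ≤ ∑ t ∈ Icc (-(T : ℤ)) T, ((Et t).card : ℝ) := by
      exact_mod_cast card_biUnion_le
    refine (h1.trans (sum_le_sum hEt1)).trans ?_
    rw [sum_const, nsmul_eq_mul]
    calc ((Icc (-(T : ℤ)) T).card : ℝ) * (P / q ^ 3) ≤ q ^ 2 * (P / q ^ 3) :=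
          mul_le_mul_of_nonneg_right hTsc (by positivity)
      _ = P / q := by
        field_simp
  · intro x hx hx' hxE m hm
    obtain ⟨t, htd⟩ : ∃ t : ℤ, t = m - F.eval x := ⟨_, rfl⟩
    have htT : t ∈ Icc (-(T : ℤ)) T := by
      rw [mem_Icc, ← abs_le]
      rw [← htd] at hm
      have h2 : |t| = (t.natAbs : ℤ) := Int.abs_eq_natAbs _
      rw [h2]
      have h3 : (t.natAbs : ℝ) ≤ q := by
        have h4 : (t.natAbs : ℝ) = ((|t| : ℤ) : ℝ) := by rw [h2]; simp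
        rw [h4]
        exact hm
      have h5 := Nat.le_floor h3
      rw [← hT] at h5
      exact_mod_cast h5
    have hxE' : x ∉ Et t := fun hc => hxE (mem_biUnion.2 ⟨t, htT, hc⟩)
    have hht : F.eval x + t = m := by rw [htd]; ring
    have h1 := hEt2 t htT x (mem_Ico.2 ⟨hx, hx'⟩) hxE'
    have h2 := hbd t htT x hx hx'
    rw [hht] at h1 h2
    exact ⟨h1, h2⟩

lemma adm_even {m : ℤ} (hm : 2 ∣ m) {p : ℕ} (hp : p.Prime) : nuP a2 (h2 m) p < p := by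
  rcases hp.two_le.eq_or_lt with h | h
  · subst h
    have h1 : nuP a2 (h2 m) 2 ≤ ({0} : Finset ℕ).card := by
      unfold nuP
      apply card_le_card
      intro y hy
      rw [mem_filter, mem_range] at hy
      obtain ⟨hy1, i, hi⟩ := hy
      rw [mem_singleton]
      by_contra hc
      have hy2 : y = 1 := by omega
      subst hy2
      fin_cases i
      · simp only [a2, h2, Fin.zero_eta, Matrix.cons_val_zero] at hi
        omega
      · simp only [a2, h2, Fin.mk_one, Matrix.cons_val_one] at hi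
        push_cast at hi
        obtain ⟨t, ht⟩ := hi
        have ht' : -1 * 1 + m = 2 * t := ht
        omega
    rw [card_singleton] at h1
    omega
  · apply nuP_lt_of hp h
    intro i hi
    have hp1 : (p : ℤ) ∣ 1 := by
      fin_cases i
      · simpa [a2] using hi
      · simpa [a2] using hi
    have := Int.le_of_dvd one_pos hp1
    omega

end Pool.Agent.Helper85.HP
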