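import Pool.Agent.Helper85.HP.G2

set_option autoImplicit false

/-!
# Goldbach's problem along integer polynomials at every scale and at most scales
-/

open Finset Filter Topology Polynomial

namespace Pool.Agent.Helper85.HP

open Pool.Agent.H807R2.Dav hiding KK
open Pool.Agent.Helper86.PS
open Pool.Agent.Helper86.XS

lemma Del_a2 (m : ℤ) : Del a2 (h2 m) * ∏ i, a2 i = m ^ 2 := by
  have e0 : (univ : Finset (Fin 2)).erase 0 = {1} := by decide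
  have e1 : (univ : Finset (Fin 2)).erase 1 = {0} := by decide
  unfold Del
  rw [Fin.prod_univ_two, Fin.prod_univ_two, e0, e1, prod_singleton, prod_singleton]
  simp only [a2, h2, Matrix.cons_val_zero, Matrix.cons_val_one]
  ring

/-- the statement at the scale `N` -/
def GPR (K : ℕ) (ε δ c θ : ℝ) (R : ℤ → Prop) (N : ℕ) : Prop :=
  ∀ (P : ℕ) (F : ℤ[X]), (1 ≤ F.natDegree ∧ F.natDegree ≤ K) → (N : ℝ) ^ (1 - δ) ≤ (P : ℝ) ^ F.natDegree →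
    (∀ x : ℤ, 0 ≤ x → x < P → |F.eval x| ≤ N) →
    ∃ E : Finset ℤ, (E.card : ℝ) ≤ (N : ℝ) ^ (-δ) * P ∧
      ∀ x : ℤ, 0 ≤ x → x < P → x ∉ E → ∀ m : ℤ, ((|m - F.eval x| : ℤ) : ℝ) ≤ (N : ℝ) ^ δ → 2 ∣ m →
        ∃ S : ℝ, HasProd (fun p : Nat.Primes => facP a2 (h2 m) (p : ℕ)) S ∧ c ≤ S ∧
          ∀ u v : ℤ, 1 ≤ u → v ≤ m → (N : ℝ) ^ (1 - δ) ≤ ((v - u : ℤ) : ℝ) →
            c * θ ^ 2 * (S * (((v - u : ℤ) : ℝ) / Real.log N ^ 2)) ≤ (pc a2 (h2 m) u v : ℝ) ∧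
            (R m → |(pc a2 (h2 m) u v : ℝ) - S * (((v - u : ℤ) : ℝ) / Real.log N ^ 2)| ≤
              ε * (S * (((v - u : ℤ) : ℝ) / Real.log N ^ 2)))

lemma a2_facts : (∀ i, a2 i ≠ 0) ∧ (∀ i, |a2 i| ≤ ((1 : ℕ) : ℤ)) := by
  constructor
  · intro i; fin_cases i <;> simp [a2]
  · intro i; fin_cases i <;> simp [a2]

lemma h2_bd {m N : ℤ} (hN : 0 ≤ N) (hm : |m| ≤ 2 * N) : ∀ i, |h2 m i| ≤ 2 * ((1 : ℕ) : ℤ) * N := by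
  intro i
  fin_cases i
  · simp only [h2, Fin.zero_eta, Matrix.cons_val_zero, abs_zero]
    push_cast
    linarith
  · simp only [h2, Fin.mk_one, Matrix.cons_val_one, Matrix.cons_val_fin_one, Matrix.cons_val_zero]
    push_cast
    linarith

lemma pos2 {m u v : ℤ} (hu : 1 ≤ u) (hv : v ≤ m) : ∀ n ∈ Ico u v, ∀ i, 1 ≤ a2 i * n + h2 m i := by
  intro n hn i
  rw [mem_Ico] at hn
  fin_cases i
  · simp only [a2, h2, Fin.zero_eta, Matrix.cons_val_zero]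
    linarith
  · simp only [a2, h2, Fin.mk_one, Matrix.cons_val_one, Matrix.cons_val_fin_one, Matrix.cons_val_zero]
    linarith

theorem everyG (K : ℕ) {ε : ℝ} (hε : 0 < ε) :
    ∃ D : ℕ, 0 < D ∧ ∃ δ : ℝ, 0 < δ ∧ ∃ c : ℝ, 0 < c ∧ ∀ B : ℕ, ∀ κ : ℝ, 0 < κ → ∃ N0 : ℕ, ∀ N : ℕ, N0 ≤ N →
    ∃ r : ℕ, Real.log N ^ B ≤ r ∧ ∃ θ : ℝ, (N : ℝ) ^ (-κ) ≤ θ ∧ θ ≤ 1 ∧
      GPR K ε δ c θ (fun m => ¬ (r : ℤ) ∣ (D : ℤ) * m ^ 2) N := by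
  classical
  obtain ⟨D, hD, L1, L2, hL1, hL2, hX⟩ := everyX 2 (by norm_num) hε
  obtain ⟨c2, hc2, L3, L4, hL3, hL4, hL⟩ := everyL 2 (by norm_num)
  obtain ⟨E', hE'⟩ : ∃ E' : ℕ, E' = 2 + 2 * 2 ^ K * (3 + (3 + 10) + 6) + 32 := ⟨_, rfl⟩
  obtain ⟨L, hLd⟩ : ∃ L : ℕ, L = L2 + L4 := ⟨_, rfl⟩
  obtain ⟨δ, hδ⟩ : ∃ δ : ℝ, δ = 1 / (2 * ((2 * E' * 1 * L : ℕ) : ℝ)) := ⟨_, rfl⟩
  have hδ0 : 0 < δ := by
    have h1 : 0 < 2 * E' * 1 * L := by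
      have h3 : 0 < L := by omega
      have h4 : 0 < 2 * E' := by omega
      positivity
    have h5 : (0 : ℝ) < ((2 * E' * 1 * L : ℕ) : ℝ) := by exact_mod_cast h1
    rw [hδ]
    positivity
  obtain ⟨N4, hN4⟩ := small_coeff (k := 2 * E') (m := 1) (L := L) (by omega) (by omega) hδ le_rfl
  obtain ⟨Q1, hQ1⟩ := good2T K L1 L2 E' hL1 (by omega) (by omega)
  obtain ⟨Q2, hQ2⟩ := good2T K L3 L4 E' hL3 (by omega) (by omega)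
  obtain ⟨c, hc⟩ : ∃ c : ℝ, c = min c2 (cS 2 / 2) := ⟨_, rfl⟩
  have hcS := cS_pos 2
  have hc0 : 0 < c := by rw [hc]; exact lt_min hc2 (by positivity)
  refine ⟨D, hD, δ, hδ0, c, hc0, fun B κ hκ => ?_⟩
  obtain ⟨T2, hT2⟩ : ∃ T2 : ℕ, T2 = (1 + 1) ^ (2 * E' * (2 + 2) ^ 2) := ⟨_, rfl⟩
  obtain ⟨N1, hN1⟩ := hX (2 * E') (by omega) B (Q1 + T2 + 1)
  obtain ⟨N2, hN2⟩ := hL (2 * E') (by omega) κ hκ (Q2 + T2 + 1)
  refine ⟨N1 + N2 + N4 + 1, fun N hN => ?_⟩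
  obtain ⟨Qa, hQa0, hQa1, hQa2, r, hr, hP1⟩ := hN1 N (by omega)
  obtain ⟨Qb, hQb0, hQb1, hQb2, θ, hθ1, hθ2, hP2⟩ := hN2 N (by omega)
  obtain ⟨⟨-, -, h3⟩, hsc⟩ := hN4 N (by omega)
  have hN1r : (1 : ℝ) ≤ N := by exact_mod_cast (by omega : 1 ≤ N)
  have hN0 : (0 : ℝ) < N := by linarith
  obtain ⟨-, ha2⟩ := hsc Qa L2 (by omega) (by omega) hQa2
  obtain ⟨-, hb2⟩ := hsc Qb L4 (by omega) (by omega) hQb2
  have hNδ0 : 0 < (N : ℝ) ^ δ := Real.rpow_pos_of_pos hN0 _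
  have h2δ : (N : ℝ) ^ (2 * δ) = (N : ℝ) ^ δ * (N : ℝ) ^ δ := by
    rw [← Real.rpow_add hN0]; congr 1; ring
  have hδ2δ : (N : ℝ) ^ δ ≤ (N : ℝ) ^ (2 * δ) := Real.rpow_le_rpow_of_exponent_le hN1r (by linarith)
  have hsplit : (N : ℝ) = (N : ℝ) ^ δ * (N : ℝ) ^ (1 - δ) := by
    rw [← Real.rpow_add hN0]
    have : δ + (1 - δ) = 1 := by ring
    rw [this, Real.rpow_one]
  refine ⟨r, hr, θ, hθ1, hθ2, fun P F hF hPN hFB => ?_⟩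
  obtain ⟨ha0, haA⟩ := a2_facts
  obtain ⟨⟨B1, hw1, hs1⟩, hP1'⟩ := hP1 1 le_rfl (by rw [← hT2]; omega)
  obtain ⟨⟨B2, hw2, hs2⟩, hP2'⟩ := hP2 1 le_rfl (by rw [← hT2]; omega)
  have hPN' : ∀ q : ℝ, (N : ℝ) ^ (2 * δ) ≤ q → (N : ℝ) ≤ q * (P : ℝ) ^ F.natDegree := by
    intro q hq
    calc (N : ℝ) = (N : ℝ) ^ δ * (N : ℝ) ^ (1 - δ) := hsplit
      _ ≤ q * (P : ℝ) ^ F.natDegree := mul_le_mul (hδ2δ.trans hq) hPN (Real.rpow_nonneg hN0.le _)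
          (hNδ0.le.trans (hδ2δ.trans hq))
  obtain ⟨E1, hE1, hE1'⟩ := hQ1 Qa (by omega) N hQa1 hQa2 B1 hw1 hs1 P F hF (hPN' _ ha2) hFB
  obtain ⟨E2, hE2, hE2'⟩ := hQ2 Qb (by omega) N hQb1 hQb2 B2 hw2 hs2 P F hF (hPN' _ hb2) hFB
  have hPi0 : (0 : ℝ) ≤ P := Nat.cast_nonneg _
  refine ⟨E1 ∪ E2, ?_, fun x hx hx' hxE m hm hm2 => ?_⟩
  · have e1 : ((E1 ∪ E2).card : ℝ) ≤ E1.card + E2.card := by exact_mod_cast card_union_le E1 E2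
    have e2 : ∀ q : ℝ, (N : ℝ) ^ (2 * δ) ≤ q → (P : ℝ) / q ≤ P / (N : ℝ) ^ (2 * δ) :=
      fun q hq => div_le_div_of_nonneg_left hPi0 (Real.rpow_pos_of_pos hN0 _) hq
    have e3 := hE1.trans (e2 _ ha2)
    have e4 := hE2.trans (e2 _ hb2)
    have e5 : 2 * ((P : ℝ) / (N : ℝ) ^ (2 * δ)) ≤ (N : ℝ) ^ (-δ) * P := by
      rw [h2δ, Real.rpow_neg hN0.le]
      have e6 : 2 * ((P : ℝ) / ((N : ℝ) ^ δ * (N : ℝ) ^ δ)) = (2 / (N : ℝ) ^ δ) * (((N : ℝ) ^ δ)⁻¹ * P) := by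
        field_simp
      rw [e6]
      have e7 : 2 / (N : ℝ) ^ δ ≤ 1 := by rw [div_le_one hNδ0]; exact h3
      calc _ ≤ 1 * (((N : ℝ) ^ δ)⁻¹ * P) := mul_le_mul_of_nonneg_right e7 (by positivity)
        _ = _ := one_mul _
    linarith
  · rw [mem_union, not_or] at hxE
    obtain ⟨hG1, hhA⟩ := hE1' x hx hx' hxE.1 m (hm.trans (hδ2δ.trans ha2))
    obtain ⟨hG2, -⟩ := hE2' x hx hx' hxE.2 m (hm.trans (hδ2δ.trans hb2))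
    have hadm : ∀ p : ℕ, p.Prime → nuP a2 (h2 m) p < p := fun p hp => adm_even hm2 hp
    obtain ⟨S, hS⟩ := exists_facP ha0 hG1.1 hadm
    have hNz : (0 : ℤ) ≤ N := Int.natCast_nonneg _
    have hhb := h2_bd hNz hhA
    have hcS' : c ≤ S := by
      have f1 := S_lower hadm hS
      have f2 : c ≤ cS 2 / 2 := by rw [hc]; exact min_le_right _ _
      linarith
    have hlen : ∀ q : ℝ, (N : ℝ) ^ (2 * δ) ≤ q → ∀ W : ℝ, (N : ℝ) ^ (1 - δ) ≤ W → (N : ℝ) / q ≤ W := by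
      intro q hq W h5
      refine le_trans ?_ h5
      have hq0 : 0 < q := lt_of_lt_of_le (Real.rpow_pos_of_pos hN0 _) hq
      rw [div_le_iff₀ hq0]
      calc (N : ℝ) = (N : ℝ) ^ δ * (N : ℝ) ^ (1 - δ) := hsplit
        _ ≤ q * (N : ℝ) ^ (1 - δ) := mul_le_mul_of_nonneg_right (hδ2δ.trans hq) (Real.rpow_nonneg hN0.le _)
        _ = _ := mul_comm _ _
    have hm2N : m ≤ 2 * N := (le_abs_self m).trans hhA
    refine ⟨S, hS, hcS', fun u v hu hv hW => ⟨?_, fun hPr => ?_⟩⟩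
    · have f1 := hP2' a2 (h2 m) ha0 haA hhb hG2 hadm S hS u v (by linarith) (by linarith) (hlen _ hb2 _ hW) (pos2 hu hv)
      refine le_trans ?_ f1
      have hW0 : 0 ≤ ((v - u : ℤ) : ℝ) := le_trans (Real.rpow_nonneg hN0.le _) hW
      have hθ0 : 0 ≤ θ := le_trans (Real.rpow_nonneg hN0.le _) hθ1
      have hlog : 0 ≤ Real.log N := Real.log_natCast_nonneg N
      have hS0 : 0 ≤ S := hc0.le.trans hcS'
      apply mul_le_mul_of_nonneg_right _ (by positivity)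
      apply mul_le_mul_of_nonneg_right _ (by positivity)
      rw [hc]
      exact min_le_left _ _
    · exact hP1' a2 (h2 m) ha0 haA hhb hG1 (by rw [Del_a2]; exact hPr) hadm S hS u v (by linarith) (by linarith)
        (hlen _ ha2 _ hW) (pos2 hu hv)

/-- the statement at the scale `N` -/
def GPM (K : ℕ) (ε δ : ℝ) (N : ℕ) : Prop :=
  ∀ (P : ℕ) (F : ℤ[X]), (1 ≤ F.natDegree ∧ F.natDegree ≤ K) → (N : ℝ) ^ (1 - δ) ≤ (P : ℝ) ^ F.natDegree →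
    (∀ x : ℤ, 0 ≤ x → x < P → |F.eval x| ≤ N) →
    ∃ E : Finset ℤ, (E.card : ℝ) ≤ (N : ℝ) ^ (-δ) * P ∧
      ∀ x : ℤ, 0 ≤ x → x < P → x ∉ E → ∀ m : ℤ, ((|m - F.eval x| : ℤ) : ℝ) ≤ (N : ℝ) ^ δ → 2 ∣ m →
        ∃ S : ℝ, HasProd (fun p : Nat.Primes => facP a2 (h2 m) (p : ℕ)) S ∧
          ∀ u v : ℤ, 1 ≤ u → v ≤ m → (N : ℝ) ^ (1 - δ) ≤ ((v - u : ℤ) : ℝ) →
            |(pc a2 (h2 m) u v : ℝ) - S * (((v - u : ℤ) : ℝ) / Real.log N ^ 2)| ≤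
              ε * (S * (((v - u : ℤ) : ℝ) / Real.log N ^ 2))

theorem mostG (K : ℕ) {ε : ℝ} (hε : 0 < ε) : ∃ δ : ℝ, 0 < δ ∧ MostSc ε (GPM K ε δ) := by
  classical
  obtain ⟨s, hs2⟩ : ∃ s : ℕ, s = 2 := ⟨_, rfl⟩
  have hs : 1 ≤ 2 := by norm_num
  obtain ⟨ε0, hε0d⟩ : ∃ ε0 : ℝ, ε0 = min ε 1 := ⟨_, rfl⟩
  have hε00 : 0 < ε0 := by rw [hε0d]; exact lt_min hε one_pos
  have hε01 : ε0 ≤ 1 := by rw [hε0d]; exact min_le_right _ _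
  have hε0ε : ε0 ≤ ε := by rw [hε0d]; exact min_le_left _ _
  obtain ⟨E1, hE1⟩ := short_main
  obtain ⟨E2, hE2⟩ := Pool.Agent.TH823.PS.good_scales
  obtain ⟨E, hE⟩ : ∃ E : ℕ, E = E1 + E2 := ⟨_, rfl⟩
  obtain ⟨ε', hε'⟩ : ∃ ε' : ℝ, ε' = ε0 / (80 * (2 : ℕ) * 4 ^ 2) := ⟨_, rfl⟩
  have hε'0 : 0 < ε' := by rw [hε']; positivity
  have hε'1 : ε' ≤ 1 := by
    rw [hε', div_le_one (by positivity)]
    push_cast
    linarith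
  have hpow : (3 + ε') ^ 2 - 3 ^ 2 ≤ ε0 / 80 := by
    refine (pow_three_small hε'0.le hε'1 2).trans (le_of_eq ?_)
    rw [hε']
    field_simp
  obtain ⟨L0, Q1, hQ1⟩ := hE1 E (by omega) ε' hε'0
  obtain ⟨k1, hk1⟩ := exists_nat_ge (160 * ((2 : ℕ) : ℝ) / ε0)
  obtain ⟨L1, hL1⟩ : ∃ L1 : ℕ, L1 = lE 2 + k1 + L0 + 6 := ⟨_, rfl⟩
  obtain ⟨k2, hk2⟩ := exists_nat_ge (((L1 : ℝ) + 1) / ε0)
  obtain ⟨L2, hL2⟩ : ∃ L2 : ℕ, L2 = k2 + 1 := ⟨_, rfl⟩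
  have hL1κ : 160 * ((2 : ℕ) : ℝ) ≤ ε0 * L1 := by
    have h1 : (k1 : ℝ) ≤ L1 := by exact_mod_cast (by omega : k1 ≤ L1)
    have h2 := hk1.trans h1
    rw [div_le_iff₀ hε00] at h2
    linarith
  have hL2κ : (L1 + 1 : ℝ) ≤ ε0 * L2 := by
    have h1 : (k2 : ℝ) ≤ L2 := by exact_mod_cast (by omega : k2 ≤ L2)
    have h2 := hk2.trans h1
    rw [div_le_iff₀ hε00] at h2
    linarith
  obtain ⟨E', hE'⟩ : ∃ E' : ℕ, E' = 2 + 2 * 2 ^ K * (3 + (3 + 10) + 6) + 32 := ⟨_, rfl⟩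
  obtain ⟨δ, hδ⟩ : ∃ δ : ℝ, δ = 1 / (2 * ((2 * E' * 1 * L2 : ℕ) : ℝ)) := ⟨_, rfl⟩
  have hδ0 : 0 < δ := by
    have h1 : 0 < 2 * E' * 1 * L2 := by
      have h3 : 0 < L2 := by omega
      have h4 : 0 < 2 * E' := by omega
      positivity
    have h5 : (0 : ℝ) < ((2 * E' * 1 * L2 : ℕ) : ℝ) := by exact_mod_cast h1
    rw [hδ]
    positivity
  obtain ⟨N4, hN4⟩ := small_coeff (k := 2 * E') (m := 1) (L := L2) (by omega) (by omega) hδ le_rfl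
  obtain ⟨Q2, hQ2⟩ := good2T K L1 L2 E' (by omega) (by omega) (by omega)
  obtain ⟨Q3, hQ3⟩ := hw_of_short (L0 := L0) (L2 := L2 + 1)
  have hL1κ' : 16 * ((2 : ℕ) : ℝ) ≤ ε0 / 10 * L1 := by
    have h1 : ε0 / 10 * (L1 : ℝ) = ε0 * L1 / 10 := by ring
    rw [h1, le_div_iff₀ (by norm_num)]
    push_cast at hL1κ ⊢
    linarith
  obtain ⟨Q4, hQ4⟩ := per_hXE (E := 2 * E') (by omega) 2 hs (κ := ε0 / 10) (by positivity) (by linarith) L1 L2 (by omega) hL1κ'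
  obtain ⟨k9, hk9⟩ := exists_nat_ge ((4 * ((2 : ℕ) : ℝ) / (ε0 / 10 / (8 * 3 ^ 2))) ^ 2)
  obtain ⟨K0, hK0⟩ : ∃ K0 : ℕ, K0 = 8 + 2 * 2 + k9 := ⟨_, rfl⟩
  have hKρ : (4 * ((2 : ℕ) : ℝ) / (ε0 / 10 / (8 * 3 ^ 2))) ^ 2 ≤ K0 :=
    hk9.trans (by exact_mod_cast (by omega : k9 ≤ K0))
  refine ⟨δ, hδ0, ?_⟩
  obtain ⟨T2, hT2⟩ : ∃ T2 : ℕ, T2 = (1 + 1) ^ (2 * E' * (2 + 2) ^ 2) := ⟨_, rfl⟩
  refine most_range (E := E) (L1 := L1) (L2 := L2) (Q0 := Q1 + Q2 + Q3 + Q4 + N4 + T2 + 5)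
    (fun Q0 => hE2 E (by omega) 44 (by norm_num) Q0)
    (hL2κ.trans (mul_le_mul_of_nonneg_right hε0ε (Nat.cast_nonneg _))) ?_
  intro Q hQ hNE N hN1 hN2
  obtain ⟨b, hb0, hbs, hb⟩ := hQ1 Q (by omega) hNE
  have hQN : Q ≤ N := by
    have h3 : Q ≤ Q ^ L1 := Nat.le_self_pow (by omega) Q
    omega
  obtain ⟨⟨-, -, h3⟩, hsc⟩ := hN4 N (by omega)
  have hN1r : (1 : ℝ) ≤ N := by exact_mod_cast (by omega : 1 ≤ N)
  have hN0 : (0 : ℝ) < N := by linarith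
  obtain ⟨-, ha2⟩ := hsc Q L2 le_rfl (by omega) hN2
  have hNM : N ≤ (4 * 1 + 1) * N := Nat.le_mul_of_pos_left _ (by omega)
  have hw := hQ3 Q (by omega) b hb0 hb ((4 * 1 + 1) * N)
    (((Nat.pow_le_pow_right (by omega) (by omega : L0 + 6 ≤ L1)).trans hN1).trans hNM) (by
      calc (4 * 1 + 1) * N ≤ Q * Q ^ L2 := Nat.mul_le_mul (by omega) hN2
        _ = Q ^ (L2 + 1) := by ring)
  have hNδ0 : 0 < (N : ℝ) ^ δ := Real.rpow_pos_of_pos hN0 _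
  have hδ2δ : (N : ℝ) ^ δ ≤ (N : ℝ) ^ (2 * δ) := Real.rpow_le_rpow_of_exponent_le hN1r (by linarith)
  have hsplit : (N : ℝ) = (N : ℝ) ^ δ * (N : ℝ) ^ (1 - δ) := by
    rw [← Real.rpow_add hN0]
    have : δ + (1 - δ) = 1 := by ring
    rw [this, Real.rpow_one]
  obtain ⟨q, hq⟩ : ∃ q : ℝ, q = qk (2 * E') Q := ⟨_, rfl⟩
  rw [← hq] at ha2
  have hNq : (N : ℝ) ^ δ ≤ q := hδ2δ.trans ha2
  have hq0 : 0 < q := lt_of_lt_of_le hNδ0 hNq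
  obtain ⟨ha0, haA⟩ := a2_facts
  intro P F hF hPN hFB
  have hPN' : (N : ℝ) ≤ qk (2 * E') Q * (P : ℝ) ^ F.natDegree := by
    rw [← hq]
    calc (N : ℝ) = (N : ℝ) ^ δ * (N : ℝ) ^ (1 - δ) := hsplit
      _ ≤ q * (P : ℝ) ^ F.natDegree := mul_le_mul hNq hPN (Real.rpow_nonneg hN0.le _) hq0.le
  obtain ⟨E1, hE1, hE1'⟩ := hQ2 Q (by omega) N hN1 hN2 b hw (by linarith) P F hF hPN' hFB
  rw [← hq] at hE1 hE1'
  have hPi0 : (0 : ℝ) ≤ P := Nat.cast_nonneg _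
  refine ⟨E1, ?_, fun x hx hx' hxE m hm hm2 => ?_⟩
  · refine hE1.trans ?_
    rw [Real.rpow_neg hN0.le, div_eq_mul_inv, mul_comm]
    apply mul_le_mul_of_nonneg_right _ hPi0
    exact inv_anti₀ hNδ0 hNq
  · obtain ⟨hG1, hhA⟩ := hE1' x hx hx' hxE m (hm.trans hNq)
    have hadm : ∀ p : ℕ, p.Prime → nuP a2 (h2 m) p < p := fun p hp => adm_even hm2 hp
    obtain ⟨S, hS⟩ := exists_facP ha0 hG1.1 hadm
    have hNz : (0 : ℤ) ≤ N := Int.natCast_nonneg _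
    have hhb := h2_bd hNz hhA
    have hm2N : m ≤ 2 * N := (le_abs_self m).trans hhA
    refine ⟨S, hS, fun u v hu hv hW => ?_⟩
    have h1 := hQ4 Q (by omega) 1 (by rw [← hT2]; omega) N hN1 hN2 b ∅ (HW_HX hw) (fun j hj => absurd hj (notMem_empty j)) ε' hbs
      (by linarith) K0 (by omega) (by omega) hKρ a2 (h2 m) ha0 haA hhb hG1.1 (fun j hj => absurd hj (notMem_empty j)) hadm hG1.2
      S hS u v (by linarith) (by linarith) (by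
        refine le_trans ?_ hW
        rw [← hq, div_le_iff₀ hq0]
        calc (N : ℝ) = (N : ℝ) ^ δ * (N : ℝ) ^ (1 - δ) := hsplit
          _ ≤ q * (N : ℝ) ^ (1 - δ) := mul_le_mul_of_nonneg_right hNq (Real.rpow_nonneg hN0.le _)
          _ = _ := mul_comm _ _) (pos2 hu hv)
    have e2 : 10 * (ε0 / 10) = ε0 := by ring
    rw [e2] at h1
    refine h1.trans ?_
    have h2 : 0 ≤ ε0 * (S * (((v - u : ℤ) : ℝ) / Real.log N ^ 2)) := (abs_nonneg _).trans h1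
    have h3 : 0 ≤ S * (((v - u : ℤ) : ℝ) / Real.log N ^ 2) := nonneg_of_mul_nonneg_right h2 hε00
    exact mul_le_mul_of_nonneg_right hε0ε h3

end Pool.Agent.Helper85.HP
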