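import Pool.Agent.Helper85.HP.G3

set_option autoImplicit false

/-!
# Goldbach's problem along integer polynomials: the statements for natural numbers
-/

open Finset Filter Topology Polynomial

namespace Pool.Agent.Helper85.HP

open Pool.Agent.H807R2.Dav hiding KK
open Pool.Agent.Helper86.PS
open Pool.Agent.Helper86.XS

lemma nuP_a2 {m : ℤ} {p : ℕ} (hp : p.Prime) : nuP a2 (h2 m) p = if (p : ℤ) ∣ m then 1 else 2 := by
  have hp0 : (0 : ℤ) < p := by exact_mod_cast hp.pos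
  have h1 : (range p).filter (fun x : ℕ => ∃ i, (p : ℤ) ∣ a2 i * x + h2 m i) = {0, (m % p).toNat} := by
    ext x
    simp only [mem_filter, mem_range, mem_insert, mem_singleton, Fin.exists_fin_two]
    have e0 : a2 0 * (x : ℤ) + h2 m 0 = x := by simp [a2, h2]
    have e1 : a2 1 * (x : ℤ) + h2 m 1 = m - x := by simp [a2, h2]; ring
    rw [e0, e1]
    constructor
    · rintro ⟨hx, h | h⟩
      · left
        exact Nat.eq_zero_of_dvd_of_lt (Int.natCast_dvd_natCast.1 h) hx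
      · right
        have h3 : m % p = (x : ℤ) % p := Int.emod_eq_emod_iff_emod_sub_eq_zero.2 (Int.emod_eq_zero_of_dvd h)
        rw [h3, Int.emod_eq_of_lt (by positivity) (by exact_mod_cast hx)]
        simp
    · rintro (h | h)
      · subst h
        exact ⟨hp.pos, Or.inl (by simp)⟩
      · have h3 := Int.emod_lt_of_pos m hp0
        have h4 := Int.emod_nonneg m hp0.ne'
        have h5 : ((m % p).toNat : ℤ) = m % p := Int.toNat_of_nonneg h4
        have h6 : (x : ℤ) = m % p := by rw [h, h5]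
        refine ⟨by exact_mod_cast (h6 ▸ h3 : (x : ℤ) < p), Or.inr ?_⟩
        rw [h6]
        exact Int.dvd_self_sub_emod
  unfold nuP
  rw [h1]
  split_ifs with h
  · rw [Int.emod_eq_zero_of_dvd h]
    simp
  · apply card_pair
    intro h2
    apply h
    apply Int.dvd_of_emod_eq_zero
    have h4 := Int.emod_nonneg m hp0.ne'
    have h5 : ((m % p).toNat : ℤ) = m % p := Int.toNat_of_nonneg h4
    rw [← h5, ← h2]
    simp

lemma facP_a2 {m : ℤ} {p : ℕ} (hp : p.Prime) : facP a2 (h2 m) p =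
    if (p : ℤ) ∣ m then (p : ℝ) / (p - 1) else (p : ℝ) * (p - 2) / (p - 1) ^ 2 := by
  have hp1 : (1 : ℝ) < p := by exact_mod_cast hp.one_lt
  have hp2 : (p : ℝ) - 1 ≠ 0 := by linarith
  have hp0 : (p : ℝ) ≠ 0 := by linarith
  have e1 : (1 : ℝ) - 1 / p = (p - 1) / p := by field_simp
  unfold facP
  rw [nuP_a2 hp, e1]
  split_ifs
  · push_cast
    field_simp
  · push_cast
    field_simp

lemma pc_a2 {n u v : ℕ} (hv : v ≤ 2 * n) : pc a2 (h2 (2 * (n : ℤ))) (u : ℤ) (v : ℤ) =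
    ((Ico u v).filter (fun p => p.Prime ∧ (2 * n - p).Prime)).card := by
  classical
  unfold pc
  symm
  refine card_nbij' (fun p : ℕ => (p : ℤ)) (fun z : ℤ => z.toNat) ?_ ?_ ?_ ?_
  · intro p hp
    rw [mem_coe, mem_filter, mem_Ico] at hp
    rw [mem_coe, mem_filter, mem_Ico]
    refine ⟨⟨Int.ofNat_le.2 hp.1.1, Int.ofNat_lt.2 hp.1.2⟩, ?_⟩
    intro i
    fin_cases i
    · simpa [a2, h2] using hp.2.1
    · have h3 : (a2 1 * (p : ℤ) + h2 (2 * (n : ℤ)) 1) = ((2 * n - p : ℕ) : ℤ) := by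
        have h4 : p ≤ 2 * n := by omega
        simp only [a2, h2, Matrix.cons_val_one, Matrix.cons_val_fin_one]
        push_cast [Nat.cast_sub h4]
        ring
      show (a2 1 * (p : ℤ) + h2 (2 * (n : ℤ)) 1).toNat.Prime
      rw [h3, Int.toNat_natCast]
      exact hp.2.2
  · intro z hz
    rw [mem_coe, mem_filter, mem_Ico] at hz
    rw [mem_coe, mem_filter, mem_Ico]
    obtain ⟨⟨hz1, hz2⟩, hz3⟩ := hz
    obtain ⟨w, rfl⟩ : ∃ w : ℕ, z = w := ⟨z.toNat, by omega⟩
    have h30 := hz3 0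
    have h31 := hz3 1
    have h3 : (a2 1 * (w : ℤ) + h2 (2 * (n : ℤ)) 1) = ((2 * n - w : ℕ) : ℤ) := by
      have h4 : w ≤ 2 * n := by omega
      simp only [a2, h2, Matrix.cons_val_one, Matrix.cons_val_fin_one]
      push_cast [Nat.cast_sub h4]
      ring
    rw [h3] at h31
    simp only [Int.toNat_natCast] at h31 ⊢
    refine ⟨⟨by exact_mod_cast hz1, by exact_mod_cast hz2⟩, ?_, h31⟩
    simpa [a2, h2] using h30
  · intro p _
    simp
  · intro z hz
    rw [mem_coe, mem_filter, mem_Ico] at hz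
    show ((z.toNat : ℕ) : ℤ) = z
    omega

lemma hasProd_a2 {m : ℤ} {S : ℝ} (hS : HasProd (fun p : Nat.Primes => facP a2 (h2 m) (p : ℕ)) S) :
    HasProd (fun p : Nat.Primes => if ((p : ℕ) : ℤ) ∣ m then ((p : ℕ) : ℝ) / ((p : ℕ) - 1)
      else ((p : ℕ) : ℝ) * ((p : ℕ) - 2) / ((p : ℕ) - 1) ^ 2) S := by
  have h1 : (fun p : Nat.Primes => facP a2 (h2 m) (p : ℕ)) = fun p : Nat.Primes => if ((p : ℕ) : ℤ) ∣ m
      then ((p : ℕ) : ℝ) / ((p : ℕ) - 1) else ((p : ℕ) : ℝ) * ((p : ℕ) - 2) / ((p : ℕ) - 1) ^ 2 := by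
    funext p
    exact facP_a2 p.2
  rw [← h1]
  exact hS

end Pool.Agent.Helper85.HP
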