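import Pool.Agent.Helper86.UA.U2
import Pool.Agent.Helper85.HP.D0

set_option autoImplicit false

/-!
# Numbers (copy of Pool/Agent/Helper86/UA/U3 with the exponent `1 / 64` replaced by `1 / E`)
-/

open Finset Filter Topology

namespace Pool.Agent.Helper85.HP

open Pool.Agent.H807R2.Dav hiding KK
open Pool.Agent.Helper86.PS
open Pool.Agent.Helper86.XS
open Pool.Agent.Helper86.DZ
open Pool.Agent.Helper86.UA

lemma key_numE {κ c0 cs ℓ q W lN c Cb θ : ℝ} {s : ℕ} {L : ℝ} (hκ : 0 < κ) (hcs : 0 < cs) (hℓ : 1 ≤ ℓ) (hq : 1 ≤ q)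
    (hW : 0 ≤ W) (hlN : 0 < lN) (hlN2 : lN ≤ L * ℓ) (hc0 : 0 ≤ c0) (hCb : Cb = c0 * L ^ s / (κ * cs))
    (hstar : Cb * ℓ ^ (s + 1) ≤ q) (hc : c ≤ c0) (_hθ : 0 < θ) (hθq : q ≤ θ * q ^ 3) :
    c * ℓ * (W / q ^ 3) ≤ κ * θ * (cs * (W / lN ^ s)) := by
  have hq3 : 0 < q ^ 3 := by positivity
  have hlNs : 0 < lN ^ s := by positivity
  have h1 : c0 * L ^ s * ℓ ^ (s + 1) ≤ κ * cs * q := by
    have h2 : Cb * ℓ ^ (s + 1) * (κ * cs) ≤ q * (κ * cs) := mul_le_mul_of_nonneg_right hstar (by positivity)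
    have h3 : Cb * ℓ ^ (s + 1) * (κ * cs) = c0 * L ^ s * ℓ ^ (s + 1) := by
      rw [hCb]; field_simp
    linarith
  have h2 : lN ^ s ≤ L ^ s * ℓ ^ s := by
    rw [← mul_pow]
    exact pow_le_pow_left₀ hlN.le hlN2 s
  have h4 : c * ℓ * lN ^ s ≤ κ * θ * cs * q ^ 3 := by
    calc c * ℓ * lN ^ s ≤ c0 * ℓ * (L ^ s * ℓ ^ s) := by
          apply mul_le_mul _ h2 hlNs.le (by positivity)
          exact mul_le_mul_of_nonneg_right hc (by linarith)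
      _ = c0 * L ^ s * ℓ ^ (s + 1) := by ring
      _ ≤ κ * cs * q := h1
      _ ≤ κ * cs * (θ * q ^ 3) := mul_le_mul_of_nonneg_left hθq (by positivity)
      _ = κ * θ * cs * q ^ 3 := by ring
  have e1 : c * ℓ * (W / q ^ 3) = (c * ℓ) * W / q ^ 3 := by ring
  have e2 : κ * θ * (cs * (W / lN ^ s)) = κ * θ * cs * W / lN ^ s := by ring
  rw [e1, e2, div_le_div_iff₀ hq3 hlNs]
  calc c * ℓ * W * lN ^ s = (c * ℓ * lN ^ s) * W := by ring
    _ ≤ (κ * θ * cs * q ^ 3) * W := mul_le_mul_of_nonneg_right h4 hW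
    _ = κ * θ * cs * W * q ^ 3 := by ring

end Pool.Agent.Helper85.HP
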